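import Pool.Agent.H.MP_6c077c_gt.Gd.Defs

/-! Guard theorem: cylinders over functions on a hyperplane. -/

set_option autoImplicit false

namespace Pool.Schoen

open Filter Set
open scoped Topology RealInnerProductSpace ContDiff

variable {V : Type*} [NormedAddCommGroup V] [InnerProductSpace ℝ V]

/-- The orthogonal projection of `x` to the hyperplane through `0`, as a point of the subspace. -/
noncomputable def hpr (e x : V) : (ℝ ∙ e)ᗮ := (ℝ ∙ e)ᗮ.orthogonalProjectionOnto x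

/-- `hpr` as a continuous linear map. -/
noncomputable def hprL (e : V) : V →L[ℝ] (ℝ ∙ e)ᗮ := (ℝ ∙ e)ᗮ.orthogonalProjectionOnto

theorem hprL_apply (e x : V) : hprL e x = hpr e x := rfl

theorem BaseDef_coe (e : V) (y : (ℝ ∙ e)ᗮ) : hpr e (y : V) = y :=
  Submodule.orthogonalProjectionOnto_mem_subspace_eq_self y

theorem BaseDef_self (e : V) : hpr e e = 0 :=
  Submodule.orthogonalProjectionOnto_orthogonalComplement_singleton_eq_zero e

theorem BaseDef_inner (e : V) (y : (ℝ ∙ e)ᗮ) : ⟪e, (y : V)⟫ = 0 :=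
  Submodule.mem_orthogonal_singleton_iff_inner_right.1 y.2

theorem BaseDef_add (e : V) (y : (ℝ ∙ e)ᗮ) (t : ℝ) : hpr e ((y : V) + t • e) = y := by
  rw [← hprL_apply, map_add, map_smul, hprL_apply, hprL_apply, BaseDef_coe, BaseDef_self,
    smul_zero, add_zero]

/-- PROOF. `x - ⟪e, x⟫ • e` is orthogonal to `e`
(`Submodule.eq_orthogonalProjection_of_mem_orthogonal` or `..._singleton`). -/
theorem hpr_add {e : V} (he : ‖e‖ = 1) (x : V) : ((hpr e x : (ℝ ∙ e)ᗮ) : V) + ⟪e, x⟫ • e = x := by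
  have h1 : x - ⟪e, x⟫ • e ∈ (ℝ ∙ e)ᗮ := by
    rw [Submodule.mem_orthogonal_singleton_iff_inner_right, inner_sub_right,
      real_inner_smul_right, real_inner_self_eq_norm_sq, he]
    ring
  have h2 := BaseDef_add e ⟨x - ⟪e, x⟫ • e, h1⟩ ⟪e, x⟫
  have h3 : ((⟨x - ⟪e, x⟫ • e, h1⟩ : (ℝ ∙ e)ᗮ) : V) + ⟪e, x⟫ • e = x := by
    simp
  rw [h3] at h2
  rw [h2]
  simp

theorem hpr_coe {e : V} (he : ‖e‖ = 1) (y : (ℝ ∙ e)ᗮ) (t : ℝ) : hpr e ((y : V) + t • e) = y := by
  exact BaseDef_add e y t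

theorem inner_hpr {e : V} (he : ‖e‖ = 1) (y : (ℝ ∙ e)ᗮ) (t : ℝ) : ⟪e, (y : V) + t • e⟫ = t := by
  rw [inner_add_right, BaseDef_inner, real_inner_smul_right, real_inner_self_eq_norm_sq, he]
  ring

theorem norm_hpr_le (e x : V) : ‖hpr e x‖ ≤ ‖x‖ := by
  exact Submodule.norm_orthogonalProjectionOnto_apply_le _ x

theorem hpr_slc {f : V → ℝ} {e : V} (he : ‖e‖ = 1) {c : ℝ} {x : V} (hx : ⟪e, x⟫ = c) :
    slc f e c (hpr e x) = f x := by
  have h1 := hpr_add he x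
  rw [hx] at h1
  unfold slc
  rw [h1]

/-- The cylinder over a function on the hyperplane, of height `2 s` about the level `c`. -/
noncomputable def cyl {e : V} (f0 : (ℝ ∙ e)ᗮ → ℝ) (c s : ℝ) (x : V) : ℝ :=
  max (f0 (hpr e x)) (|⟪e, x⟫ - c| - s)

end Pool.Schoen
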