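import Pool.Agent.H.MP_6c077c_gt.Gd.Level
import Pool.Agent.H.MP_6c077c_gt.Ix.T1star

/-! Guard theorem: the plane. -/

set_option autoImplicit false

namespace Pool.Schoen

open Filter Set Metric
open scoped ContDiff RealInnerProductSpace Topology

variable {V : Type*} [NormedAddCommGroup V] [InnerProductSpace ℝ V] [FiniteDimensional ℝ V]

theorem plane_nrm_of_inward {F : V → ℝ} {e x : V} (he : ‖e‖ = 1) (h : Inward F e x) :
    nrm F x = -e := by
  obtain ⟨_, c, hc, hg⟩ := h
  rw [nrm, hg, norm_neg, norm_smul, he, mul_one, Real.norm_of_nonneg hc.le, smul_neg, smul_smul,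
    inv_mul_cancel₀ hc.ne', one_smul]

/-- PROOF. A direction `e` from `exists_regular_both`; all inward points are `Inw`
(`inw_of_not_twoNeg`, `not_twoNeg_plane`) and finitely many (`level_finite`); `Class`, `t1star` (as in
`ix_T1`). -/
theorem ball_plane (hn : Module.finrank ℝ V = 2) (F : V → ℝ) (hD : Dom F) : IsBall F := by
  obtain ⟨hF, hb, hreg, hc, hl⟩ := hD
  have : Nontrivial V := Module.nontrivial_of_finrank_pos (R := ℝ) (by omega)
  obtain ⟨u, hu⟩ := exists_norm_eq V zero_le_one
  obtain ⟨e, he, -, hK⟩ := exists_regular_both 1 hn F hF hreg (Final_compact hF.continuous hb) u hu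
    1 one_pos
  have hfin := (level_finite 1 hn F ⟨hF, hb, hreg, hc, hl⟩ e he hK).1
  refine t1star e he hfin.toFinset F ⟨hb, ?_, ?_, ?_⟩ hc hl
  · exact good_of_regular hF (hb.subset fun x hx => le_of_eq hx)
      (fun x hx => Final_fderiv_ne (hreg x hx))
  · intro p hp
    have hp' : Inward F e p := by simpa using hp
    exact inw_of_not_twoNeg 1 hn F hF e he p hp'
      (hK p hp'.1 (Or.inr (plane_nrm_of_inward he hp')))
      (not_twoNeg_plane hn F p (hreg p hp'.1))
  · intro x hx hxP
    refine free_of_not_inward F hF e he x hx (hreg x hx) ?_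
    intro h
    apply hxP
    simpa using h

end Pool.Schoen
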