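import Pool.Agent.H.MP_6c077c_gt.Gd.Defs
import Pool.Agent.H.MP_6c077c_gt.Hy.Dir

/-! Guard theorem: directions which are regular from both sides. -/

set_option autoImplicit false

namespace Pool.Schoen

open MeasureTheory Measure Module Set
open scoped ENNReal ContDiff RealInnerProductSpace

variable {V : Type*} [NormedAddCommGroup V] [InnerProductSpace ℝ V] [FiniteDimensional ℝ V]

/-- PROOF. As `exists_regular_near` (`Hy/Dir.lean`), with the union of the image `S` of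
`{gaussK = 0}` under the normal and of `-S`, both of measure zero (`exists_unit_near`). -/
theorem exists_regular_both (n : ℕ) (hn : Module.finrank ℝ V = n + 1) (G : V → ℝ)
    (hG : ContDiff ℝ ∞ G) (hreg : ∀ x, G x = 0 → gradient G x ≠ 0)
    (hK : IsCompact {x | G x = 0}) (u : V) (hu : ‖u‖ = 1) (δ : ℝ) (hδ : 0 < δ) :
    ∃ v : V, ‖v‖ = 1 ∧ ‖v - u‖ < δ ∧
      ∀ x, G x = 0 → (nrm G x = v ∨ nrm G x = -v) → gaussK G x ≠ 0 := by
  let _ : MeasurableSpace V := borel V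
  have : BorelSpace V := ⟨rfl⟩
  have hG2 : ContDiff ℝ 2 G := hG.of_le (by norm_cast)
  have hgc : ContinuousOn (gaussK G) {x | G x = 0} := fun x hx =>
    (gaussK_continuousAt G hG2 x (hreg x hx)).continuousWithinAt
  have hZ0 : IsClosed ({x | G x = 0} ∩ gaussK G ⁻¹' {0}) :=
    hgc.preimage_isClosed_of_isClosed hK.isClosed isClosed_singleton
  have h1 := area_le n hn G hG2 hreg hK _ hZ0.measurableSet inter_subset_left
  have h2 : ∫⁻ x in ({x | G x = 0} ∩ gaussK G ⁻¹' {0}), ENNReal.ofReal |gaussK G x|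
      ∂μH[((n : ℕ) : ℝ)] = 0 := by
    have e3 : ∫⁻ x in ({x | G x = 0} ∩ gaussK G ⁻¹' {0}), ENNReal.ofReal |gaussK G x|
        ∂μH[((n : ℕ) : ℝ)] ≤ ∫⁻ x in ({x | G x = 0} ∩ gaussK G ⁻¹' {0}), 0
        ∂μH[((n : ℕ) : ℝ)] := by
      refine setLIntegral_mono' hZ0.measurableSet ?_
      rintro x ⟨-, hx⟩
      have hx' : gaussK G x = 0 := hx
      rw [hx']
      simp
    simpa using e3
  rw [h2] at h1
  set S : Set V := nrm G '' ({x | G x = 0} ∩ gaussK G ⁻¹' {0}) with hS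
  have hS0 : μH[((n : ℕ) : ℝ)] S = 0 := le_antisymm h1 zero_le
  have hN0 : μH[((n : ℕ) : ℝ)] ((fun y : V => -y) '' S) = 0 := by
    have h3 : LipschitzWith 1 (fun y : V => -y) := by
      refine LipschitzWith.of_dist_le_mul fun y z => ?_
      rw [dist_neg_neg, NNReal.coe_one, one_mul]
    have h4 := h3.hausdorffMeasure_image_le (d := ((n : ℕ) : ℝ)) (by positivity) S
    rw [hS0, mul_zero] at h4
    exact le_antisymm h4 zero_le
  have hU : μH[((n : ℕ) : ℝ)] (S ∪ (fun y : V => -y) '' S) = 0 := measure_union_null hS0 hN0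
  obtain ⟨v, hv1, hv2, hv3⟩ := exists_unit_near n hn u hu δ hδ _ hU
  refine ⟨v, hv1, hv2, fun x hx hxv hK0 => hv3 ?_⟩
  rcases hxv with hxv | hxv
  · exact Or.inl ⟨x, ⟨hx, hK0⟩, hxv⟩
  · exact Or.inr ⟨-v, ⟨x, ⟨hx, hK0⟩, hxv⟩, neg_neg v⟩

end Pool.Schoen
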