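import Pool.Agent.H.MP_6c077c_gt.Gd.Defs

/-! Guard theorem: visibility gives the first order condition. -/

set_option autoImplicit false

namespace Pool.Schoen

open Filter Set
open scoped Topology RealInnerProductSpace ContDiff

variable {V : Type*} [NormedAddCommGroup V] [InnerProductSpace ℝ V] [FiniteDimensional ℝ V]

/-- If the segment from `q` to the zero `x` of `F` is contained in `{F ≤ 0}`, then
`⟪∇F(x), x - q⟫ ≥ 0`. -/
theorem gd_of_segment (F : V → ℝ) (hF : ContDiff ℝ ∞ F) {x q : V} (hx : F x = 0)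
    (hs : segment ℝ q x ⊆ {y | F y ≤ 0}) : 0 ≤ ⟪gradient F x, x - q⟫ := by
  have hd : HasFDerivAt F (fderiv ℝ F x) x :=
    (hF.differentiable (by simp)).differentiableAt.hasFDerivAt
  have hl : HasDerivAt (fun t : ℝ => x + t • (q - x)) (q - x) 0 := by
    have := ((hasDerivAt_id (0 : ℝ)).smul_const (q - x)).const_add x
    simpa using this
  have hd0 : HasFDerivAt F (fderiv ℝ F x) (x + (0 : ℝ) • (q - x)) := by simpa using hd
  have hφ : HasDerivAt (fun t : ℝ => F (x + t • (q - x))) (fderiv ℝ F x (q - x)) 0 :=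
    hd0.comp_hasDerivAt 0 hl
  have hle : fderiv ℝ F x (q - x) ≤ 0 := by
    have h1 := hasDerivWithinAt_iff_tendsto_slope.1 (hφ.hasDerivWithinAt (s := Ioi 0))
    have h2 : Ioi (0 : ℝ) \ {0} = Ioi 0 := by
      ext t
      simp only [mem_diff, mem_Ioi, mem_singleton_iff]
      exact ⟨fun h => h.1, fun h => ⟨h, h.ne'⟩⟩
    rw [h2] at h1
    have h3 : ∀ᶠ t in 𝓝[>] (0 : ℝ), slope (fun t : ℝ => F (x + t • (q - x))) 0 t ≤ 0 := by
      filter_upwards [Ioc_mem_nhdsGT (zero_lt_one' ℝ)] with t ht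
      rw [slope_def_field, zero_smul, add_zero, hx, sub_zero, sub_zero]
      refine div_nonpos_of_nonpos_of_nonneg ?_ ht.1.le
      refine hs ?_
      rw [segment_symm, segment_eq_image']
      exact ⟨t, ⟨ht.1.le, ht.2⟩, rfl⟩
    exact le_of_tendsto h1 h3
  have h4 : ⟪gradient F x, x - q⟫ = -(fderiv ℝ F x (q - x)) := by
    rw [← map_neg, neg_sub, gradient, InnerProductSpace.toDual_symm_apply]
  rw [h4]
  linarith

end Pool.Schoen
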