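import Pool.Agent.H.MP_6c077c_gt.Gd.FaceDefs
import Pool.Agent.H.MP_6c077c_gt.Gd.Vis

/-! Facing pairs: visibility excludes facing pairs (helper18). -/

set_option autoImplicit false

namespace Pool.Schoen

open Filter Set
open scoped Topology RealInnerProductSpace ContDiff

variable {V : Type*} [NormedAddCommGroup V] [InnerProductSpace ℝ V] [FiniteDimensional ℝ V]

theorem FaceCor_grad_cont (F : V → ℝ) (hF : ContDiff ℝ ∞ F) : Continuous (gradient F) :=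
  (InnerProductSpace.toDual ℝ V).symm.continuous.comp (hF.continuous_fderiv (by simp))

/-- The set of pairs seen from a common point of a compact set is closed. -/
theorem FaceCor_isClosed (F : V → ℝ) (hF : ContDiff ℝ ∞ F) (K : Set V) (hK : IsCompact K) :
    IsClosed {p : V × V | ∃ q ∈ K, 0 ≤ ⟪gradient F p.1, p.1 - q⟫ ∧
      0 ≤ ⟪gradient F p.2, p.2 - q⟫} := by
  have hg := FaceCor_grad_cont F hF
  have : CompactSpace K := isCompact_iff_compactSpace.1 hK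
  have h1 : IsClosed {s : (V × V) × K | 0 ≤ ⟪gradient F s.1.1, s.1.1 - s.2⟫ ∧
      0 ≤ ⟪gradient F s.1.2, s.1.2 - s.2⟫} := by
    have hc1 : Continuous fun s : (V × V) × K => ⟪gradient F s.1.1, s.1.1 - s.2⟫ := by
      fun_prop
    have hc2 : Continuous fun s : (V × V) × K => ⟪gradient F s.1.2, s.1.2 - s.2⟫ := by
      fun_prop
    exact (isClosed_le continuous_const hc1).inter (isClosed_le continuous_const hc2)
  have h2 := isClosedMap_fst_of_compactSpace _ h1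
  convert h2 using 1
  ext p
  constructor
  · rintro ⟨q, hq, ha, hb⟩
    exact ⟨(p, ⟨q, hq⟩), ⟨ha, hb⟩, rfl⟩
  · rintro ⟨⟨p', q⟩, ⟨ha, hb⟩, rfl⟩
    exact ⟨q, q.2, ha, hb⟩

theorem FaceCor_le_of_neg (F : V → ℝ) {e x q : V} (hn : nrm F x = -e)
    (h : 0 ≤ ⟪gradient F x, x - q⟫) : ⟪e, x⟫ ≤ ⟪e, q⟫ := by
  have h1 : 0 ≤ ⟪nrm F x, x - q⟫ := by
    rw [nrm, real_inner_smul_left]
    exact mul_nonneg (inv_nonneg.2 (norm_nonneg _)) h
  rw [hn, inner_neg_left, inner_sub_right] at h1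
  linarith

theorem FaceCor_le_of_pos (F : V → ℝ) {e x q : V} (hn : nrm F x = e)
    (h : 0 ≤ ⟪gradient F x, x - q⟫) : ⟪e, q⟫ ≤ ⟪e, x⟫ := by
  have h1 : 0 ≤ ⟪nrm F x, x - q⟫ := by
    rw [nrm, real_inner_smul_left]
    exact mul_nonneg (inv_nonneg.2 (norm_nonneg _)) h
  rw [hn, inner_sub_right] at h1
  linarith

/-- Guards in a proper affine subspace: no facing pair in the directions orthogonal to it. -/
theorem noFacing_of_guards (F : V → ℝ) (hF : ContDiff ℝ ∞ F)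
    (Q : Set V) (hQb : Bornology.IsBounded Q)
    (e : V) (he : ∀ p ∈ Q, ∀ q ∈ Q, ⟪e, p⟫ = ⟪e, q⟫)
    (hvis : ∀ x ∈ M2 F, ∃ q ∈ Q, 0 ≤ ⟪gradient F x, x - q⟫) : NoFacing F e := by
  intro x hx y hy hnx hny
  have hK : IsCompact (closure Q) := hQb.isCompact_closure
  have hcl := FaceCor_isClosed F hF (closure Q) hK
  -- one point at a time: use the diagonal
  have key : ∀ z ∈ closure (M2 F), ∃ q ∈ closure Q, 0 ≤ ⟪gradient F z, z - q⟫ := by
    have hd : IsClosed {z : V | (z, z) ∈ {p : V × V | ∃ q ∈ closure Q,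
        0 ≤ ⟪gradient F p.1, p.1 - q⟫ ∧ 0 ≤ ⟪gradient F p.2, p.2 - q⟫}} :=
      hcl.preimage (continuous_id.prodMk continuous_id)
    intro z hz
    have h1 : closure (M2 F) ⊆ {z : V | (z, z) ∈ {p : V × V | ∃ q ∈ closure Q,
        0 ≤ ⟪gradient F p.1, p.1 - q⟫ ∧ 0 ≤ ⟪gradient F p.2, p.2 - q⟫}} := by
      refine closure_minimal ?_ hd
      intro z hz
      obtain ⟨q, hq, h⟩ := hvis z hz
      exact ⟨q, subset_closure hq, h, h⟩
    obtain ⟨q, hq, h, -⟩ := h1 hz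
    exact ⟨q, hq, h⟩
  obtain ⟨p, hp, hpx⟩ := key x hx
  obtain ⟨q, hq, hqy⟩ := key y hy
  have h1 : ⟪e, x⟫ ≤ ⟪e, p⟫ := FaceCor_le_of_neg F hnx hpx
  have h2 : ⟪e, q⟫ ≤ ⟪e, y⟫ := FaceCor_le_of_pos F hny hqy
  have h3 : ∀ a ∈ closure Q, ∀ b ∈ closure Q, ⟪e, a⟫ = ⟪e, b⟫ := by
    have hQ1 : closure (Q ×ˢ Q) ⊆ {s : V × V | ⟪e, s.1⟫ = ⟪e, s.2⟫} := by
      refine closure_minimal (fun s hs => he _ hs.1 _ hs.2) (isClosed_eq ?_ ?_) <;> fun_prop
    intro a ha b hb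
    have h4 : (a, b) ∈ closure (Q ×ˢ Q) := by
      rw [closure_prod_eq]
      exact ⟨ha, hb⟩
    exact hQ1 h4
  linarith [h3 p hp q hq]

/-- (A) Guards in a proper affine subspace. -/
theorem exists_noFacing_of_guards (F : V → ℝ) (hF : ContDiff ℝ ∞ F)
    (Q : Set V) (hQb : Bornology.IsBounded Q)
    (hQ : Module.finrank ℝ (vectorSpan ℝ Q) < Module.finrank ℝ V)
    (hvis : ∀ x ∈ M2 F, ∃ q ∈ Q, 0 ≤ ⟪gradient F x, x - q⟫) :
    ∃ e : V, ‖e‖ = 1 ∧ NoFacing F e := by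
  have h1 : (vectorSpan ℝ Q) ≠ ⊤ := by
    intro h
    rw [h, finrank_top] at hQ
    exact lt_irrefl _ hQ
  have h2 : (vectorSpan ℝ Q)ᗮ ≠ ⊥ := by
    intro h
    exact h1 ((Submodule.orthogonal_eq_bot_iff).1 h)
  obtain ⟨v, hv, hv0⟩ := (Submodule.ne_bot_iff _).1 h2
  refine ⟨‖v‖⁻¹ • v, norm_smul_inv_norm hv0, ?_⟩
  refine noFacing_of_guards F hF Q hQb _ ?_ hvis
  intro p hp q hq
  have h3 : ⟪v, p - q⟫ = 0 := by
    rw [real_inner_comm]
    exact hv _ (vsub_mem_vectorSpan ℝ hp hq)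
  rw [real_inner_smul_left, real_inner_smul_left]
  rw [inner_sub_right] at h3
  have h4 : ⟪v, p⟫ = ⟪v, q⟫ := by linarith
  rw [h4]

/-- (B) If any two points with two negative principal curvatures have a common guard (in a fixed
bounded set), there is no facing pair in any direction. -/
theorem noFacing_of_pairs (F : V → ℝ) (hF : ContDiff ℝ ∞ F) (R : ℝ)
    (hvis : ∀ x ∈ M2 F, ∀ y ∈ M2 F, ∃ q, ‖q‖ ≤ R ∧ 0 ≤ ⟪gradient F x, x - q⟫ ∧
      0 ≤ ⟪gradient F y, y - q⟫) (e : V) : NoFacing F e := by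
  intro x hx y hy hnx hny
  have hcl := FaceCor_isClosed F hF (Metric.closedBall 0 R) (isCompact_closedBall 0 R)
  have h1 : closure (M2 F ×ˢ M2 F) ⊆ {p : V × V | ∃ q ∈ Metric.closedBall 0 R,
      0 ≤ ⟪gradient F p.1, p.1 - q⟫ ∧ 0 ≤ ⟪gradient F p.2, p.2 - q⟫} := by
    refine closure_minimal ?_ hcl
    rintro ⟨a, b⟩ ⟨ha, hb⟩
    obtain ⟨q, hq, h⟩ := hvis a ha b hb
    exact ⟨q, mem_closedBall_zero_iff.2 hq, h⟩
  have h2 : (x, y) ∈ closure (M2 F ×ˢ M2 F) := by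
    rw [closure_prod_eq]
    exact ⟨hx, hy⟩
  obtain ⟨q, -, ha, hb⟩ := h1 h2
  exact (FaceCor_le_of_neg F hnx ha).trans (FaceCor_le_of_pos F hny hb)

/-- (B') The same for segments inside the body. -/
theorem noFacing_of_segments (F : V → ℝ) (hF : ContDiff ℝ ∞ F)
    (hb : Bornology.IsBounded {x | F x ≤ 0})
    (hvis : ∀ x ∈ M2 F, ∀ y ∈ M2 F, ∃ q, segment ℝ q x ⊆ {z | F z ≤ 0} ∧
      segment ℝ q y ⊆ {z | F z ≤ 0}) (e : V) : NoFacing F e := by
  obtain ⟨R, hR⟩ := hb.exists_norm_le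
  refine noFacing_of_pairs F hF R ?_ e
  intro x hx y hy
  obtain ⟨q, h1, h2⟩ := hvis x hx y hy
  exact ⟨q, hR q (h1 (left_mem_segment ℝ q x)), gd_of_segment F hF hx.1 h1,
    gd_of_segment F hF hy.1 h2⟩

/-- (C) If some unit vector is not an outer normal at the closure of the set of points with two
negative principal curvatures, there is no facing pair in this direction. -/
theorem noFacing_of_notMem (F : V → ℝ) (e : V) (h : ∀ x ∈ closure (M2 F), nrm F x ≠ -e) :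
    NoFacing F e :=
  fun x hx _ _ hnx _ => absurd hnx (h x hx)

end Pool.Schoen
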