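import Mathlib
import Pool.Agent.H.MP_6c077c_gt.Small
import Pool.Agent.H.MP_6c077c_gt.Shape
import Pool.Agent.H.MP_6c077c_gt.CG.Defs
import Pool.Agent.H.MP_6c077c_gt.Ix.HomB
import Pool.Agent.H.MP_6c077c_gt.Ix.DescC

/-! Guards: the outer parallel hypersurface. -/

set_option autoImplicit false

namespace Pool.Schoen

open Filter Set Metric
open scoped RealInnerProductSpace ContDiff Topology

variable {V : Type*} [NormedAddCommGroup V] [InnerProductSpace ℝ V] [FiniteDimensional ℝ V]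

private theorem Par_grad (F : V → ℝ) (x a : V) : fderiv ℝ F x a = ⟪gradient F x, a⟫ :=
  (InnerProductSpace.toDual_symm_apply (𝕜 := ℝ)).symm

private theorem Par_gradient_contDiff (f : V → ℝ) (hf : ContDiff ℝ ∞ f) :
    ContDiff ℝ ∞ (gradient f) := by
  have h1 : ContDiff ℝ ∞ (fderiv ℝ f) := hf.fderiv_right (by simp)
  have h2 : gradient f = fun x => (InnerProductSpace.toDual ℝ V).symm (fderiv ℝ f x) := rfl
  rw [h2]
  exact (InnerProductSpace.toDual ℝ V).symm.contDiff.comp h1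

/-- A smooth vector field with compact support which is the unit normal near `{F = 0}`. -/
theorem par_field (F : V → ℝ) (hF : ContDiff ℝ ∞ F) (hK : IsCompact {x | F x = 0})
    (hreg : ∀ x, F x = 0 → gradient F x ≠ 0) :
    ∃ X : V → V, ContDiff ℝ ∞ X ∧ HasCompactSupport X ∧ ∀ x, F x = 0 → X =ᶠ[𝓝 x] nrm F := by
  have : ProperSpace V := FiniteDimensional.proper ℝ V
  have hgc : ContDiff ℝ ∞ (gradient F) := Par_gradient_contDiff F hF
  have hU : IsOpen {x : V | gradient F x ≠ 0} := isOpen_ne_fun hgc.continuous continuous_const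
  obtain ⟨V1, hV1o, hZV1, hV1U, hV1c⟩ := exists_open_between_and_isCompact_closure hK hU
    (fun x hx => hreg x hx)
  obtain ⟨V2, hV2o, hZV2, hV21, hV2c⟩ := exists_open_between_and_isCompact_closure hK hV1o hZV1
  obtain ⟨χ, hχ, hχr, hχ0, hχ1⟩ := exists_contMDiff_zero_iff_one_iff_of_isClosed
    (M := V) (modelWithCornersSelf ℝ V) (n := (⊤ : ℕ∞)) (s := V1ᶜ) (t := closure V2)
    hV1o.isClosed_compl isClosed_closure
    (Set.disjoint_left.2 (fun x hx hx' => hx (hV21 hx')))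
  have hχs : ContDiff ℝ ∞ χ := hχ.contDiff
  have hout : ∀ x, x ∉ V1 → χ x = 0 := fun x hx => (hχ0 x).1 hx
  have hin : ∀ x, x ∈ V2 → χ x = 1 := fun x hx => (hχ1 x).1 (subset_closure hx)
  refine ⟨fun x => χ x • nrm F x, ?_, ?_, ?_⟩
  · rw [contDiff_iff_contDiffAt]
    intro x
    by_cases hx : gradient F x = 0
    · have h1 : x ∈ (closure V1)ᶜ := fun h => hV1U h hx
      have h2 : (fun x => χ x • nrm F x) =ᶠ[𝓝 x] fun _ => (0 : V) := by
        filter_upwards [isClosed_closure.isOpen_compl.mem_nhds h1] with y hy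
        rw [hout y (fun h => hy (subset_closure h)), zero_smul]
      exact contDiffAt_const.congr_of_eventuallyEq h2
    · have h1 : ContDiffAt ℝ ∞ (fun x => ‖gradient F x‖⁻¹ • gradient F x) x :=
        ((hgc.contDiffAt.norm ℝ hx).inv (norm_ne_zero_iff.2 hx)).smul hgc.contDiffAt
      exact hχs.contDiffAt.smul h1
  · refine HasCompactSupport.intro hV1c fun x hx => ?_
    rw [hout x (fun h => hx (subset_closure h)), zero_smul]
  · intro x hx
    filter_upwards [hV2o.mem_nhds (hZV2 hx)] with y hy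
    rw [hin y hy, one_smul]

/-- The inverse of `x ↦ x + (δ sin s) X x`, smooth in `s` and `x`. -/
theorem par_flow (X : V → V) (hX : ContDiff ℝ ∞ X) (hc : HasCompactSupport X) :
    ∃ δ₀ : ℝ, 0 < δ₀ ∧ ∀ δ : ℝ, 0 < δ → δ ≤ δ₀ → ∃ ψ : ℝ × V → V, ContDiff ℝ ∞ ψ ∧
      (∀ s x, ψ (s, x + (δ * Real.sin s) • X x) = x) ∧
      ∀ s y, ψ (s, y) + (δ * Real.sin s) • X (ψ (s, y)) = y := by
  obtain ⟨C1, hC1⟩ := hc.exists_bound_of_continuous hX.continuous
  obtain ⟨C2, hC2⟩ := hc.fderiv (𝕜 := ℝ) |>.exists_bound_of_continuous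
    (hX.continuous_fderiv (by simp))
  have hC1' : 0 ≤ C1 := (norm_nonneg _).trans (hC1 0)
  have hC2' : 0 ≤ C2 := (norm_nonneg _).trans (hC2 0)
  refine ⟨(2 * (C1 + C2 + 1))⁻¹, by positivity, fun δ hδ hδ0 => ?_⟩
  have hδC : δ * (C1 + C2) ≤ 1 / 2 := by
    have h1 : δ * (C1 + C2) ≤ (2 * (C1 + C2 + 1))⁻¹ * (C1 + C2) :=
      mul_le_mul_of_nonneg_right hδ0 (by positivity)
    have h2 : (2 * (C1 + C2 + 1))⁻¹ * (C1 + C2) ≤ 1 / 2 := by
      rw [inv_mul_le_iff₀ (by positivity)]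
      linarith
    exact h1.trans h2
  let g : ℝ × V → ℝ × V := fun p => (0, (δ * Real.sin p.1) • X p.2)
  have hg : ContDiff ℝ ∞ g :=
    contDiff_const.prodMk ((contDiff_const.mul (Real.contDiff_sin.comp contDiff_fst)).smul
      (hX.comp contDiff_snd))
  have hgd : ∀ p : ℝ × V, ∀ v : ℝ × V, fderiv ℝ g p v =
      (0, (δ * (Real.cos p.1 * v.1)) • X p.2 + (δ * Real.sin p.1) • fderiv ℝ X p.2 v.2) := by
    intro p v
    have h1 : HasFDerivAt (fun p : ℝ × V => δ * Real.sin p.1)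
        ((δ * Real.cos p.1) • ContinuousLinearMap.fst ℝ ℝ V) p := by
      have := ((Real.hasDerivAt_sin p.1).const_mul δ).comp_hasFDerivAt p
        (hasFDerivAt_fst (𝕜 := ℝ) (p := p))
      exact this
    have h2 : HasFDerivAt (fun p : ℝ × V => X p.2)
        ((fderiv ℝ X p.2).comp (ContinuousLinearMap.snd ℝ ℝ V)) p :=
      (hX.differentiable (by simp) p.2).hasFDerivAt.comp p hasFDerivAt_snd
    have h3 := (hasFDerivAt_const (0 : ℝ) p).prodMk (h1.smul h2)
    have h4 : fderiv ℝ g p = _ := h3.fderiv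
    rw [h4]
    simp only [ContinuousLinearMap.prod_apply, zero_apply,
      add_apply, smul_apply,
      ContinuousLinearMap.comp_apply, ContinuousLinearMap.smulRight_apply,
      ContinuousLinearMap.coe_fst', ContinuousLinearMap.coe_snd', smul_eq_mul]
    rw [add_comm, mul_assoc]
  have hl : ∀ p, ‖fderiv ℝ g p‖ ≤ 1 / 2 := by
    intro p
    refine ContinuousLinearMap.opNorm_le_bound _ (by norm_num) fun v => ?_
    rw [hgd, Prod.norm_def, norm_zero, max_eq_right (norm_nonneg _)]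
    have h1 : ‖v.1‖ ≤ ‖v‖ := norm_fst_le v
    have h2 : ‖v.2‖ ≤ ‖v‖ := norm_snd_le v
    have h3 : ‖(δ * (Real.cos p.1 * v.1)) • X p.2‖ ≤ δ * ‖v‖ * C1 := by
      rw [norm_smul, Real.norm_eq_abs, abs_mul, abs_mul, abs_of_pos hδ]
      have h4 : |Real.cos p.1| * |v.1| ≤ 1 * ‖v‖ :=
        mul_le_mul (Real.abs_cos_le_one _) h1 (abs_nonneg _) zero_le_one
      rw [one_mul] at h4
      exact mul_le_mul (mul_le_mul_of_nonneg_left h4 hδ.le) (hC1 _) (norm_nonneg _) (by positivity)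
    have h5 : ‖(δ * Real.sin p.1) • fderiv ℝ X p.2 v.2‖ ≤ δ * (C2 * ‖v‖) := by
      rw [norm_smul, Real.norm_eq_abs, abs_mul, abs_of_pos hδ, mul_assoc]
      refine mul_le_mul_of_nonneg_left ?_ hδ.le
      have h6 : ‖fderiv ℝ X p.2 v.2‖ ≤ C2 * ‖v‖ :=
        (ContinuousLinearMap.le_opNorm _ _).trans (mul_le_mul (hC2 _) h2 (norm_nonneg _) hC2')
      calc |Real.sin p.1| * ‖fderiv ℝ X p.2 v.2‖ ≤ 1 * (C2 * ‖v‖) :=
            mul_le_mul (Real.abs_sin_le_one _) h6 (norm_nonneg _) zero_le_one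
        _ = C2 * ‖v‖ := one_mul _
    calc _ ≤ δ * ‖v‖ * C1 + δ * (C2 * ‖v‖) := (norm_add_le _ _).trans (add_le_add h3 h5)
      _ = δ * (C1 + C2) * ‖v‖ := by ring
      _ ≤ 1 / 2 * ‖v‖ := mul_le_mul_of_nonneg_right hδC (norm_nonneg _)
  obtain ⟨ψ, hψ, h1, h2⟩ := small_diffeo g hg hl
  have hfst : ∀ p, (ψ p).1 = p.1 := by
    intro p
    have := congrArg Prod.fst (h2 p)
    simpa [g] using this
  refine ⟨fun p => (ψ p).2, contDiff_snd.comp hψ, ?_, ?_⟩
  · intro s x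
    have h3 := h1 (s, x)
    have h4 : ((s, x) : ℝ × V) + g (s, x) = (s, x + (δ * Real.sin s) • X x) := by
      simp [g]
    rw [h4] at h3
    show (ψ (s, x + (δ * Real.sin s) • X x)).2 = x
    rw [h3]
  · intro s y
    have h3 := congrArg Prod.snd (h2 (s, y))
    have h4 := hfst (s, y)
    simp only [g, Prod.snd_add] at h3
    rw [h4] at h3
    exact h3

/-- First and second order comparison of `F'` and `F` when `F' (x + δ X x) = F x` and `X` is the
unit normal near `x`. -/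
private theorem Par_second {F F' : V → ℝ} (hF : ContDiff ℝ ∞ F) (hF' : ContDiff ℝ ∞ F')
    {X φ : V → V} (hX : ContDiff ℝ ∞ X) (hφ : ContDiff ℝ ∞ φ) {δ : ℝ} (hδ : 0 < δ)
    (h1 : ∀ x, φ (x + δ • X x) = x) (h2 : ∀ y, φ y + δ • X (φ y) = y)
    (h3 : ∀ y, F' y = F (φ y)) {x : V} (hg : gradient F x ≠ 0) (hXn : X =ᶠ[𝓝 x] nrm F) :
    gradient F' (x + δ • X x) = gradient F x ∧
    ∀ N' : Submodule ℝ V, (∀ a ∈ N', ⟪a, nrm F x⟫ = 0) →
      (∀ a ∈ N', a ≠ 0 → fderiv ℝ (fderiv ℝ F') (x + δ • X x) a a < 0) →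
      ∃ N'' : Submodule ℝ V, Module.finrank ℝ N'' = Module.finrank ℝ N' ∧
        (∀ a ∈ N'', ⟪a, nrm F x⟫ = 0) ∧ ∀ a ∈ N'', a ≠ 0 → fderiv ℝ (fderiv ℝ F) x a a < 0 := by
  obtain ⟨y, hy⟩ : ∃ y, y = x + δ • X x := ⟨_, rfl⟩
  rw [← hy]
  have hXd : ∀ z, HasFDerivAt X (fderiv ℝ X z) z := fun z =>
    (hX.differentiable (by simp) z).hasFDerivAt
  have hX2 : ContDiff ℝ ∞ (fderiv ℝ X) := hX.fderiv_right (by simp)
  have hFd2 : ContDiff ℝ ∞ (fderiv ℝ F) := hF.fderiv_right (by simp)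
  have hFd2' : ContDiff ℝ ∞ (fderiv ℝ F') := hF'.fderiv_right (by simp)
  have hline : ∀ (w : V) (t : ℝ), HasDerivAt (fun t : ℝ => x + t • w) w t := fun w t => by
    simpa using ((hasDerivAt_id t).smul_const w).const_add x
  -- along a line
  have hc : ∀ (w : V) (t : ℝ), HasDerivAt (fun t : ℝ => X (x + t • w))
      (fderiv ℝ X (x + t • w) w) t := fun w t => (hXd _).comp_hasDerivAt t (hline w t)
  have hc2 : ∀ w : V, HasDerivAt (fun t : ℝ => fderiv ℝ X (x + t • w) w)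
      (fderiv ℝ (fderiv ℝ X) x w w) 0 := fun w => by
    have e1 : HasFDerivAt (fderiv ℝ X) (fderiv ℝ (fderiv ℝ X) x) (x + (0 : ℝ) • w) := by
      rw [zero_smul, add_zero]
      exact (hX2.differentiable (by simp) x).hasFDerivAt
    have e2 := e1.comp_hasDerivAt (0 : ℝ) (hline w 0)
    have e3 := e2.clm_apply (hasDerivAt_const (0 : ℝ) w)
    simpa using e3
  have hγ : ∀ (w : V) (t : ℝ), HasDerivAt (fun t : ℝ => x + t • w + δ • X (x + t • w))
      (w + δ • fderiv ℝ X (x + t • w) w) t := fun w t => (hline w t).add ((hc w t).const_smul δ)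
  have hγ2 : ∀ w : V, HasDerivAt (fun t : ℝ => w + δ • fderiv ℝ X (x + t • w) w)
      (δ • fderiv ℝ (fderiv ℝ X) x w w) 0 := fun w => ((hc2 w).const_smul δ).const_add w
  have hid : ∀ (w : V) (t : ℝ), F' (x + t • w + δ • X (x + t • w)) = F (x + t • w) :=
    fun w t => by rw [h3, h1]
  have hfirst : ∀ (w : V) (t : ℝ),
      fderiv ℝ F' (x + t • w + δ • X (x + t • w)) (w + δ • fderiv ℝ X (x + t • w) w) =
        fderiv ℝ F (x + t • w) w := by
    intro w t
    have e1 := ((hF'.differentiable (by simp) _).hasFDerivAt).comp_hasDerivAt t (hγ w t)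
    have e2 := ((hF.differentiable (by simp) _).hasFDerivAt).comp_hasDerivAt t (hline w t)
    have e3 : (F' ∘ fun t : ℝ => x + t • w + δ • X (x + t • w)) = F ∘ fun t : ℝ => x + t • w :=
      funext fun t => hid w t
    rw [e3] at e1
    exact e1.unique e2
  have hsecond : ∀ w : V, fderiv ℝ (fderiv ℝ F') y (w + δ • fderiv ℝ X x w)
      (w + δ • fderiv ℝ X x w) + fderiv ℝ F' y (δ • fderiv ℝ (fderiv ℝ X) x w w) =
        fderiv ℝ (fderiv ℝ F) x w w := by
    intro w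
    have e0 : y = x + (0 : ℝ) • w + δ • X (x + (0 : ℝ) • w) := by
      rw [zero_smul, add_zero, ← hy]
    have e1 : HasDerivAt (fun t : ℝ => fderiv ℝ F' (x + t • w + δ • X (x + t • w)))
        (fderiv ℝ (fderiv ℝ F') y (w + δ • fderiv ℝ X (x + (0 : ℝ) • w) w)) 0 :=
      ((hFd2'.differentiable (by simp) y).hasFDerivAt).comp_hasDerivAt_of_eq (0 : ℝ) (hγ w 0) e0
    have e2 := e1.clm_apply (hγ2 w)
    have e3 : HasDerivAt (fun t : ℝ => fderiv ℝ F (x + t • w))
        (fderiv ℝ (fderiv ℝ F) x w) 0 :=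
      ((hFd2.differentiable (by simp) x).hasFDerivAt).comp_hasDerivAt_of_eq (0 : ℝ) (hline w 0)
        (by rw [zero_smul, add_zero])
    have e4 := e3.clm_apply (hasDerivAt_const (0 : ℝ) w)
    have e5 : (fun t : ℝ => fderiv ℝ F' (x + t • w + δ • X (x + t • w))
        (w + δ • fderiv ℝ X (x + t • w) w)) = fun t : ℝ => fderiv ℝ F (x + t • w) w :=
      funext fun t => hfirst w t
    rw [e5] at e2
    have e7 := e2.unique e4
    rw [zero_smul, add_zero, ← hy, map_zero, add_zero] at e7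
    exact e7
  -- the unit normal
  obtain ⟨N, hN⟩ : ∃ N, N = nrm F x := ⟨_, rfl⟩
  have hXx : X x = N := by rw [hN]; exact hXn.self_of_nhds
  have hgn : 0 < ‖gradient F x‖ := norm_pos_iff.2 hg
  have hgN : gradient F x = ‖gradient F x‖ • N := by
    rw [hN, nrm, smul_smul, mul_inv_cancel₀ hgn.ne', one_smul]
  have hunit : ∀ᶠ z in 𝓝 x, ⟪X z, X z⟫ = 1 := by
    have hgc : ContinuousAt (gradient F) x := (Par_gradient_contDiff F hF).continuous.continuousAt
    filter_upwards [hXn, hgc.eventually_ne hg] with z hz hz'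
    have : ‖gradient F z‖ ≠ 0 := norm_ne_zero_iff.2 hz'
    rw [hz, nrm, real_inner_smul_left, real_inner_smul_right, real_inner_self_eq_norm_sq]
    field_simp
  have horth : ∀ᶠ z in 𝓝 x, ∀ w, ⟪X z, fderiv ℝ X z w⟫ = 0 := by
    filter_upwards [hunit.eventually_nhds] with z hz w
    have e1 := (hXd z).inner ℝ (hXd z)
    have e2 : HasFDerivAt (fun z => ⟪X z, X z⟫) (0 : V →L[ℝ] ℝ) z :=
      (hasFDerivAt_const (1 : ℝ) z).congr_of_eventuallyEq hz
    have e3 := congrArg (fun L : V →L[ℝ] ℝ => L w) (e1.unique e2)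
    simp only [ContinuousLinearMap.comp_apply, ContinuousLinearMap.prod_apply,
      fderivInnerCLM_apply, zero_apply] at e3
    rw [real_inner_comm (X z) (fderiv ℝ X z w)] at e3
    linarith
  have horth0 : ∀ w, ⟪N, fderiv ℝ X x w⟫ = 0 := fun w => by
    rw [← hXx]
    exact horth.self_of_nhds w
  have horth2 : ∀ w, ⟪N, fderiv ℝ (fderiv ℝ X) x w w⟫ = -‖fderiv ℝ X x w‖ ^ 2 := by
    intro w
    have e1 : HasDerivAt (fun t : ℝ => ⟪X (x + t • w), fderiv ℝ X (x + t • w) w⟫) 0 0 := by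
      have e2 : Tendsto (fun t : ℝ => x + t • w) (𝓝 0) (𝓝 x) := by
        have := (hline w 0).continuousAt.tendsto
        simpa using this
      have e3 : (fun t : ℝ => ⟪X (x + t • w), fderiv ℝ X (x + t • w) w⟫) =ᶠ[𝓝 0]
          fun _ => (0 : ℝ) := by
        filter_upwards [e2.eventually horth] with t ht
        exact ht w
      exact (hasDerivAt_const (0 : ℝ) (0 : ℝ)).congr_of_eventuallyEq e3
    have e4 := (hc w 0).inner ℝ (hc2 w)
    have e5 := e4.unique e1
    simp only [zero_smul, add_zero] at e5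
    rw [real_inner_self_eq_norm_sq, hXx] at e5
    linarith
  -- surjectivity
  have hsurj : ∀ v : V, v = fderiv ℝ φ y v + δ • fderiv ℝ X x (fderiv ℝ φ y v) := by
    intro v
    have hφy : φ y = x := by rw [hy, h1]
    have e1 : HasFDerivAt φ (fderiv ℝ φ y) y := (hφ.differentiable (by simp) y).hasFDerivAt
    have e2 : HasFDerivAt X (fderiv ℝ X x) (φ y) := by rw [hφy]; exact hXd x
    have e3 := e1.add ((e2.comp y e1).const_smul δ)
    have e4 : (fun z => φ z + δ • X (φ z)) = fun z => z := funext h2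
    have e5 : HasFDerivAt (fun z => φ z + δ • X (φ z)) (ContinuousLinearMap.id ℝ V) y := by
      rw [e4]
      exact hasFDerivAt_id y
    have e6 := congrArg (fun L : V →L[ℝ] V => L v) (e5.unique e3)
    simpa using e6
  have hgrad : ∀ v, fderiv ℝ F' y v = ‖gradient F x‖ * ⟪N, v⟫ := by
    intro v
    obtain ⟨w, hw⟩ : ∃ w, w = fderiv ℝ φ y v := ⟨_, rfl⟩
    have e1 := hsurj v
    rw [← hw] at e1
    have e2 := hfirst w 0
    simp only [zero_smul, add_zero] at e2
    rw [← hy, ← e1] at e2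
    rw [e2, Par_grad, hgN, real_inner_smul_left, norm_smul, norm_norm]
    have e3 : ⟪N, v⟫ = ⟪N, w⟫ := by
      rw [e1, inner_add_right, real_inner_smul_right, horth0, mul_zero, add_zero]
    have e4 : ‖N‖ = 1 := by
      rw [hN, nrm, norm_smul, norm_inv, norm_norm, inv_mul_cancel₀ hgn.ne']
    rw [e3, e4, mul_one]
  constructor
  · refine ext_inner_right ℝ fun v => ?_
    rw [← Par_grad, hgrad, hgN, real_inner_smul_left, norm_smul, norm_norm]
    have e4 : ‖N‖ = 1 := by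
      rw [hN, nrm, norm_smul, norm_inv, norm_norm, inv_mul_cancel₀ hgn.ne']
    rw [e4, mul_one]
  · intro N' hN' hneg
    rw [← hN] at hN' ⊢
    have hinj : Function.Injective (fderiv ℝ φ y) := by
      intro a b hab
      rw [hsurj a, hsurj b, hab]
    refine ⟨N'.map (fderiv ℝ φ y : V →ₗ[ℝ] V), ?_, ?_, ?_⟩
    · exact (Submodule.equivMapOfInjective (fderiv ℝ φ y : V →ₗ[ℝ] V) hinj N').finrank_eq.symm
    · rintro _ ⟨v, hv, rfl⟩
      have e1 := hN' v hv
      have e2 := hsurj v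
      rw [e2, inner_add_left, real_inner_smul_left, real_inner_comm, real_inner_comm N, horth0,
        mul_zero, add_zero] at e1
      rw [real_inner_comm]
      exact e1
    · rintro _ ⟨v, hv, rfl⟩ hne
      have hv0 : v ≠ 0 := by
        rintro rfl
        exact hne (map_zero _)
      obtain ⟨w, hw⟩ : ∃ w, w = fderiv ℝ φ y v := ⟨_, rfl⟩
      show fderiv ℝ (fderiv ℝ F) x (fderiv ℝ φ y v) (fderiv ℝ φ y v) < 0
      rw [← hw]
      have e1 := hsecond w
      have e2 : w + δ • fderiv ℝ X x w = v := by rw [hw]; exact (hsurj v).symm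
      rw [e2, hgrad, real_inner_smul_right, horth2] at e1
      have e3 := hneg v hv hv0
      have e4 : 0 ≤ ‖gradient F x‖ * (δ * ‖fderiv ℝ X x w‖ ^ 2) := by positivity
      rw [← e1]
      linarith

/-- **Outer parallel hypersurfaces.**  For small `δ > 0` there is a smooth `F'`, homotopic to `F`,
with `{F' = 0} = {x + δ N(x)}`, with the same normals, and with at most as many negative directions
of the second derivative on the tangent space. -/
theorem par_surface (F : V → ℝ) (hF : ContDiff ℝ ∞ F) (hb : Bornology.IsBounded {x | F x ≤ 0})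
    (hreg : ∀ x, F x = 0 → gradient F x ≠ 0) :
    ∃ δ₀ : ℝ, 0 < δ₀ ∧ ∀ δ : ℝ, 0 < δ → δ ≤ δ₀ → ∃ F' : V → ℝ, ContDiff ℝ ∞ F' ∧
      Bornology.IsBounded {x | F' x ≤ 0} ∧ (∀ x, F' x = 0 → gradient F' x ≠ 0) ∧ Hom F F' ∧
      (∀ x, F x = 0 → F' (x + δ • nrm F x) = 0) ∧
      ∀ y, F' y = 0 → ∃ x, F x = 0 ∧ y = x + δ • nrm F x ∧ gradient F' y = gradient F x ∧
        nrm F' y = nrm F x ∧ ∀ N' : Submodule ℝ V, (∀ a ∈ N', ⟪a, nrm F x⟫ = 0) →
          (∀ a ∈ N', a ≠ 0 → fderiv ℝ (fderiv ℝ F') y a a < 0) →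
          ∃ N'' : Submodule ℝ V, Module.finrank ℝ N'' = Module.finrank ℝ N' ∧
            (∀ a ∈ N'', ⟪a, nrm F x⟫ = 0) ∧
            ∀ a ∈ N'', a ≠ 0 → fderiv ℝ (fderiv ℝ F) x a a < 0 := by
  have hK : IsCompact {x : V | F x = 0} :=
    Metric.isCompact_of_isClosed_isBounded (isClosed_eq hF.continuous continuous_const)
      (hb.subset fun _ hx => le_of_eq hx)
  obtain ⟨X, hX, hXc, hXn⟩ := par_field F hF hK hreg
  obtain ⟨δ₁, hδ₁, hflow⟩ := par_flow X hX hXc
  obtain ⟨C, hC⟩ := hXc.exists_bound_of_continuous hX.continuous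
  have hC0 : 0 ≤ C := (norm_nonneg _).trans (hC 0)
  have hs1 : 0 < Real.sin 1 := Real.sin_pos_of_pos_of_lt_pi one_pos (by linarith [Real.pi_gt_three])
  refine ⟨δ₁ * Real.sin 1, by positivity, fun δ hδ hδ0 => ?_⟩
  obtain ⟨ψ, hψ, h1, h2⟩ := hflow (δ / Real.sin 1) (by positivity) (by
    rw [div_le_iff₀ hs1]
    exact hδ0)
  have hone : δ / Real.sin 1 * Real.sin 1 = δ := div_mul_cancel₀ _ hs1.ne'
  have hG : ContDiff ℝ ∞ fun p : ℝ × V => F (ψ p) := hF.comp hψ
  obtain ⟨R, hR⟩ := hb.exists_norm_le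
  have hbound : ∀ s y, F (ψ (s, y)) ≤ 0 → ‖y‖ ≤ R + δ / Real.sin 1 * C := by
    intro s y hy
    have e1 := hR _ hy
    have e2 : ‖(δ / Real.sin 1 * Real.sin s) • X (ψ (s, y))‖ ≤ δ / Real.sin 1 * C := by
      rw [norm_smul, Real.norm_eq_abs, abs_mul, abs_of_pos (by positivity : 0 < δ / Real.sin 1)]
      have e3 : |Real.sin s| * ‖X (ψ (s, y))‖ ≤ 1 * C :=
        mul_le_mul (Real.abs_sin_le_one _) (hC _) (norm_nonneg _) zero_le_one
      rw [one_mul] at e3
      rw [mul_assoc]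
      exact mul_le_mul_of_nonneg_left e3 (by positivity)
    calc ‖y‖ = ‖ψ (s, y) + (δ / Real.sin 1 * Real.sin s) • X (ψ (s, y))‖ := by rw [h2]
      _ ≤ _ := (norm_add_le _ _).trans (add_le_add e1 e2)
  obtain ⟨φ, hφdef⟩ : ∃ φ : V → V, φ = fun y => ψ (1, y) := ⟨_, rfl⟩
  have hφ : ContDiff ℝ ∞ φ := by
    rw [hφdef]
    exact hψ.comp (contDiff_const.prodMk contDiff_id)
  have h1' : ∀ x, φ (x + δ • X x) = x := fun x => by
    have := h1 1 x
    rw [hone] at this
    rw [hφdef]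
    exact this
  have h2' : ∀ y, φ y + δ • X (φ y) = y := fun y => by
    have := h2 1 y
    rw [hone] at this
    rw [hφdef]
    exact this
  have hF' : ContDiff ℝ ∞ fun y => F (φ y) := hF.comp hφ
  have hkey : ∀ y, F (φ y) = 0 → F (φ y) = 0 ∧ y = φ y + δ • nrm F (φ y) ∧
      gradient (fun y => F (φ y)) y = gradient F (φ y) ∧
      ∀ N' : Submodule ℝ V, (∀ a ∈ N', ⟪a, nrm F (φ y)⟫ = 0) →
        (∀ a ∈ N', a ≠ 0 → fderiv ℝ (fderiv ℝ fun y => F (φ y)) y a a < 0) →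
        ∃ N'' : Submodule ℝ V, Module.finrank ℝ N'' = Module.finrank ℝ N' ∧
          (∀ a ∈ N'', ⟪a, nrm F (φ y)⟫ = 0) ∧
          ∀ a ∈ N'', a ≠ 0 → fderiv ℝ (fderiv ℝ F) (φ y) a a < 0 := by
    intro y hy
    have e1 := Par_second hF hF' hX hφ hδ h1' h2' (fun _ => rfl) (x := φ y) (hreg _ hy) (hXn _ hy)
    rw [h2'] at e1
    refine ⟨hy, ?_, e1.1, e1.2⟩
    rw [← (hXn _ hy).self_of_nhds, h2']
  refine ⟨fun y => F (φ y), hF', ?_, ?_, ?_, ?_, ?_⟩
  · refine isBounded_iff_forall_norm_le.2 ⟨_, fun y hy => hbound 1 y ?_⟩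
    rw [hφdef] at hy
    exact hy
  · intro y hy
    rw [(hkey y hy).2.2.1]
    exact hreg _ hy
  · have h0 : (fun y => F (ψ (0, y))) = F := by
      funext y
      have := h2 0 y
      rw [Real.sin_zero, mul_zero, zero_smul, add_zero] at this
      rw [this]
    refine ⟨fun s y => F (ψ (s, y)), hG.continuous, h0, by rw [hφdef], ⟨_, fun s _ y hy =>
      hbound s y (le_of_eq hy)⟩, ?_⟩
    intro s _ y hy
    have hy : F (ψ (s, y)) = 0 := hy
    obtain ⟨x, hx⟩ : ∃ x, x = ψ (s, y) := ⟨_, rfl⟩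
    obtain ⟨c, hc⟩ : ∃ c, c = δ / Real.sin 1 * Real.sin s := ⟨_, rfl⟩
    rw [← hx] at hy
    have hy' : y = x + c • X x := by rw [hc, hx]; exact (h2 s y).symm
    obtain ⟨w, hw⟩ : ∃ w, w = -gradient F x := ⟨_, rfl⟩
    refine ⟨w + c • fderiv ℝ X x w, (desc_smooth (G := fun p : ℝ × V => F (ψ p))
      (hG.of_le (by norm_cast)).contDiffAt ?_).mono nhdsWithin_le_nhds⟩
    have e1 : HasDerivAt (fun t : ℝ => x + t • w) w 0 := by
      simpa using ((hasDerivAt_id (0 : ℝ)).smul_const w).const_add x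
    have e2 : HasDerivAt (fun t : ℝ => X (x + t • w)) (fderiv ℝ X x w) 0 :=
      ((hX.differentiable (by simp) x).hasFDerivAt).comp_hasDerivAt_of_eq (0 : ℝ) e1
        (by rw [zero_smul, add_zero])
    have e3 : HasDerivAt (fun t : ℝ => (s, x + t • w + c • X (x + t • w)))
        ((0 : ℝ), w + c • fderiv ℝ X x w) 0 :=
      (hasDerivAt_const (0 : ℝ) s).prodMk (e1.add (e2.const_smul c))
    have e4 : HasDerivAt (fun t : ℝ => F (ψ (s, x + t • w + c • X (x + t • w))))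
        (fderiv ℝ (fun p : ℝ × V => F (ψ p)) (s, y) (0, w + c • fderiv ℝ X x w)) 0 :=
      ((hG.differentiable (by simp) (s, y)).hasFDerivAt).comp_hasDerivAt_of_eq (0 : ℝ) e3
        (by rw [zero_smul, add_zero, ← hy'])
    have e5 : (fun t : ℝ => F (ψ (s, x + t • w + c • X (x + t • w)))) = fun t => F (x + t • w) := by
      funext t
      rw [hc, h1]
    have e6 : HasDerivAt (fun t : ℝ => F (x + t • w)) (fderiv ℝ F x w) 0 :=
      ((hF.differentiable (by simp) x).hasFDerivAt).comp_hasDerivAt_of_eq (0 : ℝ) e1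
        (by rw [zero_smul, add_zero])
    rw [e5] at e4
    rw [e4.unique e6, Par_grad, hw, inner_neg_right, real_inner_self_eq_norm_sq]
    have := norm_pos_iff.2 (hreg _ hy)
    nlinarith
  · intro x hx
    show F (φ (x + δ • nrm F x)) = 0
    rw [← (hXn _ hx).self_of_nhds, h1']
    exact hx
  · intro y hy
    obtain ⟨e1, e2, e3, e4⟩ := hkey y hy
    exact ⟨φ y, e1, e2, e3, by rw [nrm, nrm, e3], e4⟩

end Pool.Schoen
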