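import Pool.Agent.H.MP_6c077c_gt.Gd.Defs
import Pool.Agent.H.MP_6c077c_gt.Gd.Par
import Pool.Agent.H.MP_6c077c_gt.Ix.TopC

/-! Guard theorem: the outer parallel hypersurface. -/

set_option autoImplicit false

namespace Pool.Schoen

open Filter Set
open scoped Topology RealInnerProductSpace ContDiff

variable {V : Type*} [NormedAddCommGroup V] [InnerProductSpace ℝ V] [FiniteDimensional ℝ V]

theorem Outer_fderiv (F : V → ℝ) (x u : V) : fderiv ℝ F x u = ⟪gradient F x, u⟫ := by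
  rw [gradient, InnerProductSpace.toDual_symm_apply]

theorem Outer_grad (F : V → ℝ) (x : V) (hx : gradient F x ≠ 0) :
    gradient F x = ‖gradient F x‖ • nrm F x := by
  rw [nrm, smul_smul, mul_inv_cancel₀ (norm_ne_zero_iff.2 hx), one_smul]

/-- PROOF. `par_surface`; `U = vectorSpan ℝ Q`, `o ∈ Q` (or `0` if `Q` is empty), `u = q - o`, `R` from
the boundedness of `Q`. -/
theorem outer (d : ℕ) (F : V → ℝ) (hF : ContDiff ℝ ∞ F) (hb : Bornology.IsBounded {x | F x ≤ 0})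
    (hreg : ∀ x, F x = 0 → gradient F x ≠ 0) (Q : Set V) (hQb : Bornology.IsBounded Q)
    (hQ : Module.finrank ℝ (vectorSpan ℝ Q) ≤ d)
    (hvis : ∀ x, F x = 0 → TwoNeg F x → ∃ q ∈ Q, 0 ≤ ⟪gradient F x, x - q⟫) :
    ∃ G : V → ℝ, ContDiff ℝ ∞ G ∧ Hom F G ∧ Bornology.IsBounded {x | G x ≤ 0} ∧
      (∀ x, G x = 0 → gradient G x ≠ 0) ∧ MVis G d := by
  obtain ⟨δ, hδ, hpar⟩ := par_surface F hF hb hreg
  obtain ⟨G, hG, hGb, hGreg, hFG, -, hpt⟩ := hpar δ hδ le_rfl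
  obtain ⟨C, hC⟩ := hQb.exists_norm_le
  have key : ∀ y, G y = 0 → TwoNeg G y → ∃ x, F x = 0 ∧ y = x + δ • nrm F x ∧
      nrm G y = nrm F x ∧ ∃ q ∈ Q, 0 ≤ ⟪gradient F x, x - q⟫ := by
    intro y hy htwo
    obtain ⟨x, hx, hyx, hgr, hn, hneg⟩ := hpt y hy
    refine ⟨x, hx, hyx, hn, hvis x hx ?_⟩
    obtain ⟨N', hN'2, hN'⟩ := htwo
    have horth : ∀ a ∈ N', ⟪a, nrm F x⟫ = 0 := by
      intro a ha
      by_cases h0 : a = 0
      · rw [h0, inner_zero_left]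
      · have h1 := (hN' a ha h0).1
        rw [Outer_fderiv, hgr] at h1
        rw [nrm, inner_smul_right, real_inner_comm, h1, mul_zero]
    obtain ⟨N'', h2, h3, h4⟩ := hneg N' horth (fun a ha h0 => (hN' a ha h0).2)
    refine ⟨N'', h2.trans hN'2, fun u hu hu0 => ⟨?_, h4 u hu hu0⟩⟩
    rw [Outer_fderiv, Outer_grad F x (hreg x hx), inner_smul_left, real_inner_comm, h3 u hu,
      mul_zero]
  refine ⟨G, hG, hFG, hGb, hGreg, ?_⟩
  rcases Q.eq_empty_or_nonempty with hQe | ⟨q0, hq0⟩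
  · refine ⟨0, ⊥, 0, 1, by simp, one_pos, ?_⟩
    intro y hy htwo
    obtain ⟨x, -, -, -, q, hq, -⟩ := key y hy htwo
    rw [hQe] at hq
    exact absurd hq (notMem_empty q)
  · refine ⟨q0, vectorSpan ℝ Q, C + C, δ, hQ, hδ, ?_⟩
    intro y hy htwo
    obtain ⟨x, hx, hyx, hn, q, hq, h0⟩ := key y hy htwo
    refine ⟨q - q0, vsub_mem_vectorSpan ℝ hq hq0, (norm_sub_le _ _).trans
      (add_le_add (hC q hq) (hC q0 hq0)), ?_⟩
    have h1 : ‖nrm F x‖ = 1 := norm_nrm F x (hreg x hx)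
    have h2 : 0 ≤ ⟪x - q, nrm F x⟫ := by
      rw [nrm, inner_smul_right, real_inner_comm]
      exact mul_nonneg (inv_nonneg.2 (norm_nonneg _)) h0
    have h3 : y - (q0 + (q - q0)) = (x - q) + δ • nrm F x := by
      rw [hyx]
      abel
    rw [hn, h3, inner_add_left, inner_smul_left, real_inner_self_eq_norm_sq, h1]
    simp only [conj_trivial, one_pow, mul_one]
    linarith

end Pool.Schoen
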