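import Pool.Agent.H.MP_6c077c_gt.Gd.Defs

/-! Facing pairs: definitions. -/

set_option autoImplicit false

namespace Pool.Schoen

open Filter Set
open scoped Topology RealInnerProductSpace ContDiff

variable {V : Type*} [NormedAddCommGroup V] [InnerProductSpace ℝ V] [FiniteDimensional ℝ V]

/-- The points of the hypersurface with at least two negative principal curvatures. -/
def M2 (F : V → ℝ) : Set V := {x | F x = 0 ∧ TwoNeg F x}

/-- There is no facing pair in the direction `e`. -/
def NoFacing (F : V → ℝ) (e : V) : Prop :=
  ∀ x ∈ closure (M2 F), ∀ y ∈ closure (M2 F), nrm F x = -e → nrm F y = e → ⟪e, x⟫ ≤ ⟪e, y⟫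

end Pool.Schoen
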