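import Pool.Agent.H.MP_6c077c_gt.Gd.Main3
import Pool.Agent.H.MP_6c077c_gt.Gd.FaceDefs
import Mathlib.Order.CountableDenseLinearOrder

/-! Facing pairs: a hypersurface without facing pairs in one direction is unknotted. -/

set_option autoImplicit false

namespace Pool.Schoen

open Filter Set Metric
open scoped Topology RealInnerProductSpace ContDiff

universe u

section

variable {V : Type*} [NormedAddCommGroup V] [InnerProductSpace ℝ V] [FiniteDimensional ℝ V]

/-- Visibility is no condition if the dimension of the guard space is that of the space. -/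
theorem mvis_top (F : V → ℝ) (hb : Bornology.IsBounded {x | F x = 0})
    (hreg : ∀ x, F x = 0 → gradient F x ≠ 0) {d : ℕ} (hd : Module.finrank ℝ V ≤ d) :
    MVis F d := by
  obtain ⟨R, hR⟩ := hb.exists_norm_le
  refine ⟨0, ⊤, R + 1, 1, by rwa [finrank_top], one_pos, fun x hx _ => ?_⟩
  have h1 : ‖nrm F x‖ = 1 := norm_nrm F x (hreg x hx)
  refine ⟨x - nrm F x, Submodule.mem_top, ?_, ?_⟩
  · refine (norm_sub_le _ _).trans ?_
    rw [h1]
    linarith [hR x hx]
  · rw [zero_add, sub_sub_cancel, real_inner_self_eq_norm_sq, h1]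
    norm_num

theorem nrm_continuousOn {F : V → ℝ} (hF : ContDiff ℝ ∞ F)
    (hreg : ∀ x, F x = 0 → gradient F x ≠ 0) : ContinuousOn (nrm F) {x | F x = 0} := by
  have hg : Continuous (gradient F) :=
    (InnerProductSpace.toDual ℝ V).symm.continuous.comp (hF.continuous_fderiv (by simp))
  intro x hx
  have h1 : ContinuousAt (fun y => ‖gradient F y‖⁻¹ • gradient F y) x :=
    (hg.norm.continuousAt.inv₀ (norm_ne_zero_iff.2 (hreg x hx))).smul hg.continuousAt
  exact h1.continuousWithinAt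

/-- The condition `NoFacing` in the form with an epsilon. -/
theorem noFacing_eps (F : V → ℝ) (hF : ContDiff ℝ ∞ F) (hb : Bornology.IsBounded {x | F x = 0})
    (hreg : ∀ x, F x = 0 → gradient F x ≠ 0) {e : V} (h : NoFacing F e) {ε : ℝ} (hε : 0 < ε) :
    ∃ η : ℝ, 0 < η ∧ ∀ x ∈ M2 F, ∀ y ∈ M2 F, ‖nrm F x + e‖ < η → ‖nrm F y - e‖ < η →
      ⟪e, x⟫ ≤ ⟪e, y⟫ + ε := by
  have hZ : IsClosed {x | F x = 0} := isClosed_eq hF.continuous continuous_const
  have hsub : closure (M2 F) ⊆ {x | F x = 0} := closure_minimal (fun x hx => hx.1) hZ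
  have hKc : IsCompact (closure (M2 F)) :=
    isCompact_of_isClosed_isBounded isClosed_closure (hb.subset hsub)
  have hn := nrm_continuousOn hF hreg
  have hB : IsCompact ((closure (M2 F) ×ˢ closure (M2 F)) ∩
      {p : V × V | ⟪e, p.2⟫ + ε ≤ ⟪e, p.1⟫}) := by
    refine (hKc.prod hKc).inter_right (isClosed_le ?_ ?_)
    · fun_prop
    · fun_prop
  have hφ : ContinuousOn (fun p : V × V => max ‖nrm F p.1 + e‖ ‖nrm F p.2 - e‖)
      ((closure (M2 F) ×ˢ closure (M2 F)) ∩ {p : V × V | ⟪e, p.2⟫ + ε ≤ ⟪e, p.1⟫}) := by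
    refine ContinuousOn.sup ?_ ?_
    · exact ((hn.comp continuousOn_fst (fun p hp => hsub hp.1.1)).add continuousOn_const).norm
    · exact ((hn.comp continuousOn_snd (fun p hp => hsub hp.1.2)).sub continuousOn_const).norm
  rcases ((closure (M2 F) ×ˢ closure (M2 F)) ∩
      {p : V × V | ⟪e, p.2⟫ + ε ≤ ⟪e, p.1⟫}).eq_empty_or_nonempty with h0 | h0
  · refine ⟨1, one_pos, fun x hx y hy _ _ => ?_⟩
    by_contra hlt
    push Not at hlt
    have : (x, y) ∈ (closure (M2 F) ×ˢ closure (M2 F)) ∩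
        {p : V × V | ⟪e, p.2⟫ + ε ≤ ⟪e, p.1⟫} :=
      ⟨⟨subset_closure hx, subset_closure hy⟩, hlt.le⟩
    rw [h0] at this
    exact notMem_empty _ this
  · obtain ⟨p, hp, hmin⟩ := hB.exists_isMinOn h0 hφ
    refine ⟨max ‖nrm F p.1 + e‖ ‖nrm F p.2 - e‖, ?_, fun x hx y hy h1 h2 => ?_⟩
    · rw [lt_max_iff]
      by_contra hcon
      push Not at hcon
      obtain ⟨h1, h2⟩ := hcon
      have e1 : nrm F p.1 = -e := by
        have := norm_le_zero_iff.1 h1
        exact eq_neg_of_add_eq_zero_left this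
      have e2 : nrm F p.2 = e := by
        have := norm_le_zero_iff.1 h2
        exact sub_eq_zero.1 this
      have h3 := h p.1 hp.1.1 p.2 hp.1.2 e1 e2
      have h4 : ⟪e, p.2⟫ + ε ≤ ⟪e, p.1⟫ := hp.2
      linarith
    · by_contra hlt
      push Not at hlt
      have h3 : (x, y) ∈ (closure (M2 F) ×ˢ closure (M2 F)) ∩
          {p : V × V | ⟪e, p.2⟫ + ε ≤ ⟪e, p.1⟫} :=
        ⟨⟨subset_closure hx, subset_closure hy⟩, hlt.le⟩
      have h4 : max ‖nrm F p.1 + e‖ ‖nrm F p.2 - e‖ ≤ max ‖nrm F x + e‖ ‖nrm F y - e‖ := hmin h3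
      exact absurd (max_lt h1 h2) (not_lt.2 h4)

/-- A level which separates two finite sets of heights and avoids a third one. -/
theorem facing_level {A B S : Set ℝ} (hA : A.Finite) (hB : B.Finite) (hS : S.Finite)
    (h : ∀ s ∈ A, ∀ t ∈ B, s < t) :
    ∃ a b c : ℝ, a < c ∧ c < b ∧ (∀ s ∈ A, s < a) ∧ (∀ t ∈ B, b < t) ∧
      ∀ s ∈ S, ¬ (a ≤ s ∧ s ≤ b) := by
  classical
  obtain ⟨m, hm1, hm2⟩ := Order.exists_between_finsets hA.toFinset hB.toFinset
    (fun x hx y hy => h x (by simpa using hx) y (by simpa using hy))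
  obtain ⟨c, hc1, hc2⟩ := Order.exists_between_finsets
    (hA.toFinset ∪ hS.toFinset.filter (· ≤ m)) (hB.toFinset ∪ hS.toFinset.filter (m < ·)) (by
      intro x hx y hy
      rcases Finset.mem_union.1 hx with hx | hx <;> rcases Finset.mem_union.1 hy with hy | hy
      · exact h x (by simpa using hx) y (by simpa using hy)
      · exact (hm1 x hx).trans (Finset.mem_filter.1 hy).2
      · exact (Finset.mem_filter.1 hx).2.trans_lt (hm2 y hy)
      · exact (Finset.mem_filter.1 hx).2.trans_lt (Finset.mem_filter.1 hy).2)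
  obtain ⟨a, ha1, ha2⟩ := Order.exists_between_finsets
    (hA.toFinset ∪ hS.toFinset.filter (· ≤ m)) {c} (by
      intro x hx y hy
      rw [Finset.mem_singleton.1 hy]
      exact hc1 x hx)
  obtain ⟨b, hb1, hb2⟩ := Order.exists_between_finsets {c}
    (hB.toFinset ∪ hS.toFinset.filter (m < ·)) (by
      intro x hx y hy
      rw [Finset.mem_singleton.1 hx]
      exact hc2 y hy)
  refine ⟨a, b, c, ha2 c (Finset.mem_singleton_self c), hb1 c (Finset.mem_singleton_self c),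
    fun s hs => ha1 s (Finset.mem_union_left _ (by simpa using hs)),
    fun t ht => hb2 t (Finset.mem_union_left _ (by simpa using ht)), ?_⟩
  rintro s hs ⟨h1, h2⟩
  rcases le_or_gt s m with h3 | h3
  · have := ha1 s (Finset.mem_union_right _ (Finset.mem_filter.2 ⟨by simpa using hs, h3⟩))
    linarith
  · have := hb2 s (Finset.mem_union_right _ (Finset.mem_filter.2 ⟨by simpa using hs, h3⟩))
    linarith

end

/-- The two-sided class in dimension four, from Alexander's theorem. -/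
theorem two_ball3 {V : Type u} [NormedAddCommGroup V] [InnerProductSpace ℝ V]
    [FiniteDimensional ℝ V] (hdim : Module.finrank ℝ V = 4)
    (hA : ∀ e : V, ‖e‖ = 1 → AlexStmt (ℝ ∙ e)ᗮ) (F : V → ℝ) (hD : Dom F)
    (hl : ∃ ρ₀ : ℝ, ∀ ρ, ρ₀ ≤ ρ → LiftS {x | 0 ≤ F x ∧ ‖x‖ ≤ ρ}) {e : V} (he : ‖e‖ = 1)
    {a b c : ℝ} {P Q : Finset V} (h1 : a < c) (h2 : c < b) (hTwo : Two F e a b P Q)
    (hno : ∀ x, F x = 0 → a ≤ ⟪e, x⟫ → ⟪e, x⟫ ≤ b → ∀ l : ℝ, gradient F x ≠ l • e) :
    IsBall F := by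
  have he0 : e ≠ 0 := by
    intro h
    rw [h, norm_zero] at he
    exact zero_ne_one he
  have : Fact (Module.finrank ℝ V = 3 + 1) := ⟨hdim⟩
  have hdE : Module.finrank ℝ (ℝ ∙ e)ᗮ = 3 := Submodule.finrank_orthogonal_span_singleton he0
  have hS := gd_slice_out (by omega) hD.smooth.continuous he h1 h2 hTwo hl
  obtain ⟨hKg, hKb⟩ := slice_good he h1 h2 hTwo
  have hsv : MVis (slc F e c) 3 := by
    refine mvis_top _ (hKb.subset fun y hy => le_of_eq hy) ?_ hdE.le
    exact fun y hy => slc_reg hD.smooth he (fun x hx hxc => hno x hx (by rw [hxc]; exact h1.le)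
      (by rw [hxc]; exact h2.le)) y hy
  refine two_sided he (h1.trans h2) hTwo hD.conn hD.lift ?_
  intro g hg hconn hlift hp
  refine part_ball F hD 3 he h1 h2 hno hsv ?_ g hg hconn hlift hp
  intro G hG _ hz hle
  refine hA e he G hG ?_
  refine part_out (by omega) hKg hKb ?_ (fun y hy => (hz y hy).self_of_nhds ▸ hy) hle hS
  exact good_of_regular hG.smooth (hG.bdd.subset fun x hx => le_of_eq hx)
    (fun x hx => Final_fderiv_ne (hG.reg x hx))

/-- **Facing pairs.** -/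
theorem facing_carries {V : Type u} [NormedAddCommGroup V] [InnerProductSpace ℝ V]
    [FiniteDimensional ℝ V] (hdim : Module.finrank ℝ V = 4)
    (hA : ∀ e : V, ‖e‖ = 1 → AlexStmt (ℝ ∙ e)ᗮ) (F : V → ℝ) (hF : ContDiff ℝ ∞ F)
    (hb : Bornology.IsBounded {x | F x ≤ 0}) (hreg : ∀ x, F x = 0 → gradient F x ≠ 0)
    (hMc : IsConnected {x | F x = 0}) (hMl : LiftS {x | F x = 0}) (e : V) (he : ‖e‖ = 1)
    (hNF : NoFacing F e) :
    Carries {x : V | F x = 0} (Metric.sphere (0 : V) 1) := by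
  obtain ⟨hc, hl⟩ := domain_top (by omega) F hF.continuous hb hMc hMl
  have hbz : Bornology.IsBounded {x | F x = 0} := hb.subset fun x hx => le_of_eq hx
  obtain ⟨δ, hδ, hpar⟩ := par_surface F hF hb hreg
  obtain ⟨G, hG, hGb, hGreg, hFG, -, hpt⟩ := hpar δ hδ le_rfl
  obtain ⟨η, hη, hηp⟩ := noFacing_eps F hF hbz hreg hNF (half_pos hδ)
  obtain ⟨R, hR⟩ := hbz.exists_norm_le
  have hD : Dom G := ⟨hG, hGb, hGreg, hFG.isConnected hb hc, hFG.liftS hb hl⟩
  have hGz : IsCompact {x | G x = 0} := Final_compact hG.continuous hGb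
  obtain ⟨e', he', hee, hK⟩ := exists_regular_both 3 hdim G hG hGreg hGz e he
    (min η (δ / (8 * (|R| + 1)))) (by positivity)
  obtain ⟨hf1, hf2⟩ := level_finite 3 hdim G hD e' he' hK
  have hM2 : ∀ x, G x = 0 → TwoNeg G x → ∃ x0 ∈ M2 F, x = x0 + δ • nrm F x0 ∧
      nrm G x = nrm F x0 := by
    intro y hy htwo
    obtain ⟨x, hx, hyx, hgr, hn, hneg⟩ := hpt y hy
    refine ⟨x, ⟨hx, ?_⟩, hyx, hn⟩
    obtain ⟨N', hN'2, hN'⟩ := htwo
    have horth : ∀ a ∈ N', ⟪a, nrm F x⟫ = 0 := by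
      intro a ha
      by_cases h0 : a = 0
      · rw [h0, inner_zero_left]
      · have h1 := (hN' a ha h0).1
        rw [Outer_fderiv, hgr] at h1
        rw [nrm, inner_smul_right, real_inner_comm, h1, mul_zero]
    obtain ⟨N'', h2, h3, h4⟩ := hneg N' horth (fun a ha h0 => (hN' a ha h0).2)
    refine ⟨N'', h2.trans hN'2, fun u hu hu0 => ⟨?_, h4 u hu hu0⟩⟩
    rw [Outer_fderiv, Outer_grad F x (hreg x hx), inner_smul_left, real_inner_comm, h3 u hu,
      mul_zero]
  have hne : ‖-e'‖ = 1 := by rwa [norm_neg]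
  have heη : ‖e' - e‖ < η := hee.trans_le (min_le_left _ _)
  have heR : ‖e' - e‖ * (|R| + 1) ≤ δ / 8 := by
    have h1 : ‖e' - e‖ ≤ δ / (8 * (|R| + 1)) := hee.le.trans (min_le_right _ _)
    have h2 : 0 < |R| + 1 := by positivity
    rw [le_div_iff₀ (by positivity)] at h1
    linarith
  have hht : ∀ x, F x = 0 → |⟪e', x⟫ - ⟪e, x⟫| ≤ δ / 8 := by
    intro x hx
    rw [← inner_sub_left]
    refine (abs_real_inner_le_norm _ _).trans (le_trans ?_ heR)
    refine mul_le_mul_of_nonneg_left ?_ (norm_nonneg _)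
    have := hR x hx
    have := le_abs_self R
    linarith
  have hkey : ∀ x y : V, Inward G e' x → TwoNeg G x → Inward G (-e') y → TwoNeg G y →
      ⟪e', x⟫ < ⟪e', y⟫ := by
    intro x y hx hx2 hy hy2
    obtain ⟨x0, hx0, hxx, hxn⟩ := hM2 x hx.1 hx2
    obtain ⟨y0, hy0, hyy, hyn⟩ := hM2 y hy.1 hy2
    rw [plane_nrm_of_inward he' hx] at hxn
    rw [plane_nrm_of_inward hne hy, neg_neg] at hyn
    have h1 := hηp x0 hx0 y0 hy0 (by
      rw [← hxn, neg_add_eq_sub, norm_sub_rev]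
      exact heη) (by
      rw [← hyn]
      exact heη)
    have h2 := (abs_le.1 (hht x0 hx0.1)).2
    have h3 := (abs_le.1 (hht y0 hy0.1)).1
    rw [hxx, hyy, ← hxn, ← hyn, inner_add_right, inner_add_right, inner_smul_right,
      inner_smul_right, inner_neg_right, real_inner_self_eq_norm_sq, he']
    linarith
  set hgt : V → ℝ := fun x => ⟪e', x⟫ with hhgt
  obtain ⟨a, b, c, h1, h2, hAa, hBb, hSab⟩ := facing_level
    (A := hgt '' {x | Inward G e' x ∧ TwoNeg G x}) (B := hgt '' {x | Inward G (-e') x ∧ TwoNeg G x})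
    (S := hgt '' ({x | Inward G e' x} ∪ {x | Inward G (-e') x}))
    ((hf1.subset fun x hx => hx.1).image _) ((hf2.subset fun x hx => hx.1).image _)
    ((hf1.union hf2).image _) (by
      rintro _ ⟨x, ⟨hx, hx2⟩, rfl⟩ _ ⟨y, ⟨hy, hy2⟩, rfl⟩
      exact hkey x y hx hx2 hy hy2)
  have hno : ∀ x, G x = 0 → a ≤ ⟪e', x⟫ → ⟪e', x⟫ ≤ b → ∀ l : ℝ, gradient G x ≠ l • e' := by
    intro x hx hxa hxb l hl0
    rcases lt_trichotomy l 0 with h | h | h
    · refine hSab (hgt x) ⟨x, Or.inl ⟨hx, -l, by linarith, ?_⟩, rfl⟩ ⟨hxa, hxb⟩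
      rw [hl0, neg_smul, neg_neg]
    · rw [h, zero_smul] at hl0
      exact hGreg x hx hl0
    · refine hSab (hgt x) ⟨x, Or.inr ⟨hx, l, h, ?_⟩, rfl⟩ ⟨hxa, hxb⟩
      rw [hl0, smul_neg, neg_neg]
  obtain ⟨P, Q, hTwo⟩ := two_of_level 3 hdim G hD e' he' (h1.trans h2) hK hno
    (fun x hx hxb hx2 => by
      have := hAa (hgt x) ⟨x, ⟨hx, hx2⟩, rfl⟩
      simp only [hhgt] at this
      linarith)
    (fun x hx hxa hx2 => by
      have := hBb (hgt x) ⟨x, ⟨hx, hx2⟩, rfl⟩
      simp only [hhgt] at this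
      linarith)
  obtain ⟨ρ₀, hO⟩ := out_hom hFG hb (out_top F hF.continuous hb hMc hMl)
  exact carries_of_isBall F hF (Hom.trans hFG (two_ball3 hdim hA G hD
    ⟨ρ₀, fun ρ hρ => (hO ρ hρ).2⟩ he' h1 h2 hTwo hno))

end Pool.Schoen
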