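import Pool.Agent.H.MP_6c077c_gt.Gd.NearStar

/-! Weights on facing pairs. -/

set_option autoImplicit false

namespace Pool.Schoen

open Filter Set Metric MeasureTheory
open scoped Topology RealInnerProductSpace ContDiff ENNReal

universe u

/-- A layer cake inequality: if the measures of `{t ≤ f}` and `{1 - t ≤ f}` always add up to at least
`v`, then twice the integral of `f` is at least `v`. -/
theorem nsw_layer {α : Type*} [MeasurableSpace α] (m : Measure α) (f : α → ℝ)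
    (hf : Measurable f) (h0 : ∀ x, 0 ≤ f x) (v : ℝ≥0∞)
    (h : ∀ t : ℝ, 0 < t → t ≤ 1 / 2 → v ≤ m {x | t ≤ f x} + m {x | 1 - t ≤ f x}) :
    v ≤ 2 * ∫⁻ x, ENNReal.ofReal (f x) ∂m := by
  obtain ⟨φ, hφ⟩ : ∃ φ : ℝ → ℝ≥0∞, ∀ t, φ t = m {x | t ≤ f x} := ⟨_, fun _ => rfl⟩
  have hanti : Antitone φ := by
    intro s t hst
    rw [hφ, hφ]
    exact measure_mono fun x hx => hst.trans hx
  have hφm : Measurable φ := hanti.measurable
  have h1 : ∀ t ∈ Ioo (0 : ℝ) 1, v ≤ φ t + φ (1 - t) := by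
    intro t ht
    rcases le_total t (1 / 2) with h2 | h2
    · rw [hφ, hφ]
      exact h t ht.1 h2
    · have h3 := h (1 - t) (by linarith [ht.2]) (by linarith)
      rw [sub_sub_cancel] at h3
      rw [hφ, hφ, add_comm]
      exact h3
  have h2 : ∫⁻ t in Ioo (0 : ℝ) 1, φ t ≤ ∫⁻ x, ENNReal.ofReal (f x) ∂m := by
    rw [lintegral_eq_lintegral_meas_le m (Eventually.of_forall h0) hf.aemeasurable]
    simp only [← hφ]
    exact lintegral_mono_set fun t ht => ht.1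
  have h3 : ∫⁻ t in Ioo (0 : ℝ) 1, φ (1 - t) = ∫⁻ t in Ioo (0 : ℝ) 1, φ t := by
    have h4 := (Measure.measurePreserving_sub_left (volume : Measure ℝ) 1).setLIntegral_comp_preimage_emb
      (Homeomorph.subLeft (1 : ℝ)).measurableEmbedding φ (Ioo (0 : ℝ) 1)
    have h5 : (fun t : ℝ => 1 - t) ⁻¹' Ioo (0 : ℝ) 1 = Ioo (0 : ℝ) 1 := by
      ext t
      simp only [mem_preimage, mem_Ioo]
      constructor <;> rintro ⟨h6, h7⟩ <;> constructor <;> linarith
    rw [h5] at h4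
    exact h4
  calc v = ∫⁻ _ in Ioo (0 : ℝ) 1, v := by
        rw [setLIntegral_const, Real.volume_Ioo, sub_zero, ENNReal.ofReal_one, mul_one]
    _ ≤ ∫⁻ t in Ioo (0 : ℝ) 1, (φ t + φ (1 - t)) :=
        setLIntegral_mono' measurableSet_Ioo h1
    _ = 2 * ∫⁻ t in Ioo (0 : ℝ) 1, φ t := by
        rw [lintegral_add_left hφm, h3, two_mul]
    _ ≤ 2 * ∫⁻ x, ENNReal.ofReal (f x) ∂m := by gcongr

section direction

variable {V : Type*} [NormedAddCommGroup V] [InnerProductSpace ℝ V] [FiniteDimensional ℝ V]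
  [MeasurableSpace V] [BorelSpace V]

/-- The two-set form: each facing pair of `C` has both points in `A` or one in `B`. -/
theorem nsw_two (n : ℕ) (hn : Module.finrank ℝ V = n + 1) (F : V → ℝ) (hF : ContDiff ℝ ∞ F)
    (hreg : ∀ x, F x = 0 → gradient F x ≠ 0) (hK : IsCompact {x | F x = 0})
    (C : Set V) (hC : MeasurableSet C) (hCM : C ⊆ {x | F x = 0}) (A B : Set V)
    (hA : MeasurableSet A) (hB : MeasurableSet B) (hBA : B ⊆ A)
    (hpair : ∀ x ∈ C, ∀ y ∈ C, gaussK F x ≠ 0 → gaussK F y ≠ 0 → nrm F x = -nrm F y →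
      0 < ⟪nrm F y, x - y⟫ → (x ∈ A ∧ y ∈ A) ∨ x ∈ B ∨ y ∈ B)
    (hall : ∀ e : V, ‖e‖ = 1 → ∃ x ∈ C, ∃ y ∈ C, nrm F x = -e ∧ nrm F y = e ∧
      ⟪e, y⟫ < ⟪e, x⟫) :
    μH[(n : ℝ)] (sphere (0 : V) 1) ≤
      ∫⁻ x in A ∩ C, ENNReal.ofReal |gaussK F x| ∂μH[(n : ℝ)] +
      ∫⁻ x in B ∩ C, ENNReal.ofReal |gaussK F x| ∂μH[(n : ℝ)] := by
  have hF2 : ContDiff ℝ 2 F := hF.of_le (by norm_cast)
  have hgc : ContinuousOn (gaussK F) {x | F x = 0} := fun x hx =>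
    (gaussK_continuousAt F hF2 x (hreg x hx)).continuousWithinAt
  obtain ⟨Z, hZdef⟩ : ∃ Z, Z = {x | F x = 0} ∩ gaussK F ⁻¹' {0} := ⟨_, rfl⟩
  have hZ0 : IsClosed Z := by
    rw [hZdef]
    exact hgc.preimage_isClosed_of_isClosed hK.isClosed isClosed_singleton
  obtain ⟨ν, hν⟩ : ∃ ν : Set V → ℝ≥0∞, ∀ U, ν U = ∫⁻ x in U, ENNReal.ofReal |gaussK F x|
    ∂μH[((n : ℕ) : ℝ)] := ⟨_, fun _ => rfl⟩
  have harea : ∀ U : Set V, MeasurableSet U → U ⊆ {x | F x = 0} →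
      μH[((n : ℕ) : ℝ)] (nrm F '' U) ≤ ν U := by
    intro U hU hUM
    rw [hν]
    exact area_le n hn F hF2 hreg hK U hU hUM
  have hZν : ν Z = 0 := by
    have e3 : ν Z ≤ ∫⁻ x in Z, 0 ∂μH[((n : ℕ) : ℝ)] := by
      rw [hν]
      refine setLIntegral_mono' hZ0.measurableSet ?_
      intro x hx
      rw [hZdef] at hx
      have hx' : gaussK F x = 0 := hx.2
      rw [hx']
      simp
    simpa using e3
  have hneg : ∀ S : Set V, μH[((n : ℕ) : ℝ)] ((fun v : V => -v) '' S) = μH[((n : ℕ) : ℝ)] S :=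
    fun S => (LinearIsometryEquiv.neg ℝ : V ≃ₗᵢ[ℝ] V).toIsometryEquiv.hausdorffMeasure_image _ _
  have hBZm : MeasurableSet (B ∩ C ∪ Z) := (hB.inter hC).union hZ0.measurableSet
  have hBZM : B ∩ C ∪ Z ⊆ {x | F x = 0} := by
    refine union_subset (fun x hx => hCM hx.2) ?_
    rw [hZdef]
    exact inter_subset_left
  have hADm : MeasurableSet ((A ∩ C) \ (B ∩ C)) := (hA.inter hC).diff (hB.inter hC)
  have hcov : sphere (0 : V) 1 ⊆ nrm F '' ((A ∩ C) \ (B ∩ C)) ∪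
      (nrm F '' (B ∩ C ∪ Z) ∪ (fun v : V => -v) '' (nrm F '' (B ∩ C ∪ Z))) := by
    intro e he
    obtain ⟨x, hx, y, hy, hnx, hny, hlt⟩ := hall e (by simpa using he)
    have hL : ∀ z ∈ B ∩ C ∪ Z, nrm F z = -e → e ∈ nrm F '' ((A ∩ C) \ (B ∩ C)) ∪
        (nrm F '' (B ∩ C ∪ Z) ∪ (fun v : V => -v) '' (nrm F '' (B ∩ C ∪ Z))) :=
      fun z hz h => Or.inr (Or.inr ⟨nrm F z, ⟨z, hz, rfl⟩, by beta_reduce; rw [h, neg_neg]⟩)
    have hR : ∀ z ∈ B ∩ C ∪ Z, nrm F z = e → e ∈ nrm F '' ((A ∩ C) \ (B ∩ C)) ∪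
        (nrm F '' (B ∩ C ∪ Z) ∪ (fun v : V => -v) '' (nrm F '' (B ∩ C ∪ Z))) :=
      fun z hz h => Or.inr (Or.inl ⟨z, hz, h⟩)
    by_cases hKx : gaussK F x = 0
    · refine hL x (Or.inr ?_) hnx
      rw [hZdef]
      exact ⟨hCM hx, hKx⟩
    by_cases hKy : gaussK F y = 0
    · refine hR y (Or.inr ?_) hny
      rw [hZdef]
      exact ⟨hCM hy, hKy⟩
    rcases hpair x hx y hy hKx hKy (by rw [hnx, hny]) (by
      rw [hny, inner_sub_right]
      linarith) with h1 | h1 | h1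
    · by_cases hyB : y ∈ B
      · exact hR y (Or.inl ⟨hyB, hy⟩) hny
      · exact Or.inl ⟨y, ⟨⟨h1.2, hy⟩, fun h2 => hyB h2.1⟩, hny⟩
    · exact hL x (Or.inl ⟨h1, hx⟩) hnx
    · exact hR y (Or.inl ⟨h1, hy⟩) hny
  have hsum : ν (B ∩ C ∪ Z) ≤ ν (B ∩ C) := by
    have h1 : ν (B ∩ C ∪ Z) ≤ ν (B ∩ C) + ν Z := by
      rw [hν, hν, hν]
      exact lintegral_union_le _ _ _
    rwa [hZν, add_zero] at h1
  have hsplit : ν ((A ∩ C) \ (B ∩ C)) + ν (B ∩ C) = ν (A ∩ C) := by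
    have h1 : B ∩ C ⊆ A ∩ C := inter_subset_inter_left _ hBA
    rw [hν, hν, hν, add_comm, ← lintegral_union hADm disjoint_sdiff_right,
      union_sdiff_cancel h1]
  calc μH[((n : ℕ) : ℝ)] (sphere (0 : V) 1)
      ≤ μH[((n : ℕ) : ℝ)] (nrm F '' ((A ∩ C) \ (B ∩ C))) +
        (μH[((n : ℕ) : ℝ)] (nrm F '' (B ∩ C ∪ Z)) +
          μH[((n : ℕ) : ℝ)] ((fun v : V => -v) '' (nrm F '' (B ∩ C ∪ Z)))) := by
        refine (measure_mono hcov).trans ((measure_union_le _ _).trans ?_)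
        gcongr
        exact measure_union_le _ _
    _ ≤ ν ((A ∩ C) \ (B ∩ C)) + (ν (B ∩ C) + ν (B ∩ C)) := by
        rw [hneg]
        have h1 := harea _ hADm (fun x hx => hCM hx.1.2)
        have h2 := (harea _ hBZm hBZM).trans hsum
        gcongr
    _ = ν (A ∩ C) + ν (B ∩ C) := by rw [← add_assoc, hsplit]
    _ = _ := by rw [hν, hν]

/-- Weights: a direction without facing pairs in the closed set `C`, if the weight of each facing
pair is at least one and the weighted curvature integral is less than half of the volume of the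
sphere. -/
theorem nsw_exists (n : ℕ) (hn : Module.finrank ℝ V = n + 1) (F : V → ℝ) (hF : ContDiff ℝ ∞ F)
    (hreg : ∀ x, F x = 0 → gradient F x ≠ 0) (hK : IsCompact {x | F x = 0})
    (C : Set V) (hC : IsClosed C) (hCM : C ⊆ {x | F x = 0}) (w : V → ℝ≥0∞) (hw : Measurable w)
    (hpair : ∀ x ∈ C, ∀ y ∈ C, gaussK F x ≠ 0 → gaussK F y ≠ 0 → nrm F x = -nrm F y →
      0 < ⟪nrm F y, x - y⟫ → 1 ≤ w x + w y)
    (hint : 2 * ∫⁻ x in {x | x ∈ C ∧ gaussK F x ≠ 0}, w x * ENNReal.ofReal |gaussK F x|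
      ∂μH[(n : ℝ)] < μH[(n : ℝ)] (sphere (0 : V) 1)) :
    ∃ e : V, ‖e‖ = 1 ∧ ∀ x ∈ C, ∀ y ∈ C, nrm F x = -e → nrm F y = e → ⟪e, x⟫ ≤ ⟪e, y⟫ := by
  by_contra hcon
  push Not at hcon
  have hF2 : ContDiff ℝ 2 F := hF.of_le (by norm_cast)
  have hgc : ContinuousOn (gaussK F) C := fun x hx =>
    (gaussK_continuousAt F hF2 x (hreg x (hCM hx))).continuousWithinAt
  -- the truncated real weight
  obtain ⟨f, hf⟩ : ∃ f : V → ℝ, ∀ x, f x = (min (w x) 1).toReal := ⟨_, fun _ => rfl⟩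
  have hne : ∀ x, min (w x) 1 ≠ ⊤ := fun x =>
    ((min_le_right _ _).trans_lt ENNReal.one_lt_top).ne
  have hfm : Measurable f := by
    have : f = fun x => (min (w x) 1).toReal := funext hf
    rw [this]
    exact (hw.min measurable_const).ennreal_toReal
  have hf0 : ∀ x, 0 ≤ f x := fun x => by rw [hf]; exact ENNReal.toReal_nonneg
  have hfw : ∀ x, ENNReal.ofReal (f x) ≤ w x := fun x => by
    rw [hf, ENNReal.ofReal_toReal (hne x)]
    exact min_le_left _ _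
  have hfp : ∀ x y, 1 ≤ w x + w y → 1 ≤ f x + f y := by
    intro x y h
    rw [hf, hf, ← ENNReal.toReal_add (hne x) (hne y), ← ENNReal.toReal_one]
    refine ENNReal.toReal_mono (ENNReal.add_ne_top.2 ⟨hne x, hne y⟩) ?_
    rcases le_total (w x) 1 with h1 | h1
    · rcases le_total (w y) 1 with h2 | h2
      · rwa [min_eq_left h1, min_eq_left h2]
      · rw [min_eq_right h2]
        exact le_add_self
    · rw [min_eq_right h1]
      exact le_self_add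
  -- the measure with density `|K|`
  have hgm : AEMeasurable (fun x => ENNReal.ofReal |gaussK F x|) (μH[((n : ℕ) : ℝ)].restrict C) :=
    ((hgc.abs).aemeasurable hC.measurableSet).ennreal_ofReal
  obtain ⟨m, hm⟩ : ∃ m : Measure V, m = (μH[((n : ℕ) : ℝ)].restrict C).withDensity
    (fun x => ENNReal.ofReal |gaussK F x|) := ⟨_, rfl⟩
  have hmA : ∀ A : Set V, MeasurableSet A → m A = ∫⁻ x in A ∩ C, ENNReal.ofReal |gaussK F x|
      ∂μH[((n : ℕ) : ℝ)] := by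
    intro A hA
    rw [hm, withDensity_apply _ hA, Measure.restrict_restrict hA]
  have hlevel : ∀ t : ℝ, MeasurableSet {x | t ≤ f x} := fun t =>
    measurableSet_le measurable_const hfm
  have hkey := nsw_layer m f hfm hf0 (μH[((n : ℕ) : ℝ)] (sphere (0 : V) 1)) (by
    intro t ht0 ht2
    rw [hmA _ (hlevel t), hmA _ (hlevel (1 - t))]
    refine nsw_two n hn F hF hreg hK C hC.measurableSet hCM _ _ (hlevel t) (hlevel (1 - t)) ?_ ?_
      hcon
    · intro x hx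
      have hx' : 1 - t ≤ f x := hx
      show t ≤ f x
      linarith
    · intro x hx y hy hKx hKy hxy hpos
      have h1 := hfp x y (hpair x hx y hy hKx hKy hxy hpos)
      by_cases h2 : t ≤ f x
      · by_cases h3 : t ≤ f y
        · exact Or.inl ⟨h2, h3⟩
        · refine Or.inr (Or.inl ?_)
          show 1 - t ≤ f x
          linarith [not_le.1 h3]
      · refine Or.inr (Or.inr ?_)
        show 1 - t ≤ f y
        linarith [not_le.1 h2])
  have hint2 : ∫⁻ x, ENNReal.ofReal (f x) ∂m ≤ ∫⁻ x in {x | x ∈ C ∧ gaussK F x ≠ 0},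
      w x * ENNReal.ofReal |gaussK F x| ∂μH[((n : ℕ) : ℝ)] := by
    rw [hm, lintegral_withDensity_eq_lintegral_mul₀ hgm
      hfm.ennreal_ofReal.aemeasurable]
    have hZ0 : IsClosed (C ∩ gaussK F ⁻¹' {0}) :=
      hgc.preimage_isClosed_of_isClosed hC isClosed_singleton
    have h1 : ∫⁻ x in C, ENNReal.ofReal |gaussK F x| * ENNReal.ofReal (f x)
        ∂μH[((n : ℕ) : ℝ)] ≤
        ∫⁻ x in {x | x ∈ C ∧ gaussK F x ≠ 0}, ENNReal.ofReal |gaussK F x| * ENNReal.ofReal (f x)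
        ∂μH[((n : ℕ) : ℝ)] +
        ∫⁻ x in C ∩ gaussK F ⁻¹' {0}, ENNReal.ofReal |gaussK F x| * ENNReal.ofReal (f x)
        ∂μH[((n : ℕ) : ℝ)] := by
      refine le_trans (lintegral_mono_set ?_) (lintegral_union_le _ _ _)
      intro x hx
      by_cases h : gaussK F x = 0
      · exact Or.inr ⟨hx, h⟩
      · exact Or.inl ⟨hx, h⟩
    have h2 : ∫⁻ x in C ∩ gaussK F ⁻¹' {0}, ENNReal.ofReal |gaussK F x| * ENNReal.ofReal (f x)
        ∂μH[((n : ℕ) : ℝ)] = 0 := by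
      have e3 : ∫⁻ x in C ∩ gaussK F ⁻¹' {0}, ENNReal.ofReal |gaussK F x| * ENNReal.ofReal (f x)
          ∂μH[((n : ℕ) : ℝ)] ≤ ∫⁻ x in C ∩ gaussK F ⁻¹' {0}, 0 ∂μH[((n : ℕ) : ℝ)] := by
        refine setLIntegral_mono' hZ0.measurableSet ?_
        intro x hx
        have hx' : gaussK F x = 0 := hx.2
        rw [hx']
        simp
      simpa using e3
    rw [h2, add_zero] at h1
    refine h1.trans (lintegral_mono fun x => ?_)
    rw [mul_comm]
    gcongr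
    exact hfw x
  have h3 : 2 * ∫⁻ x, ENNReal.ofReal (f x) ∂m ≤ 2 * ∫⁻ x in {x | x ∈ C ∧ gaussK F x ≠ 0},
      w x * ENNReal.ofReal |gaussK F x| ∂μH[((n : ℕ) : ℝ)] := by gcongr
  exact absurd (hkey.trans h3) (not_le.2 hint)

end direction

/-- **Weights on facing pairs.** -/
theorem near_star_weight {V : Type u} [NormedAddCommGroup V] [InnerProductSpace ℝ V]
    [FiniteDimensional ℝ V] [MeasurableSpace V] [BorelSpace V] (hdim : Module.finrank ℝ V = 4)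
    (hA : ∀ e : V, ‖e‖ = 1 → AlexStmt (ℝ ∙ e)ᗮ) (F : V → ℝ) (hF : ContDiff ℝ ∞ F)
    (hb : Bornology.IsBounded {x | F x ≤ 0}) (hreg : ∀ x, F x = 0 → gradient F x ≠ 0)
    (hMc : IsConnected {x | F x = 0}) (hMl : LiftS {x | F x = 0})
    (w : V → ℝ≥0∞) (hw : Measurable w)
    (hpair : ∀ x y, F x = 0 → F y = 0 → gaussK F x ≠ 0 → gaussK F y ≠ 0 → 2 ≤ nneg F x →
      2 ≤ nneg F y → nrm F x = -nrm F y → 0 < ⟪nrm F y, x - y⟫ → 1 ≤ w x + w y)
    (hint : 2 * ∫⁻ x in {x | F x = 0 ∧ 2 ≤ nneg F x},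
      w x * ENNReal.ofReal |gaussK F x| ∂μH[3] < μH[3] (sphere (0 : V) 1)) :
    Carries {x : V | F x = 0} (sphere (0 : V) 1) := by
  have hK : IsCompact {x | F x = 0} := Final_compact hF.continuous hb
  have hCc := nsC_closed F hF hK
  have hnn : ∀ x ∈ nsC F, gaussK F x ≠ 0 → 2 ≤ nneg F x := fun x hx hK0 =>
    two_le_nneg_of_nsC 3 hdim F hF hx (hreg x hx.1) hK0
  have hsub : {x | x ∈ nsC F ∧ gaussK F x ≠ 0} ⊆ {x | F x = 0 ∧ 2 ≤ nneg F x} :=
    fun x hx => ⟨hx.1.1, hnn x hx.1 hx.2⟩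
  obtain ⟨e, he, hNF⟩ := nsw_exists 3 hdim F hF hreg hK (nsC F) hCc (fun x hx => hx.1) w hw
    (fun x hx y hy hKx hKy hxy hpos => hpair x y hx.1 hy.1 hKx hKy (hnn x hx hKx) (hnn y hy hKy)
      hxy hpos) (by
      refine lt_of_le_of_lt ?_ hint
      rw [Nat.cast_ofNat]
      gcongr)
  have hcl : closure (M2 F) ⊆ nsC F := closure_minimal (M2_subset_nsC F) hCc
  exact facing_carries hdim hA F hF hb hreg hMc hMl e he
    fun x hx y hy hnx hny => hNF x (hcl hx) y (hcl hy) hnx hny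

end Pool.Schoen
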