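import Pool.Agent.H.MP_6c077c_gt.Gd.BaseAux
import Pool.Agent.H.MP_6c077c_gt.Gd.BaseDef
import Pool.Agent.H.MP_6c077c_gt.Ix.Dz
import Pool.Agent.H.MP_6c077c_gt.Ix.TopC

/-! Guard theorem: the slab is homotopic to the cylinder over the slice. -/

set_option autoImplicit false

namespace Pool.Schoen

open Filter Set
open scoped Topology RealInnerProductSpace ContDiff

variable {V : Type*} [NormedAddCommGroup V] [InnerProductSpace ℝ V]

/-- PROOF. Family `H t x = max (g (x - (t * (⟪e, x⟫ - c)) • e)) (|⟪e, x⟫ - c| - s)`, `t ∈ Icc 0 1`;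
`H 0` is the left side, `H 1 = cyl (slc g e c) c s` (`hpr_add`). The sublevel sets are bounded: the
height of `x' = x - (t * (⟪e, x⟫ - c)) • e` is `c + (1 - t) (⟪e, x⟫ - c)`, `g x' ≤ 0`,
`‖x - x'‖ ≤ s`. At a zero `(t, x)`: `x'` has height in `[a, b]`. If `g x' = 0` take `v` with `⟪e, v⟫ = 0`,
`Desc1 g x' v` (`Two.mid`). The direction is `v - η σ e`, `σ` the sign of `⟪e, x⟫ - c`, `η ≥ 0` small
(`η = 0` if `|⟪e, x⟫ - c| < s`): the linear maps `L_τ w = w - (τ ⟪e, w⟫) • e` are near the identity on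
`v - η σ e` (`‖L_τ w - v‖ ≤ 2 ‖w - v‖`), so the neighbourhoods in `Desc1 g x' v` (in the point, the
direction and the time) give `Desc` of `(τ, y) ↦ g (y - (τ (⟪e, y⟫ - c)) • e)`. If `g x' ≠ 0` take
`-σ e`. Maxima: `dz_max`. -/
theorem base_flat {g : V → ℝ} {e : V} (he : ‖e‖ = 1) {a b c s : ℝ} (hs : 0 < s)
    (h1 : a < c - s) (h2 : c + s < b) (hg : Two g e a b ∅ ∅) :
    Hom (fun x => max (g x) (|⟪e, x⟫ - c| - s)) (cyl (slc g e c) c s) := by
  have hee : ⟪e, e⟫ = 1 := by rw [real_inner_self_eq_norm_sq, he]; norm_num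
  obtain ⟨R, hR⟩ := hg.bdd.exists_norm_le
  have hφc : Continuous fun p : ℝ × V => p.2 - (p.1 * (⟪e, p.2⟫ - c)) • e := by fun_prop
  have hψc : Continuous fun p : ℝ × V => p.2 - (p.1 * ⟪e, p.2⟫) • e := by fun_prop
  have hK : Continuous fun p : ℝ × V => g (p.2 - (p.1 * (⟪e, p.2⟫ - c)) • e) :=
    hg.good.cont.comp hφc
  have hht : ∀ (t : ℝ) (x : V),
      ⟪e, x - (t * (⟪e, x⟫ - c)) • e⟫ = c + (1 - t) * (⟪e, x⟫ - c) := by
    intro t x
    rw [inner_sub_right, real_inner_smul_right, hee]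
    ring
  refine ⟨fun t x => max (g (x - (t * (⟪e, x⟫ - c)) • e)) (|⟪e, x⟫ - c| - s), ?_, ?_, ?_, ?_, ?_⟩
  · exact hK.max ((BaseAux_acont e c s).comp continuous_snd)
  · funext x
    beta_reduce
    rw [zero_mul, zero_smul, sub_zero]
  · funext x
    have h3 : x - (1 * (⟪e, x⟫ - c)) • e = ((hpr e x : (ℝ ∙ e)ᗮ) : V) + c • e := by
      nth_rw 1 [← hpr_add he x]
      module
    unfold cyl slc
    beta_reduce
    rw [h3]
  · refine ⟨R + s, fun t ht x hx => ?_⟩
    have h3 : g (x - (t * (⟪e, x⟫ - c)) • e) ≤ 0 := (le_max_left _ _).trans hx.le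
    have h4 : |⟪e, x⟫ - c| - s ≤ 0 := (le_max_right _ _).trans hx.le
    have h5 := hR _ h3
    have h6 : ‖(t * (⟪e, x⟫ - c)) • e‖ ≤ s := by
      rw [norm_smul, he, mul_one, Real.norm_eq_abs, abs_mul, abs_of_nonneg ht.1]
      have h7 := mul_le_mul ht.2 (by linarith : |⟪e, x⟫ - c| ≤ s) (abs_nonneg _) zero_le_one
      linarith
    have h8 := norm_add_le (x - (t * (⟪e, x⟫ - c)) • e) ((t * (⟪e, x⟫ - c)) • e)
    rw [sub_add_cancel] at h8
    linarith
  · intro t ht x hx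
    have h4 : |⟪e, x⟫ - c| ≤ s := by
      have := (le_max_right _ _).trans hx.le
      linarith
    refine BaseAux_max (K := fun t x => g (x - (t * (⟪e, x⟫ - c)) • e)) he hs
      (BaseAux_lim (K := fun t x => g (x - (t * (⟪e, x⟫ - c)) • e)) hK _ t x) hx ?_
    intro h0
    beta_reduce at h0
    have h5 : |(1 - t) * (⟪e, x⟫ - c)| ≤ s := by
      rw [abs_mul, abs_of_nonneg (by linarith [ht.2] : 0 ≤ 1 - t)]
      have h7 := mul_le_mul (by linarith [ht.1] : 1 - t ≤ 1) h4 (abs_nonneg _) zero_le_one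
      linarith
    obtain ⟨h6, h7⟩ := abs_le.1 h5
    obtain ⟨v, hev, hv⟩ := hg.mid _ h0 (by rw [hht]; linarith) (by rw [hht]; linarith)
    refine ⟨v, hev, ?_⟩
    have hlim : Tendsto (fun w : V => w - (t * ⟪e, w⟫) • e) (𝓝 v) (𝓝 v) := by
      have hc : Continuous fun w : V => w - (t * ⟪e, w⟫) • e := by fun_prop
      have := hc.tendsto v
      rwa [hev, mul_zero, zero_smul, sub_zero] at this
    filter_upwards [hlim.eventually (Desc.open_dir hv)] with w hw
    have hw' : Desc (fun _ : ℝ => g) (𝓝[Icc 0 1] t) (x - (t * (⟪e, x⟫ - c)) • e)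
        (w - (t * ⟪e, w⟫) • e) := Desc1.const hw _
    refine BaseAux_aff hw' (fun t y => y - (t * (⟪e, y⟫ - c)) • e) (fun t w => w - (t * ⟪e, w⟫) • e)
      ?_ ?_ ?_
    · have h8 := hφc.tendsto (t, x)
      refine h8.mono_left ?_
      rw [nhds_prod_eq]
      exact Filter.prod_mono nhdsWithin_le_nhds le_rfl
    · have h8 := hψc.tendsto (t, w)
      refine h8.mono_left ?_
      rw [nhds_prod_eq]
      exact Filter.prod_mono nhdsWithin_le_nhds le_rfl
    · intro t y w s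
      rw [inner_add_right, real_inner_smul_right]
      module

end Pool.Schoen
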