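import Pool.Agent.H.MP_6c077c_gt.Gd.BaseAux
import Pool.Agent.H.MP_6c077c_gt.Gd.BaseDef
import Pool.Agent.H.MP_6c077c_gt.Ix.Dz
import Pool.Agent.H.MP_6c077c_gt.Ix.TopC

/-! Guard theorem: the cylinder over a ball is a ball. -/

set_option autoImplicit false

namespace Pool.Schoen

open Filter Set
open scoped Topology RealInnerProductSpace ContDiff

variable {V : Type*} [NormedAddCommGroup V] [InnerProductSpace ℝ V] [FiniteDimensional ℝ V]

/-- Products of homotopies with an interval. -/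
theorem BaseProd_hom {e : V} (he : ‖e‖ = 1) {f0 g0 : (ℝ ∙ e)ᗮ → ℝ} (h : Hom f0 g0) (c : ℝ) {s : ℝ}
    (hs : 0 < s) (hb : Bornology.IsBounded {y | f0 y ≤ 0}) :
    Hom (cyl f0 c s) (cyl g0 c s) := by
  obtain ⟨H, hH, h0, h1, hz, hd⟩ := h
  subst h0
  subst h1
  obtain ⟨R, hR⟩ := hom_bdd H hH hz hb
  have hHc : Continuous fun p : ℝ × V => H p.1 (hpr e p.2) :=
    hH.comp (continuous_fst.prodMk ((hprL e).continuous.comp continuous_snd))
  refine ⟨fun t x => max (H t (hpr e x)) (|⟪e, x⟫ - c| - s), ?_, rfl, rfl, ?_, ?_⟩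
  · exact hHc.max ((BaseAux_acont e c s).comp continuous_snd)
  · refine ⟨R + (|c| + s), fun t ht x hx => ?_⟩
    have h1 : H t (hpr e x) ≤ 0 := (le_max_left _ _).trans hx.le
    have h2 : |⟪e, x⟫ - c| - s ≤ 0 := (le_max_right _ _).trans hx.le
    have h3 := hR t ht (hpr e x) h1
    have h4 := BaseAux_norm he x
    have h5 : |⟪e, x⟫| ≤ |⟪e, x⟫ - c| + |c| := by
      have := abs_add_le (⟪e, x⟫ - c) c
      rwa [sub_add_cancel] at this
    linarith
  · intro t ht x hx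
    refine BaseAux_max (K := fun t x => H t (hpr e x)) he hs
      (BaseAux_lim (K := fun t x => H t (hpr e x)) hHc _ t x) hx ?_
    intro h0
    obtain ⟨v0, hv0⟩ := hd t ht (hpr e x) h0
    refine ⟨(v0 : V), BaseDef_inner e v0, ?_⟩
    have h1 : Tendsto (hprL e) (𝓝 (v0 : V)) (𝓝 v0) := by
      have := (hprL e).continuous.tendsto (v0 : V)
      rwa [hprL_apply, BaseDef_coe] at this
    filter_upwards [h1.eventually hv0.open_dir] with w hw
    exact BaseAux_clm (hprL e) hw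

/-- PROOF. Let `M t` be the family from `f0` to `‖y‖ ^ 2 - 1` (`Hom f0 _`); `{M t ≤ 0}` is bounded
uniformly in `t` (`hom_bdd` for the reversed family, `Hom.symm`). Family
`H t x = max (M t (hpr e x)) (|⟪e, x⟫ - c| - s)`. Direction at a zero: `v0 - σ e` where `v0` is the
direction of `M t` at `hpr e x` (or `0` if `M t (hpr e x) < 0`) as a vector of `V` and `σ` the sign of
`⟪e, x⟫ - c` (or `0` if `|⟪e, x⟫ - c| < s`): `M t (hpr e (y + s w)) = M t (hpr e y + s hpr e w)`.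
Maxima: `dz_max`. At the end `H 1 x = max (‖hpr e x‖ ^ 2 - 1) (|⟪e, x⟫ - c| - s)` is convex:
`isBall_convex` with `o = c • e`. -/
theorem isBall_cyl {e : V} (he : ‖e‖ = 1) {f0 : (ℝ ∙ e)ᗮ → ℝ} (h : IsBall f0) (c : ℝ) {s : ℝ}
    (hs : 0 < s) : IsBall (cyl f0 c s) := by
  have hb0 : Bornology.IsBounded {y : (ℝ ∙ e)ᗮ | ‖y‖ ^ 2 - 1 ≤ 0} := by
    refine (Metric.isBounded_closedBall (x := (0 : (ℝ ∙ e)ᗮ)) (r := 1)).subset fun y hy => ?_
    have h1 : ‖y‖ ^ 2 - 1 ≤ 0 := hy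
    rw [mem_closedBall_zero_iff]
    nlinarith [norm_nonneg y]
  have h1 : Hom (cyl (fun y : (ℝ ∙ e)ᗮ => ‖y‖ ^ 2 - 1) c s) (cyl f0 c s) :=
    BaseProd_hom he h.symm c hs hb0
  refine h1.symm.trans ?_
  have hcont : Continuous (cyl (fun y : (ℝ ∙ e)ᗮ => ‖y‖ ^ 2 - 1) c s) := by
    unfold cyl
    have h2 : Continuous fun x : V => hpr e x := (hprL e).continuous
    exact ((h2.norm.pow 2).sub continuous_const).max (BaseAux_acont e c s)
  have hbd : Bornology.IsBounded {x : V | cyl (fun y : (ℝ ∙ e)ᗮ => ‖y‖ ^ 2 - 1) c s x ≤ 0} := by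
    refine (Metric.isBounded_closedBall (x := (0 : V)) (r := 1 + (|c| + s))).subset fun x hx => ?_
    have h2 : max (‖hpr e x‖ ^ 2 - 1) (|⟪e, x⟫ - c| - s) ≤ 0 := hx
    have h3 := (le_max_left _ _).trans h2
    have h4 := (le_max_right _ _).trans h2
    have h5 : ‖hpr e x‖ ≤ 1 := by nlinarith [norm_nonneg (hpr e x)]
    have h6 := BaseAux_norm he x
    have h7 : |⟪e, x⟫| ≤ |⟪e, x⟫ - c| + |c| := by
      have := abs_add_le (⟪e, x⟫ - c) c
      rwa [sub_add_cancel] at this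
    rw [mem_closedBall_zero_iff]
    linarith
  have hcv1 : ConvexOn ℝ univ fun x : V => ‖hpr e x‖ ^ 2 - 1 := by
    have h2 : ConvexOn ℝ univ fun x : V => ‖hprL e x‖ := by
      have := (convexOn_univ_norm (E := (ℝ ∙ e)ᗮ)).comp_linearMap (hprL e : V →ₗ[ℝ] (ℝ ∙ e)ᗮ)
      exact this
    have h3 := (h2.pow (fun x _ => norm_nonneg _) 2).add_const (-1)
    refine h3.congr fun x _ => ?_
    simp only [Pi.add_apply, Pi.pow_apply, hprL_apply]
    ring
  have hcv2 : ConvexOn ℝ univ fun x : V => |⟪e, x⟫ - c| - s := by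
    refine ⟨convex_univ, fun x _ y _ a b ha hb hab => ?_⟩
    have h2 : ⟪e, a • x + b • y⟫ - c = a * (⟪e, x⟫ - c) + b * (⟪e, y⟫ - c) := by
      rw [inner_add_right, real_inner_smul_right, real_inner_smul_right]
      have h3 : c = a * c + b * c := by rw [← add_mul, hab, one_mul]
      nth_rw 1 [h3]
      ring
    have h4 := abs_add_le (a * (⟪e, x⟫ - c)) (b * (⟪e, y⟫ - c))
    rw [abs_mul, abs_mul, abs_of_nonneg ha, abs_of_nonneg hb] at h4
    have h5 : s = a * s + b * s := by rw [← add_mul, hab, one_mul]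
    simp only [smul_eq_mul]
    rw [h2]
    nlinarith
  refine isBall_convex (o := c • e) (hcv1.sup hcv2) hcont ?_ hbd
  have h2 : hpr e (c • e) = 0 := by
    rw [← hprL_apply, map_smul, hprL_apply, BaseDef_self, smul_zero]
  have h3 : ⟪e, c • e⟫ - c = 0 := by
    rw [real_inner_smul_right, real_inner_self_eq_norm_sq, he]
    ring
  apply max_lt
  · rw [h2]
    simp
  · rw [h3, abs_zero]
    linarith

end Pool.Schoen
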