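import Pool.Agent.H.MP_6c077c_gt.Gd.BaseDef
import Pool.Agent.H.MP_6c077c_gt.Ix.TopC

/-! Guard theorem: descent directions of maxima with `|⟪e, x⟫ - c| - s`. -/

set_option autoImplicit false

namespace Pool.Schoen

open Filter Set
open scoped Topology RealInnerProductSpace

variable {V W : Type*} [NormedAddCommGroup V] [InnerProductSpace ℝ V]
  [NormedAddCommGroup W] [InnerProductSpace ℝ W]

/-- Descent directions and families of affine maps. -/
theorem BaseAux_aff {X : Type*} {H : X → W → ℝ} {l : Filter X} {x' v' : W} {x v : V}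
    (h : Desc H l x' v') (φ ψ : X → V → W)
    (hφ : Tendsto (fun p : X × V => φ p.1 p.2) (l ×ˢ 𝓝 x) (𝓝 x'))
    (hψ : Tendsto (fun p : X × V => ψ p.1 p.2) (l ×ˢ 𝓝 v) (𝓝 v'))
    (hlin : ∀ (t : X) (y w : V) (s : ℝ), φ t (y + s • w) = φ t y + s • ψ t w) :
    Desc (fun t y => H t (φ t y)) l x v := by
  obtain ⟨c, hc, he⟩ := h
  refine ⟨c, hc, ?_⟩
  have h1 : Tendsto (fun q : X × (V × (V × ℝ)) =>
      ((q.1, (φ q.1 q.2.1, (ψ q.1 q.2.2.1, q.2.2.2))) : X × (W × (W × ℝ))))
      (l ×ˢ (𝓝 x ×ˢ (𝓝 v ×ˢ 𝓝[>] (0 : ℝ)))) (l ×ˢ (𝓝 x' ×ˢ (𝓝 v' ×ˢ 𝓝[>] (0 : ℝ)))) := by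
    refine tendsto_fst.prodMk (Tendsto.prodMk ?_ (Tendsto.prodMk ?_ ?_))
    · exact hφ.comp (tendsto_fst.prodMk (tendsto_fst.comp tendsto_snd))
    · exact hψ.comp (tendsto_fst.prodMk (tendsto_fst.comp (tendsto_snd.comp tendsto_snd)))
    · exact tendsto_snd.comp (tendsto_snd.comp tendsto_snd)
  refine (h1.eventually he).mono fun q hq => ?_
  beta_reduce
  rw [hlin]
  exact hq

/-- Composition with a continuous linear map. -/
theorem BaseAux_clm {X : Type*} {H : X → W → ℝ} {l : Filter X} {x v : V} (L : V →L[ℝ] W)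
    (h : Desc H l (L x) (L v)) : Desc (fun t y => H t (L y)) l x v :=
  BaseAux_aff h (fun _ y => L y) (fun _ y => L y)
    ((L.continuous.tendsto x).comp tendsto_snd) ((L.continuous.tendsto v).comp tendsto_snd)
    (fun _ y w s => by rw [map_add, map_smul])

theorem BaseAux_norm {e : V} (he : ‖e‖ = 1) (x : V) : ‖x‖ ≤ ‖hpr e x‖ + |⟪e, x⟫| := by
  have h1 := norm_add_le ((hpr e x : (ℝ ∙ e)ᗮ) : V) (⟪e, x⟫ • e)
  rw [hpr_add he, norm_smul, he, mul_one, Real.norm_eq_abs] at h1
  exact h1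

/-- The height minus `c`. -/
theorem BaseAux_cont (e : V) (c : ℝ) : Continuous fun x : V => ⟪e, x⟫ - c := by fun_prop

theorem BaseAux_acont (e : V) (c s : ℝ) : Continuous fun x : V => |⟪e, x⟫ - c| - s := by fun_prop

/-- `|⟪e, x⟫ - c| - s` descends in the direction `v` if `v` points towards the level `c`. -/
theorem BaseAux_absh {e x v : V} {c : ℝ} (s : ℝ) (h0 : ⟪e, x⟫ - c ≠ 0)
    (hv : (⟪e, x⟫ - c) * ⟪e, v⟫ < 0) : Desc1 (fun y => |⟪e, y⟫ - c| - s) x v := by
  rcases lt_or_gt_of_ne h0 with h | h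
  · have h1 : 0 < ⟪e, v⟫ := by
      by_contra h2
      have := mul_nonneg_of_nonpos_of_nonpos h.le (not_lt.1 h2)
      linarith
    have h3 : Desc1 (fun y => ⟪-e, y - 0⟫) x v := desc1_affine (-e) 0 (by
      rw [inner_neg_left]
      linarith)
    have h4 : Desc1 (fun y => ⟪-e, y - 0⟫ + (c - s)) x v := desc_add_const h3 fun _ => c - s
    refine h4.congr ?_
    filter_upwards [(BaseAux_cont e c).continuousAt.eventually_lt_const h] with y hy
    rw [abs_of_neg hy, inner_neg_left, sub_zero]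
    ring
  · have h1 : ⟪e, v⟫ < 0 := by
      by_contra h2
      have := mul_nonneg h.le (not_lt.1 h2)
      linarith
    have h3 : Desc1 (fun y => ⟪e, y - 0⟫) x v := desc1_affine e 0 h1
    have h4 : Desc1 (fun y => ⟪e, y - 0⟫ + (-c - s)) x v := desc_add_const h3 fun _ => -c - s
    refine h4.congr ?_
    filter_upwards [(BaseAux_cont e c).continuousAt.eventually_const_lt h] with y hy
    rw [abs_of_pos hy, sub_zero]
    ring

/-- If the family `K` has, at its zeros, a horizontal descent direction which may be tilted, then its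
maximum with `|⟪e, x⟫ - c| - s` has a descent direction at its zeros. -/
theorem BaseAux_max {X : Type*} {K : X → V → ℝ} {l : Filter X} {e x : V} (he : ‖e‖ = 1)
    {c s : ℝ} (hs : 0 < s) {t : X}
    (hl : Tendsto (fun p : X × V => K p.1 p.2) (l ×ˢ 𝓝 x) (𝓝 (K t x)))
    (hx : max (K t x) (|⟪e, x⟫ - c| - s) = 0)
    (hv : K t x = 0 → ∃ v, ⟪e, v⟫ = 0 ∧ ∀ᶠ w in 𝓝 v, Desc K l x w) :
    ∃ v, Desc (fun t y => max (K t y) (|⟪e, y⟫ - c| - s)) l x v := by
  have hee : ⟪e, e⟫ = 1 := by rw [real_inner_self_eq_norm_sq, he]; norm_num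
  obtain ⟨z, hz⟩ : ∃ z, z = ⟪e, x⟫ - c := ⟨_, rfl⟩
  have hlc : Tendsto (fun p : X × V => |⟪e, p.2⟫ - c| - s) (l ×ˢ 𝓝 x)
      (𝓝 (|⟪e, x⟫ - c| - s)) := ((BaseAux_acont e c s).tendsto x).comp tendsto_snd
  by_cases h0 : K t x = 0
  · obtain ⟨v, hev, hv⟩ := hv h0
    rcases eq_or_lt_of_le ((le_max_right (K t x) _).trans hx.le) with h1 | h1
    · have hz0 : z ≠ 0 := by
        intro h
        rw [← hz, h, abs_zero] at h1
        linarith
      have hlim : Tendsto (fun a : ℝ => v + a • (-(z • e))) (𝓝[>] 0) (𝓝 v) := by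
        have hc : Continuous fun a : ℝ => v + a • (-(z • e)) := by fun_prop
        have := hc.tendsto 0
        simp only [zero_smul, add_zero] at this
        exact this.mono_left nhdsWithin_le_nhds
      obtain ⟨a, h2, ha0⟩ := ((hlim.eventually hv).and self_mem_nhdsWithin).exists
      have ha0' : 0 < a := ha0
      have hin : ⟪e, v + a • (-(z • e))⟫ = -(a * z) := by
        rw [inner_add_right, real_inner_smul_right, inner_neg_right, real_inner_smul_right, hee,
          hev]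
        ring
      refine ⟨_, desc_max h2 ((BaseAux_absh (c := c) s (by rw [← hz]; exact hz0) ?_).const l)⟩
      rw [hin, ← hz]
      nlinarith [mul_pos ha0' (mul_self_pos.2 hz0)]
    · refine ⟨v, desc_max_left hv.self_of_nhds ?_⟩
      have h3 := hlc.eventually_lt hl (by rw [h0]; exact h1)
      exact h3.mono fun p hp => hp.le
  · have h1 : K t x < 0 := lt_of_le_of_ne ((le_max_left _ _).trans hx.le) h0
    have h2 : |⟪e, x⟫ - c| - s = 0 := by
      rcases max_choice (K t x) (|⟪e, x⟫ - c| - s) with h | h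
      · rw [h] at hx
        exact absurd hx h0
      · rw [h] at hx
        exact hx
    have hz0 : z ≠ 0 := by
      intro h
      rw [← hz, h, abs_zero] at h2
      linarith
    refine ⟨-(z • e), desc_max_right
      ((BaseAux_absh (c := c) s (by rw [← hz]; exact hz0) ?_).const l) ?_⟩
    · rw [inner_neg_right, real_inner_smul_right, hee, ← hz]
      nlinarith [mul_self_pos.2 hz0]
    · have h3 := hl.eventually_lt hlc (by rw [h2]; exact h1)
      exact h3.mono fun p hp => hp.le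

theorem BaseAux_lim {K : ℝ → V → ℝ} (hK : Continuous fun p : ℝ × V => K p.1 p.2)
    (S : Set ℝ) (t : ℝ) (y : V) :
    Tendsto (fun p : ℝ × V => K p.1 p.2) (𝓝[S] t ×ˢ 𝓝 y) (𝓝 (K t y)) := by
  have h := hK.tendsto (t, y)
  refine h.mono_left ?_
  rw [nhds_prod_eq]
  exact Filter.prod_mono nhdsWithin_le_nhds le_rfl

end Pool.Schoen
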