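import Pool.Agent.H.MP_6c077c_gt.Gd.BaseDef
import Pool.Agent.H.MP_6c077c_gt.Gd.BaseAux
import Pool.Agent.H.MP_6c077c_gt.Ix.TopC

/-! Guard theorem: the slice of a body without inward points above and below. -/

set_option autoImplicit false

namespace Pool.Schoen

open Filter Set
open scoped Topology RealInnerProductSpace ContDiff

variable {V : Type*} [NormedAddCommGroup V] [InnerProductSpace ℝ V]

theorem slc_continuous {f : V → ℝ} (hf : Continuous f) (e : V) (c : ℝ) :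
    Continuous (slc f e c) := by
  unfold slc
  fun_prop

theorem BaseSlice_bdd {f : V → ℝ} {e : V} (he : ‖e‖ = 1) (hb : Bornology.IsBounded {x | f x ≤ 0})
    (c : ℝ) : Bornology.IsBounded {y | slc f e c y ≤ 0} := by
  obtain ⟨R, hR⟩ := hb.exists_norm_le
  refine (Metric.isBounded_closedBall (x := (0 : (ℝ ∙ e)ᗮ)) (r := R + |c|)).subset ?_
  intro y hy
  rw [Metric.mem_closedBall, dist_zero_right]
  have h1 := hR _ (show (y : V) + c • e ∈ {x | f x ≤ 0} from hy)
  have h3 : ‖(y : V)‖ ≤ ‖(y : V) + c • e‖ + ‖c • e‖ := by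
    have h2 := norm_sub_le ((y : V) + c • e) (c • e)
    rwa [add_sub_cancel_right] at h2
  rw [norm_smul, he, mul_one, Real.norm_eq_abs] at h3
  rw [Submodule.coe_norm]
  linarith

/-- PROOF. Zeros `y` of the slice: `x = y + c • e`, `Two.mid` gives a horizontal `v`, a point of the
subspace; restrict the neighbourhoods in `Desc1`. -/
theorem slice_good {g : V → ℝ} {e : V} (he : ‖e‖ = 1) {a b c : ℝ} {P Q : Finset V} (h1 : a < c)
    (h2 : c < b) (hg : Two g e a b P Q) :
    Good (slc g e c) ∧ Bornology.IsBounded {y | slc g e c y ≤ 0} := by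
  have hb := BaseSlice_bdd he hg.bdd c
  refine ⟨⟨slc_continuous hg.good.cont e c, hb.subset fun y hy => le_of_eq hy, ?_⟩, hb⟩
  intro y hy
  have hc : ⟪e, (y : V) + c • e⟫ = c := inner_hpr he y c
  obtain ⟨v, hv', hv⟩ := hg.mid ((y : V) + c • e) hy (by rw [hc]; exact h1.le)
    (by rw [hc]; exact h2.le)
  have hv2 : v ∈ (ℝ ∙ e)ᗮ := Submodule.mem_orthogonal_singleton_iff_inner_right.2 hv'
  refine ⟨⟨v, hv2⟩, ?_⟩
  have hc1 : Continuous fun y : (ℝ ∙ e)ᗮ => (y : V) + c • e := by fun_prop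
  refine BaseAux_aff (H := fun _ : Unit => g) (x' := (y : V) + c • e) (v' := v) hv
    (fun _ y => ((y : (ℝ ∙ e)ᗮ) : V) + c • e) (fun _ u => ((u : (ℝ ∙ e)ᗮ) : V)) ?_ ?_ ?_
  · exact (hc1.tendsto y).comp tendsto_snd
  · have hc2 : Continuous fun y : (ℝ ∙ e)ᗮ => (y : V) := continuous_subtype_val
    exact (hc2.tendsto (⟨v, hv2⟩ : (ℝ ∙ e)ᗮ)).comp tendsto_snd
  · intro t z u s
    push_cast
    module

theorem BaseSlice_mem {g : (e : V) → (ℝ ∙ e)ᗮ → ℝ} {e : V} (he : ‖e‖ = 1) {c s : ℝ} (hs : 0 < s)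
    {y : (ℝ ∙ e)ᗮ} (hy : g e y ≤ 0) : cyl (g e) c s ((y : V) + c • e) ≤ 0 := by
  unfold cyl
  rw [hpr_coe he, inner_hpr he, sub_self, abs_zero]
  exact max_le hy (by linarith)

/-- PROOF. The sublevel set of the slice is the image of that of the cylinder under `hpr e`. -/
theorem slice_conn {f0 : V → ℝ} {e : V} (he : ‖e‖ = 1) {c s : ℝ} (hs : 0 < s)
    (h : IsConnected {x | cyl (slc f0 e c) c s x ≤ 0}) : IsConnected {y | slc f0 e c y ≤ 0} := by
  have h1 : hpr e '' {x | cyl (slc f0 e c) c s x ≤ 0} = {y | slc f0 e c y ≤ 0} := by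
    ext y
    constructor
    · rintro ⟨x, hx, rfl⟩
      exact (le_max_left _ _).trans
        (show max (slc f0 e c (hpr e x)) (|⟪e, x⟫ - c| - s) ≤ 0 from hx)
    · intro hy
      exact ⟨(y : V) + c • e, BaseSlice_mem (g := fun e => slc f0 e c) he hs hy, hpr_coe he y c⟩
  rw [← h1]
  exact h.image _ (hprL e).continuous.continuousOn

/-- PROOF. If `u` is a circle map on the sublevel set `S` of the slice, `u ∘ hpr e` is one on the
cylinder; lift it and restrict to the height `c`. -/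
theorem slice_lift {f0 : V → ℝ} {e : V} (he : ‖e‖ = 1) {c s : ℝ} (hs : 0 < s)
    (h : LiftS {x | cyl (slc f0 e c) c s x ≤ 0}) : LiftS {y | slc f0 e c y ≤ 0} := by
  intro u hu hu1
  have hmap : ∀ x, cyl (slc f0 e c) c s x ≤ 0 → slc f0 e c (hpr e x) ≤ 0 := fun x hx =>
    (le_max_left _ _).trans hx
  obtain ⟨v, hv, hv'⟩ := h (fun x => u (hpr e x))
    (hu.comp (hprL e).continuous.continuousOn fun x hx => hmap x hx)
    (fun x hx => hu1 _ (hmap x hx))
  have hmem : ∀ y : (ℝ ∙ e)ᗮ, slc f0 e c y ≤ 0 →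
      cyl (slc f0 e c) c s ((y : V) + c • e) ≤ 0 := fun y hy =>
    BaseSlice_mem (g := fun e => slc f0 e c) he hs hy
  refine ⟨fun y => v ((y : V) + c • e), ?_, fun y hy => ?_⟩
  · have hc1 : Continuous fun y : (ℝ ∙ e)ᗮ => (y : V) + c • e := by fun_prop
    exact hv.comp hc1.continuousOn fun y hy => hmem y hy
  · have h2 := hv' _ (hmem y hy)
    rw [hpr_coe he] at h2
    exact h2

end Pool.Schoen
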