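import Pool.Agent.H.MP_6c077c_gt.Gd.BaseTrunc
import Pool.Agent.H.MP_6c077c_gt.Gd.BaseFlat
import Pool.Agent.H.MP_6c077c_gt.Gd.BaseSlice
import Pool.Agent.H.MP_6c077c_gt.Gd.BaseProd

/-! Guard theorem: without inward points above and below, the body is the slice times an interval. -/

set_option autoImplicit false

namespace Pool.Schoen

open Filter Set
open scoped Topology RealInnerProductSpace ContDiff

variable {V : Type*} [NormedAddCommGroup V] [InnerProductSpace ℝ V] [FiniteDimensional ℝ V]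

omit [FiniteDimensional ℝ V] in
theorem base_hom {g : V → ℝ} {e : V} (he : ‖e‖ = 1) {a b c : ℝ} (h1 : a < c) (h2 : c < b)
    (hg : Two g e a b ∅ ∅) : ∃ s : ℝ, 0 < s ∧ Hom g (cyl (slc g e c) c s) := by
  obtain ⟨s, hs⟩ : ∃ s : ℝ, s = min (c - a) (b - c) / 2 := ⟨_, rfl⟩
  have h3 : 0 < min (c - a) (b - c) := lt_min (by linarith) (by linarith)
  have h4 := min_le_left (c - a) (b - c)
  have h5 := min_le_right (c - a) (b - c)
  have hs0 : 0 < s := by rw [hs]; linarith
  have h6 : a < c - s := by rw [hs]; linarith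
  have h7 : c + s < b := by rw [hs]; linarith
  exact ⟨s, hs0, (base_trunc he hs0 h6 h7 hg).trans (base_flat he hs0 h6 h7 hg)⟩

theorem base_slice {g : V → ℝ} {e : V} (he : ‖e‖ = 1) {a b c : ℝ} (h1 : a < c) (h2 : c < b)
    (hg : Two g e a b ∅ ∅) (hconn : IsConnected {x | g x ≤ 0}) (hlift : LiftS {x | g x ≤ 0}) :
    IsConnected {y | slc g e c y ≤ 0} ∧ LiftS {y | slc g e c y ≤ 0} := by
  obtain ⟨s, hs, hh⟩ := base_hom he h1 h2 hg
  exact ⟨slice_conn he hs (hh.isConnected hg.bdd hconn), slice_lift he hs (hh.liftS hg.bdd hlift)⟩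

theorem base_ball {g : V → ℝ} {e : V} (he : ‖e‖ = 1) {a b c : ℝ} (h1 : a < c) (h2 : c < b)
    (hg : Two g e a b ∅ ∅) (h : IsBall (slc g e c)) : IsBall g := by
  obtain ⟨s, hs, hh⟩ := base_hom he h1 h2 hg
  exact hh.trans (isBall_cyl he h c hs)

end Pool.Schoen
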