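import Pool.Agent.H.MP_6c077c_gt.Gd.RTrunc

/-! Guard theorem: without inward points above and below the body is homotopic to its slab. -/

set_option autoImplicit false

namespace Pool.Schoen

open Filter Set
open scoped Topology RealInnerProductSpace ContDiff

variable {V : Type*} [NormedAddCommGroup V] [InnerProductSpace ℝ V]

/-- PROOF. `g` is `RClass g e a ∅`: `rtrunc_hom` at the level `c + s`, `k = trunc g e (c + s)`. Then `k`
is `RClass k (-e) (-c) ∅` (zeros of height at most `c`: `trunc_eq_low` and `freeQ`; `good`, `bdd` from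
`rtrunc_class`): `rtrunc_hom` at the level `-(c - s) > -c` of `-e`. The result is
`max (max (g x) (⟪e, x⟫ - (c + s))) (⟪-e, x⟫ + (c - s)) = max (g x) (|⟪e, x⟫ - c| - s)`. -/
theorem base_trunc {g : V → ℝ} {e : V} (he : ‖e‖ = 1) {a b c s : ℝ} (hs : 0 < s)
    (h1 : a < c - s) (h2 : c + s < b) (hg : Two g e a b ∅ ∅) :
    Hom g (fun x => max (g x) (|⟪e, x⟫ - c| - s)) := by
  have hR : RClass g e a ∅ := by
    refine ⟨hg.bdd, hg.good, fun p hp => absurd hp (Finset.notMem_empty p),
      fun p hp => absurd hp (Finset.notMem_empty p), fun x hx hax hP => hg.freeP x hx hax hP⟩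
  have hem : ∀ p ∈ (∅ : Finset V), ⟪e, p⟫ < c + s := fun p hp => absurd hp (Finset.notMem_empty p)
  have hH1 : Hom g (trunc g e (c + s)) := rtrunc_hom he hR (by linarith) hem
  have hC1 : RClass (trunc g e (c + s)) e a ∅ := rtrunc_class he hR (by linarith) hem
  have hR2 : RClass (trunc g e (c + s)) (-e) (-c) ∅ := by
    refine ⟨hC1.bdd, hC1.good, fun p hp => absurd hp (Finset.notMem_empty p),
      fun p hp => absurd hp (Finset.notMem_empty p), fun x hx hcx hP => ?_⟩
    have h3 : ⟪e, x⟫ ≤ c := by
      rw [inner_neg_left] at hcx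
      linarith
    obtain ⟨-, h4, h5⟩ := trunc_eq_low hg.good.cont (e := e) (show c < c + s by linarith) h3
    have h6 : g x = 0 := h4.1 hx
    exact (hg.freeQ x h6 (by linarith) hP).congr (h5 h6).symm
  have hH2 : Hom (trunc g e (c + s)) (trunc (trunc g e (c + s)) (-e) (-(c - s))) :=
    rtrunc_hom (by rw [norm_neg]; exact he) hR2 (by linarith)
      fun p hp => absurd hp (Finset.notMem_empty p)
  have hH := hH1.trans hH2
  have h7 : trunc (trunc g e (c + s)) (-e) (-(c - s)) =
      fun x => max (g x) (|⟪e, x⟫ - c| - s) := by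
    funext x
    unfold trunc
    rw [max_assoc, inner_neg_left]
    congr 1
    rcases le_total 0 (⟪e, x⟫ - c) with h8 | h8
    · rw [abs_of_nonneg h8, max_eq_left (by linarith)]
      ring
    · rw [abs_of_nonpos h8, max_eq_right (by linarith)]
      ring
  rwa [h7] at hH

end Pool.Schoen
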