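import Pool.Agent.H.MP_6c077c_gt.Ix.Class
import Pool.Agent.H.MP_6c077c_gt.IxB.Defs

/-! Guard theorem (helper7): definitions. -/

set_option autoImplicit false

namespace Pool.Schoen

open Filter Set
open scoped Topology RealInnerProductSpace ContDiff

variable {V : Type*} [NormedAddCommGroup V] [InnerProductSpace ℝ V]

/-- The relative class: like `Class`, but nothing is assumed at the zeros below the level `c`. -/
structure RClass (f : V → ℝ) (e : V) (c : ℝ) (P : Finset V) : Prop where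
  bdd : Bornology.IsBounded {x | f x ≤ 0}
  good : Good f
  inw : ∀ p ∈ P, Inw f e p
  high : ∀ p ∈ P, c < ⟪e, p⟫
  free : ∀ x, f x = 0 → c ≤ ⟪e, x⟫ → x ∉ P → FreeAt f e x

/-- Below the level `c` the body of `g` is a union of components of the body of `f` (germwise). -/
def PartLow (g f : V → ℝ) (e : V) (c : ℝ) : Prop :=
  ∀ x, ⟪e, x⟫ ≤ c → (g x ≤ 0 → f x ≤ 0) ∧ (g x = 0 → g =ᶠ[𝓝 x] f)

/-- The same between the levels `a` and `b`. -/
def PartMid (g f : V → ℝ) (e : V) (a b : ℝ) : Prop :=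
  ∀ x, a ≤ ⟪e, x⟫ → ⟪e, x⟫ ≤ b → (g x ≤ 0 → f x ≤ 0) ∧ (g x = 0 → g =ᶠ[𝓝 x] f)

/-- The two-sided class: above `b` there are finitely many inward points for `e`, all of index at
most one, below `a` finitely many inward points for `-e`, all of index at most one, and between `a`
and `b` there are horizontal descent directions. -/
structure Two (f : V → ℝ) (e : V) (a b : ℝ) (P Q : Finset V) : Prop where
  bdd : Bornology.IsBounded {x | f x ≤ 0}
  good : Good f
  inwP : ∀ p ∈ P, Inw f e p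
  inwQ : ∀ q ∈ Q, Inw f (-e) q
  highP : ∀ p ∈ P, b < ⟪e, p⟫
  lowQ : ∀ q ∈ Q, ⟪e, q⟫ < a
  freeP : ∀ x, f x = 0 → a ≤ ⟪e, x⟫ → x ∉ P → FreeAt f e x
  freeQ : ∀ x, f x = 0 → ⟪e, x⟫ ≤ b → x ∉ Q → FreeAt f (-e) x
  mid : ∀ x, f x = 0 → a ≤ ⟪e, x⟫ → ⟪e, x⟫ ≤ b → ∃ v, ⟪e, v⟫ = 0 ∧ Desc1 f x v

/-- The restriction to the hyperplane `⟪e, x⟫ = c` (for `‖e‖ = 1`). -/
def slc (f : V → ℝ) (e : V) (c : ℝ) (y : (ℝ ∙ e)ᗮ) : ℝ := f ((y : V) + c • e)

/-- The hypersurface `F = 0` has at least two negative principal curvatures at `x` (outer normal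
`∇F`): there is a two-dimensional space of tangent vectors on which the second derivative of `F` is
negative definite. -/
def TwoNeg (F : V → ℝ) (x : V) : Prop :=
  ∃ U : Submodule ℝ V, Module.finrank ℝ U = 2 ∧
    ∀ u ∈ U, u ≠ 0 → fderiv ℝ F x u = 0 ∧ fderiv ℝ (fderiv ℝ F) x u u < 0

variable [FiniteDimensional ℝ V]

/-- Visibility with a margin from a bounded part of an affine subspace of dimension at most `d`. -/
def MVis (F : V → ℝ) (d : ℕ) : Prop :=
  ∃ (o : V) (U : Submodule ℝ V) (R δ : ℝ), Module.finrank ℝ U ≤ d ∧ 0 < δ ∧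
    ∀ x, F x = 0 → TwoNeg F x → ∃ u ∈ U, ‖u‖ ≤ R ∧ δ ≤ ⟪x - (o + u), nrm F x⟫

/-- A smooth regular function with bounded connected body with the lifting property. -/
structure Dom (F : V → ℝ) : Prop where
  smooth : ContDiff ℝ ∞ F
  bdd : Bornology.IsBounded {x | F x ≤ 0}
  reg : ∀ x, F x = 0 → gradient F x ≠ 0
  conn : IsConnected {x | F x ≤ 0}
  lift : LiftS {x | F x ≤ 0}

end Pool.Schoen
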