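import Pool.Agent.H.MP_6c077c_gt.Gd.Facing
import Pool.Agent.H.MP_6c077c_gt.Gd.FaceCor
import Pool.Agent.H.MP_6c077c_gt.Al.Main

/-! Facing pairs: the theorem without hypotheses. -/

set_option autoImplicit false

namespace Pool.Schoen

open Filter Set Metric
open scoped Topology RealInnerProductSpace ContDiff

universe u

variable {V : Type u} [NormedAddCommGroup V] [InnerProductSpace ℝ V] [FiniteDimensional ℝ V]

theorem alexStmt_hyperplane (hdim : Module.finrank ℝ V = 4) (e : V) (he : ‖e‖ = 1) :
    AlexStmt (ℝ ∙ e)ᗮ := by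
  have he0 : e ≠ 0 := by
    intro h
    rw [h, norm_zero] at he
    exact zero_ne_one he
  have : Fact (Module.finrank ℝ V = 3 + 1) := ⟨hdim⟩
  exact fun F hD hc => alexander (Submodule.finrank_orthogonal_span_singleton he0) F hD hc

/-- **Facing pairs.** -/
theorem facing_main (hdim : Module.finrank ℝ V = 4) (F : V → ℝ) (hF : ContDiff ℝ ∞ F)
    (hb : Bornology.IsBounded {x | F x ≤ 0}) (hreg : ∀ x, F x = 0 → gradient F x ≠ 0)
    (hMc : IsConnected {x | F x = 0}) (hMl : LiftS {x | F x = 0}) (e : V) (he : ‖e‖ = 1)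
    (hNF : NoFacing F e) :
    Carries {x : V | F x = 0} (Metric.sphere (0 : V) 1) :=
  facing_carries hdim (alexStmt_hyperplane hdim) F hF hb hreg hMc hMl e he hNF

end Pool.Schoen
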