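import Pool.Agent.H.MP_6c077c_gt.Gd.Defs
import Pool.Agent.H.MP_6c077c_gt.IxB.Direction
import Pool.Agent.H.MP_6c077c_gt.IxB.T1

/-! Guard theorem: nondegenerate inward points without two negative curvatures. -/

set_option autoImplicit false

namespace Pool.Schoen

open scoped ContDiff RealInnerProductSpace

variable {V : Type*} [NormedAddCommGroup V] [InnerProductSpace ℝ V] [FiniteDimensional ℝ V]

/-- The first derivative at a point with gradient `g`. -/
private theorem Index_fderiv (F : V → ℝ) (x w : V) : fderiv ℝ F x w = ⟪gradient F x, w⟫ := by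
  rw [gradient, InnerProductSpace.toDual_symm_apply]

/-- PROOF. `Idx F e x k` from `idx_of_gaussK` (as at the end of `ix_direction_one`). If `2 ≤ k`, the
negative space `N` of the splitting contains a subspace of dimension two (`TwoNeg`; the first
derivative vanishes on vectors orthogonal to `e`). So `k ≤ 1`, `inw_of_idx`. -/
theorem inw_of_not_twoNeg (n : ℕ) (hn : Module.finrank ℝ V = n + 1) (F : V → ℝ)
    (hF : ContDiff ℝ ∞ F) (e : V) (he : ‖e‖ = 1) (x : V) (hx : Inward F e x)
    (hK : gaussK F x ≠ 0) (h : ¬ TwoNeg F x) : Inw F e x := by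
  have hI := idx_of_gaussK n hn F hF e he x hx hK
  obtain ⟨N, P, hS, hk⟩ := hI
  have hk1 : Module.finrank ℝ N ≤ 1 := by
    by_contra hcon
    push Not at hcon
    apply h
    obtain ⟨U, hUN, hU⟩ : ∃ U : Submodule ℝ V, U ≤ N ∧ Module.finrank ℝ U = 2 := by
      obtain ⟨s, hs, hsi⟩ := exists_finset_linearIndependent_of_le_finrank (R := ℝ) (M := N) hcon
      refine ⟨(Submodule.span ℝ (s : Set N)).map N.subtype, Submodule.map_subtype_le _ _, ?_⟩
      rw [Submodule.finrank_map_subtype_eq, finrank_span_finset_eq_card hsi, hs]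
    refine ⟨U, hU, fun u hu hu0 => ⟨?_, hS.neg u (hUN hu) hu0⟩⟩
    obtain ⟨-, l, hl, hg⟩ := hx
    rw [Index_fderiv, hg, inner_neg_left, real_inner_smul_left, real_inner_comm,
      hS.hN u (hUN hu), mul_zero, neg_zero]
  exact inw_of_idx F hF e x hx _ hk1 ⟨N, P, hS, rfl⟩

/-- In dimension two there are no points with two negative curvatures. -/
theorem not_twoNeg_plane (hn : Module.finrank ℝ V = 2) (F : V → ℝ) (x : V)
    (hx : gradient F x ≠ 0) : ¬ TwoNeg F x := by
  rintro ⟨U, hU, h⟩
  have hT : U = ⊤ := Submodule.eq_top_of_finrank_eq (by rw [hU, hn])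
  have h1 := (h (gradient F x) (by rw [hT]; trivial) hx).1
  rw [Index_fderiv, real_inner_self_eq_norm_sq] at h1
  exact hx (by simpa using h1)

end Pool.Schoen
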