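import Pool.Agent.H.MP_6c077c_gt.Gd.SliceGeo
import Pool.Agent.H.MP_6c077c_gt.Gd.Index
import Pool.Agent.H.MP_6c077c_gt.Gd.RegDir
import Pool.Agent.H.MP_6c077c_gt.IxB.Final

/-! Guard theorem: choice of the direction and of the level. -/

set_option autoImplicit false

namespace Pool.Schoen

open scoped ContDiff RealInnerProductSpace Topology
open Filter Set

variable {V : Type*} [NormedAddCommGroup V] [InnerProductSpace ℝ V] [FiniteDimensional ℝ V]

private theorem Level_nrm (F : V → ℝ) (e : V) (he : ‖e‖ = 1) (x : V) (h : Inward F e x) :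
    nrm F x = -e := by
  obtain ⟨-, l, hl, hg⟩ := h
  unfold nrm
  rw [hg, norm_neg, norm_smul, he, mul_one, Real.norm_eq_abs, abs_of_pos hl, smul_neg, smul_smul,
    inv_mul_cancel₀ hl.ne', one_smul]

private theorem Level_fd (F : V → ℝ) (x v : V) : fderiv ℝ F x v = ⟪gradient F x, v⟫ := by
  unfold gradient
  rw [InnerProductSpace.toDual_symm_apply]

/-- The inward points for a direction which is regular from both sides are finitely many
(`ix_finite`). -/
theorem level_finite (n : ℕ) (hn : Module.finrank ℝ V = n + 1) (F : V → ℝ) (hD : Dom F) (e : V)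
    (he : ‖e‖ = 1)
    (hK : ∀ x, F x = 0 → (nrm F x = e ∨ nrm F x = -e) → gaussK F x ≠ 0) :
    {x | Inward F e x}.Finite ∧ {x | Inward F (-e) x}.Finite := by
  have he' : ‖-e‖ = 1 := by rw [norm_neg, he]
  constructor
  · refine ix_finite F hD.smooth hD.bdd hD.reg e he fun x hx => ?_
    exact ⟨_, idx_of_gaussK n hn F hD.smooth e he x hx
      (hK x hx.1 (Or.inr (Level_nrm F e he x hx)))⟩
  · refine ix_finite F hD.smooth hD.bdd hD.reg (-e) he' fun x hx => ?_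
    refine ⟨_, idx_of_gaussK n hn F hD.smooth (-e) he' x hx (hK x hx.1 (Or.inl ?_))⟩
    rw [Level_nrm F (-e) he' x hx, neg_neg]

/-- PROOF. `P` = inward points for `e` above `b`, `Q` = inward points for `-e` below `a`
(`inw_of_not_twoNeg`, for `-e` the same lemma); `good_of_regular`; `free_of_not_inward` for `e`
and `-e`; between `a` and `b` the gradient `g` is not a multiple of `e`: `v = -(g - ⟪e, g⟫ • e)` is
horizontal with `fderiv F x v = -‖g - ⟪e, g⟫ • e‖ ^ 2 < 0`, `desc1_smooth`. -/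
theorem two_of_level (n : ℕ) (hn : Module.finrank ℝ V = n + 1) (F : V → ℝ) (hD : Dom F) (e : V)
    (he : ‖e‖ = 1) {a b : ℝ} (hab : a < b)
    (hK : ∀ x, F x = 0 → (nrm F x = e ∨ nrm F x = -e) → gaussK F x ≠ 0)
    (hno : ∀ x, F x = 0 → a ≤ ⟪e, x⟫ → ⟪e, x⟫ ≤ b → ∀ l : ℝ, gradient F x ≠ l • e)
    (hP : ∀ x, Inward F e x → b < ⟪e, x⟫ → ¬ TwoNeg F x)
    (hQ : ∀ x, Inward F (-e) x → ⟪e, x⟫ < a → ¬ TwoNeg F x) :
    ∃ P Q : Finset V, Two F e a b P Q := by
  classical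
  have he' : ‖-e‖ = 1 := by rw [norm_neg, he]
  obtain ⟨hf1, hf2⟩ := level_finite n hn F hD e he hK
  have hno1 : ∀ x, F x = 0 → a ≤ ⟪e, x⟫ → ⟪e, x⟫ ≤ b → ¬ Inward F e x := by
    rintro x hx h1 h2 ⟨-, l, -, hg⟩
    exact hno x hx h1 h2 (-l) (by rw [hg, neg_smul])
  have hno2 : ∀ x, F x = 0 → a ≤ ⟪e, x⟫ → ⟪e, x⟫ ≤ b → ¬ Inward F (-e) x := by
    rintro x hx h1 h2 ⟨-, l, -, hg⟩
    exact hno x hx h1 h2 l (by rw [hg, smul_neg, neg_neg])
  refine ⟨hf1.toFinset.filter fun x => b < ⟪e, x⟫, hf2.toFinset.filter fun x => ⟪e, x⟫ < a,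
    hD.bdd, ?_, ?_, ?_, ?_, ?_, ?_, ?_, ?_⟩
  · refine good_of_regular hD.smooth (hD.bdd.subset fun x hx => le_of_eq hx) fun x hx h0 => ?_
    apply hD.reg x hx
    rw [gradient, h0, map_zero]
  · intro p hp
    rw [Finset.mem_filter, Set.Finite.mem_toFinset] at hp
    obtain ⟨hp1, hp2⟩ := hp
    exact inw_of_not_twoNeg n hn F hD.smooth e he p hp1
      (hK p hp1.1 (Or.inr (Level_nrm F e he p hp1))) (hP p hp1 hp2)
  · intro p hp
    rw [Finset.mem_filter, Set.Finite.mem_toFinset] at hp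
    obtain ⟨hp1, hp2⟩ := hp
    refine inw_of_not_twoNeg n hn F hD.smooth (-e) he' p hp1
      (hK p hp1.1 (Or.inl ?_)) (hQ p hp1 hp2)
    rw [Level_nrm F (-e) he' p hp1, neg_neg]
  · intro p hp
    exact (Finset.mem_filter.1 hp).2
  · intro p hp
    exact (Finset.mem_filter.1 hp).2
  · intro x hx h1 h2
    refine free_of_not_inward F hD.smooth e he x hx (hD.reg x hx) fun hI => ?_
    by_cases h3 : ⟪e, x⟫ ≤ b
    · exact hno1 x hx h1 h3 hI
    · apply h2
      rw [Finset.mem_filter, Set.Finite.mem_toFinset]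
      exact ⟨hI, not_le.1 h3⟩
  · intro x hx h1 h2
    refine free_of_not_inward F hD.smooth (-e) he' x hx (hD.reg x hx) fun hI => ?_
    by_cases h3 : a ≤ ⟪e, x⟫
    · exact hno2 x hx h3 h1 hI
    · apply h2
      rw [Finset.mem_filter, Set.Finite.mem_toFinset]
      exact ⟨hI, not_le.1 h3⟩
  · intro x hx h1 h2
    have hee : ⟪e, e⟫ = 1 := by rw [real_inner_self_eq_norm_sq, he, one_pow]
    obtain ⟨g, hg⟩ : ∃ g, g = gradient F x := ⟨_, rfl⟩
    have hne : g - ⟪e, g⟫ • e ≠ 0 := by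
      intro h0
      exact hno x hx h1 h2 ⟪e, g⟫ (by rw [← hg]; exact sub_eq_zero.1 h0)
    have hor : ⟪e, g - ⟪e, g⟫ • e⟫ = 0 := by
      rw [inner_sub_right, real_inner_smul_right, hee, mul_one, sub_self]
    refine ⟨-(g - ⟪e, g⟫ • e), by rw [inner_neg_right, hor, neg_zero], ?_⟩
    refine desc1_smooth (hD.smooth.contDiffAt.of_le (by exact_mod_cast le_top)) ?_
    rw [Level_fd, ← hg, inner_neg_right]
    have h3 : ⟪g, g - ⟪e, g⟫ • e⟫ = ‖g - ⟪e, g⟫ • e‖ ^ 2 := by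
      rw [← real_inner_self_eq_norm_sq, inner_sub_left g (⟪e, g⟫ • e) (g - ⟪e, g⟫ • e),
        real_inner_smul_left, hor, mul_zero, sub_zero]
    rw [h3]
    have h4 : 0 < ‖g - ⟪e, g⟫ • e‖ := norm_pos_iff.2 hne
    have h5 : 0 < ‖g - ⟪e, g⟫ • e‖ ^ 2 := by positivity
    linarith

/-- PROOF. `MVis` gives `o`, `U`, `R`, `δ` (`0 ≤ R` may be assumed: replace `R` by `max R 0`). A unit
vector `e0` orthogonal to `U` (`finrank U ≤ d ≤ n < n + 1`), `e` from `exists_regular_both` with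
`‖e - e0‖ < δ / (8 (R + 1))`; so `|⟪e, o + u⟫ - ⟪e, o⟫| = |⟪e - e0, u⟫| ≤ δ / 8`. By `level_finite` a level
`c` with `|c - ⟪e, o⟫| ≤ δ / 8` different from the heights of all inward points of `e` and `-e`; then
`a < c < b` within `δ / 8` of `c` such that there are none in `[a, b]`. If `Inward F e x` and
`TwoNeg F x` then `nrm F x = -e` and `δ ≤ ⟪x - (o + u), -e⟫`, so `⟪e, x⟫ ≤ c + δ / 4 - δ < a`;
similarly for `-e`. `two_of_level`, `slc_mvis`. -/
theorem exists_two (n : ℕ) (hn : Module.finrank ℝ V = n + 1) (F : V → ℝ) (hD : Dom F) (d : ℕ)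
    (hd : d ≤ n) (hv : MVis F d) :
    ∃ (e : V) (a b c : ℝ) (P Q : Finset V), ‖e‖ = 1 ∧ a < c ∧ c < b ∧ Two F e a b P Q ∧
      (∀ x, F x = 0 → a ≤ ⟪e, x⟫ → ⟪e, x⟫ ≤ b → ∀ l : ℝ, gradient F x ≠ l • e) ∧
      MVis (slc F e c) d := by
  obtain ⟨o, U, R, δ, hU, hδ, hvis⟩ := hv
  -- a unit vector orthogonal to `U`
  obtain ⟨e0, he0U, he0⟩ : ∃ e0 ∈ Uᗮ, ‖e0‖ = 1 := by
    have h1 := Submodule.finrank_add_finrank_orthogonal U
    have h2 : 0 < Module.finrank ℝ Uᗮ := by omega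
    have h3 : Nontrivial Uᗮ := Module.finrank_pos_iff.1 h2
    obtain ⟨w, hw⟩ := exists_norm_eq (Uᗮ : Submodule ℝ V) (zero_le_one (α := ℝ))
    exact ⟨(w : V), w.2, by rw [← hw, Submodule.norm_coe]⟩
  obtain ⟨S, hS⟩ : ∃ S : ℝ, S = max R 0 := ⟨_, rfl⟩
  have hS0 : 0 ≤ S := by rw [hS]; exact le_max_right _ _
  have hRS : R ≤ S := by rw [hS]; exact le_max_left _ _
  have hd0 : 0 < δ / (8 * (S + 1)) := by positivity
  obtain ⟨e, he, hee0, hK⟩ := exists_regular_both n hn F hD.smooth hD.reg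
    (Final_compact hD.smooth.continuous hD.bdd) e0 he0 _ hd0
  have hu : ∀ u ∈ U, ‖u‖ ≤ R → |⟪e, u⟫| ≤ δ / 8 := by
    intro u hu1 hu2
    have h1 : ⟪e0, u⟫ = 0 := by
      rw [real_inner_comm]
      exact (Submodule.mem_orthogonal U e0).1 he0U u hu1
    have h2 : ⟪e, u⟫ = ⟪e - e0, u⟫ := by rw [inner_sub_left, h1, sub_zero]
    rw [h2]
    calc |⟪e - e0, u⟫| ≤ ‖e - e0‖ * ‖u‖ := abs_real_inner_le_norm _ _
      _ ≤ (δ / (8 * (S + 1))) * S := by gcongr; exact hu2.trans hRS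
      _ ≤ δ / 8 := by
        rw [div_mul_eq_mul_div, div_le_div_iff₀ (by positivity) (by norm_num)]
        nlinarith
  obtain ⟨hf1, hf2⟩ := level_finite n hn F hD e he hK
  -- the exceptional heights
  obtain ⟨H, hH⟩ : ∃ H : Set ℝ, H = (fun x : V => ⟪e, x⟫) '' {x | Inward F e x} ∪
      (fun x : V => ⟪e, x⟫) '' {x | Inward F (-e) x} := ⟨_, rfl⟩
  have hHf : H.Finite := by
    rw [hH]
    exact (hf1.image _).union (hf2.image _)
  have hH1 : ∀ x, F x = 0 → ∀ l : ℝ, gradient F x = l • e → ⟪e, x⟫ ∈ H := by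
    intro x hx l hl
    have hl0 : l ≠ 0 := by
      rintro rfl
      exact hD.reg x hx (by rw [hl, zero_smul])
    rw [hH]
    rcases lt_or_gt_of_ne hl0 with h | h
    · refine Or.inl ⟨x, ⟨hx, -l, by linarith, ?_⟩, rfl⟩
      rw [neg_smul, neg_neg, hl]
    · refine Or.inr ⟨x, ⟨hx, l, h, ?_⟩, rfl⟩
      rw [smul_neg, neg_neg, hl]
  obtain ⟨c, ⟨hc1, hc2⟩, hcH⟩ : ∃ c ∈ Ioo (⟪e, o⟫ - δ / 8) (⟪e, o⟫ + δ / 8), c ∉ H :=
    ((Ioo_infinite (by linarith)).sdiff hHf).nonempty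
  obtain ⟨ε, hε, hεH⟩ := Metric.isOpen_iff.1 hHf.isClosed.isOpen_compl c hcH
  obtain ⟨η, hη⟩ : ∃ η : ℝ, η = min ε (δ / 8) / 2 := ⟨_, rfl⟩
  have hη0 : 0 < η := by
    rw [hη]
    have := lt_min hε (by linarith : 0 < δ / 8)
    linarith
  have hηε : η < ε := by
    rw [hη]
    have h1 := lt_min hε (by linarith : 0 < δ / 8)
    have h2 := min_le_left ε (δ / 8)
    linarith
  have hηδ : η < δ / 8 := by
    rw [hη]
    have h1 := lt_min hε (by linarith : 0 < δ / 8)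
    have h2 := min_le_right ε (δ / 8)
    linarith
  have hno : ∀ x, F x = 0 → c - η ≤ ⟪e, x⟫ → ⟪e, x⟫ ≤ c + η →
      ∀ l : ℝ, gradient F x ≠ l • e := by
    intro x hx h1 h2 l hl
    have h3 : ⟪e, x⟫ ∈ Metric.ball c ε := by
      rw [Metric.mem_ball, Real.dist_eq, abs_lt]
      constructor <;> linarith
    exact hεH h3 (hH1 x hx l hl)
  have hP : ∀ x, Inward F e x → c + η < ⟪e, x⟫ → ¬ TwoNeg F x := by
    intro x hx hb ht
    obtain ⟨u, huU, huR, hle⟩ := hvis x hx.1 ht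
    have h1 := (abs_le.1 (hu u huU huR)).2
    rw [Level_nrm F e he x hx, inner_neg_right, inner_sub_left, inner_add_left,
      real_inner_comm, real_inner_comm e o, real_inner_comm e u] at hle
    linarith
  have he' : ‖-e‖ = 1 := by rw [norm_neg, he]
  have hQ : ∀ x, Inward F (-e) x → ⟪e, x⟫ < c - η → ¬ TwoNeg F x := by
    intro x hx hb ht
    obtain ⟨u, huU, huR, hle⟩ := hvis x hx.1 ht
    have h1 := (abs_le.1 (hu u huU huR)).1
    rw [Level_nrm F (-e) he' x hx, neg_neg, inner_sub_left, inner_add_left,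
      real_inner_comm, real_inner_comm e o, real_inner_comm e u] at hle
    linarith
  obtain ⟨P, Q, hPQ⟩ := two_of_level n hn F hD e he (a := c - η) (b := c + η) (by linarith) hK hno
    hP hQ
  refine ⟨e, c - η, c + η, c, P, Q, he, by linarith, by linarith, hPQ, hno, ?_⟩
  refine slc_mvis hD.smooth he hU hδ hvis ?_ ?_
  · intro u huU huR
    have h1 := abs_le.1 (hu u huU huR)
    rw [inner_add_right, abs_le]
    constructor <;> linarith [h1.1, h1.2]
  · intro x hx hxc l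
    exact hno x hx (by linarith) (by linarith) l

end Pool.Schoen
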