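import Pool.Agent.H.MP_6c077c_gt.Gd.Defs
import Pool.Agent.H.MP_6c077c_gt.Ix.HomB
import Pool.Agent.H.MP_6c077c_gt.Ix.TopC

/-! Guard theorem: a union of components of a smooth body has a smooth function. -/

set_option autoImplicit false

namespace Pool.Schoen

open Filter Set
open scoped Topology RealInnerProductSpace ContDiff

variable {V : Type*} [NormedAddCommGroup V] [InnerProductSpace ℝ V] [FiniteDimensional ℝ V]

/-- A union of components of a smooth body has a smooth function: with a cutoff `χ`, equal to one near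
the zeros of `g` and zero where `g` and `F` differ, put `G = χ F + (1 - χ) σ`, `σ` the sign of `g`. -/
theorem smooth_part (F : V → ℝ) (hF : ContDiff ℝ ∞ F) (g : V → ℝ) (hg : Good g)
    (hgb : Bornology.IsBounded {x | g x ≤ 0})
    (hp : ∀ x, (g x ≤ 0 → F x ≤ 0) ∧ (g x = 0 → g =ᶠ[𝓝 x] F)) :
    ∃ G : V → ℝ, ContDiff ℝ ∞ G ∧ Hom g G ∧ (∀ x, G x ≤ 0 ↔ g x ≤ 0) ∧
      ∀ x, G x = 0 → G =ᶠ[𝓝 x] F := by
  have _ := hgb
  have hZ : IsClosed {x | g x = 0} := isClosed_eq hg.cont continuous_const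
  have hsub : {x | g x = 0} ⊆ interior {x | g x = F x} := by
    intro x hx
    rw [mem_interior_iff_mem_nhds]
    exact (hp x).2 hx
  obtain ⟨χ, h1, h2, h3⟩ :=
    exists_contMDiffMap_one_nhds_of_subset_interior (modelWithCornersSelf ℝ V) (n := (⊤ : ℕ∞)) hZ hsub
  have hχ : ContDiff ℝ ∞ χ := χ.contMDiff.contDiff
  have hnear : ∀ x, g x = 0 → ∀ᶠ y in 𝓝 x, χ y = 1 := fun x hx =>
    h1.filter_mono (nhds_le_nhdsSet (show x ∈ {y | g y = 0} from hx))
  let G : V → ℝ := fun x => χ x * F x + (1 - χ x) * (if g x < 0 then -1 else 1)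
  have hGF : ∀ x, g x = 0 → G =ᶠ[𝓝 x] F := by
    intro x hx
    filter_upwards [hnear x hx] with y hy
    simp [G, hy]
  have hGs : ContDiff ℝ ∞ G := by
    rw [contDiff_iff_contDiffAt]
    intro x
    rcases lt_trichotomy (g x) 0 with h | h | h
    · have h4 : G =ᶠ[𝓝 x] fun y => χ y * F y + (1 - χ y) * (-1) := by
        filter_upwards [(isOpen_lt hg.cont continuous_const).mem_nhds h] with y hy
        have hy' : g y < 0 := hy
        simp only [G, if_pos hy']
      refine ContDiffAt.congr_of_eventuallyEq ?_ h4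
      exact ((hχ.mul hF).add ((contDiff_const.sub hχ).mul contDiff_const)).contDiffAt
    · exact hF.contDiffAt.congr_of_eventuallyEq (hGF x h)
    · have h4 : G =ᶠ[𝓝 x] fun y => χ y * F y + (1 - χ y) * 1 := by
        filter_upwards [(isOpen_lt continuous_const hg.cont).mem_nhds h] with y hy
        have hy' : ¬ g y < 0 := not_lt.2 (le_of_lt hy)
        simp only [G, if_neg hy']
      refine ContDiffAt.congr_of_eventuallyEq ?_ h4
      exact ((hχ.mul hF).add ((contDiff_const.sub hχ).mul contDiff_const)).contDiffAt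
  have hχF : ∀ x, χ x ≠ 0 → g x = F x := by
    intro x hx
    by_contra hne
    exact hx (h2 x hne)
  have hneg : ∀ x, g x < 0 → G x < 0 := by
    intro x hx
    have h4 := (h3 x).1
    have h5 := (h3 x).2
    simp only [G, if_pos hx]
    rcases eq_or_ne (χ x) 0 with h6 | h6
    · rw [h6]
      norm_num
    · have h7 := hχF x h6
      have h8 : 0 < χ x := lt_of_le_of_ne h4 (Ne.symm h6)
      rw [← h7]
      nlinarith [mul_neg_of_pos_of_neg h8 hx]
  have hpos : ∀ x, 0 < g x → 0 < G x := by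
    intro x hx
    have h4 := (h3 x).1
    have h5 := (h3 x).2
    simp only [G, if_neg (not_lt.2 hx.le)]
    rcases eq_or_ne (χ x) 0 with h6 | h6
    · rw [h6]
      norm_num
    · have h7 := hχF x h6
      have h8 : 0 < χ x := lt_of_le_of_ne h4 (Ne.symm h6)
      rw [← h7]
      nlinarith [mul_pos h8 hx]
  have hzero : ∀ x, g x = 0 → G x = 0 := by
    intro x hx
    rw [(hGF x hx).eq_of_nhds, ← ((hp x).2 hx).eq_of_nhds, hx]
  have hlt : ∀ x, g x < 0 ↔ G x < 0 := by
    intro x
    refine ⟨hneg x, fun h => ?_⟩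
    rcases lt_trichotomy (g x) 0 with h4 | h4 | h4
    · exact h4
    · exact absurd (hzero x h4) h.ne
    · exact absurd (hpos x h4) (not_lt.2 h.le)
  have hle : ∀ x, g x ≤ 0 ↔ G x ≤ 0 := by
    intro x
    constructor
    · intro h
      rcases lt_or_eq_of_le h with h4 | h4
      · exact (hneg x h4).le
      · exact (hzero x h4).le
    · intro h
      by_contra h4
      exact absurd (hpos x (not_le.1 h4)) (not_lt.2 h)
  refine ⟨G, hGs, ?_, fun x => (hle x).symm, ?_⟩
  · refine Hom.of_eq_near hg hGs.continuous hlt hle fun x hx => ?_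
    filter_upwards [hGF x hx, (hp x).2 hx] with y hy hy'
    rw [hy, hy']
  · intro x hx
    refine hGF x ?_
    rcases lt_trichotomy (g x) 0 with h4 | h4 | h4
    · exact absurd hx (hneg x h4).ne
    · exact h4
    · exact absurd hx (hpos x h4).ne'

omit [FiniteDimensional ℝ V] in
theorem TwoNeg.congr {F G : V → ℝ} {x : V} (h : G =ᶠ[𝓝 x] F) (hx : TwoNeg G x) : TwoNeg F x := by
  obtain ⟨U, hU, hU'⟩ := hx
  refine ⟨U, hU, fun u hu hu0 => ?_⟩
  have h1 := hU' u hu hu0
  rw [h.fderiv_eq, h.fderiv.fderiv_eq] at h1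
  exact h1

theorem MVis.congr {F G : V → ℝ} {d : ℕ} (h : ∀ x, G x = 0 → G =ᶠ[𝓝 x] F) (hv : MVis F d) :
    MVis G d := by
  obtain ⟨o, U, R, δ, hU, hδ, hx⟩ := hv
  refine ⟨o, U, R, δ, hU, hδ, fun x hGx hG2 => ?_⟩
  have h1 := h x hGx
  obtain ⟨u, hu, hu', hu''⟩ := hx x (by rw [← h1.eq_of_nhds, hGx]) (hG2.congr h1)
  refine ⟨u, hu, hu', ?_⟩
  have h2 : nrm G x = nrm F x := by
    have h3 : gradient G x = gradient F x := by
      unfold gradient
      rw [h1.fderiv_eq]
    simp only [nrm, h3]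
  rw [h2]
  exact hu''

end Pool.Schoen
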