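import Pool.Agent.H.MP_6c077c_gt.Gd.TwoSided
import Pool.Agent.H.MP_6c077c_gt.Gd.Base
import Pool.Agent.H.MP_6c077c_gt.Gd.Level
import Pool.Agent.H.MP_6c077c_gt.Gd.SmoothPart
import Pool.Agent.H.MP_6c077c_gt.Gd.Plane
import Pool.Agent.H.MP_6c077c_gt.Gd.Outer

/-! Guard theorem: the induction on the dimension. -/

set_option autoImplicit false

namespace Pool.Schoen

open Filter Set
open scoped Topology RealInnerProductSpace ContDiff

universe u

/-- Slices of parts. PROOF. `g` is a part of `F` between `a` and `b` without inward points. The slice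
`slc g e c` is `Good`, bounded (`slice_good`), connected and has the lifting property (`base_slice`),
and is a part of the smooth function `slc F e c`. `smooth_part` gives a smooth `G`, `Hom (slc g e c) G`,
which is `Dom` (`slc_reg`, the zeros of `G` are zeros of `slc F e c`), and `MVis G d` (`MVis.congr`). By
`hE` `IsBall G`, so `IsBall (slc g e c)`, and `base_ball`. -/
theorem part_ball {V : Type u} [NormedAddCommGroup V] [InnerProductSpace ℝ V]
    [FiniteDimensional ℝ V] (F : V → ℝ) (hD : Dom F) (d : ℕ) {e : V} (he : ‖e‖ = 1)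
    {a b c : ℝ} (h1 : a < c) (h2 : c < b)
    (hno : ∀ x, F x = 0 → a ≤ ⟪e, x⟫ → ⟪e, x⟫ ≤ b → ∀ l : ℝ, gradient F x ≠ l • e)
    (hv : MVis (slc F e c) d)
    (hE : ∀ G : (ℝ ∙ e)ᗮ → ℝ, Dom G → MVis G d →
      (∀ y, G y = 0 → G =ᶠ[𝓝 y] slc F e c) → (∀ y, G y ≤ 0 → slc F e c y ≤ 0) → IsBall G)
    (g : V → ℝ) (hg : Two g e a b ∅ ∅) (hconn : IsConnected {x | g x ≤ 0})
    (hlift : LiftS {x | g x ≤ 0}) (hp : PartMid g F e a b) : IsBall g := by
  obtain ⟨hsg, hsb⟩ := slice_good he h1 h2 hg
  obtain ⟨hsc, hsl⟩ := base_slice he h1 h2 hg hconn hlift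
  have hht : ∀ y : (ℝ ∙ e)ᗮ, ⟪e, (y : V) + c • e⟫ = c := by
    intro y
    rw [inner_add_right, inner_smul_right, real_inner_self_eq_norm_sq, he,
      Submodule.mem_orthogonal_singleton_iff_inner_right.1 y.2]
    norm_num
  have hpart : ∀ y : (ℝ ∙ e)ᗮ, (slc g e c y ≤ 0 → slc F e c y ≤ 0) ∧
      (slc g e c y = 0 → slc g e c =ᶠ[𝓝 y] slc F e c) := by
    intro y
    have hy := hp ((y : V) + c • e) (by rw [hht]; exact h1.le) (by rw [hht]; exact h2.le)
    refine ⟨hy.1, fun h0 => ?_⟩
    have hev := hy.2 h0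
    have hcont : ContinuousAt (fun z : (ℝ ∙ e)ᗮ => (z : V) + c • e) y :=
      (continuous_subtype_val.add continuous_const).continuousAt
    exact hcont.eventually hev
  obtain ⟨G, hG, hgG, hle, hzero⟩ := smooth_part (slc F e c) (slc_smooth hD.smooth e c)
    (slc g e c) hsg hsb hpart
  have hset : {y | G y ≤ 0} = {y | slc g e c y ≤ 0} := by
    ext y
    exact hle y
  have hGF : ∀ y, G y = 0 → slc F e c y = 0 := fun y hy => (hzero y hy).self_of_nhds ▸ hy
  have hDG : Dom G := by
    refine ⟨hG, ?_, ?_, ?_, ?_⟩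
    · rw [hset]
      exact hsb
    · intro y hy
      have h3 : gradient G y = gradient (slc F e c) y := by
        rw [gradient, gradient, (hzero y hy).fderiv_eq]
      rw [h3]
      exact slc_reg hD.smooth he (fun x hx hxc => hno x hx (by rw [hxc]; exact h1.le)
        (by rw [hxc]; exact h2.le)) y (hGF y hy)
    · rw [hset]
      exact hsc
    · rw [hset]
      exact hsl
  have hball : IsBall G := hE G hDG (MVis.congr hzero hv) hzero
    (fun y hy => (hpart y).1 ((hle y).1 hy))
  exact base_ball he h1 h2 hg (Hom.trans hgG hball)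

/-- PROOF. Induction on `m`. `m = 2`: `ball_plane`. Step: `exists_two` (`n = m - 1 ≥ 2 = d`), `two_sided`
with `part_ball` and the induction hypothesis for the hyperplane (`finrank = m - 1`). -/
theorem guard_ball : ∀ m : ℕ, 2 ≤ m → ∀ (V : Type u) [NormedAddCommGroup V]
    [InnerProductSpace ℝ V] [FiniteDimensional ℝ V], Module.finrank ℝ V = m →
    ∀ F : V → ℝ, Dom F → MVis F 2 → IsBall F := by
  intro m hm
  induction m, hm using Nat.le_induction with
  | base =>
    intro V _ _ _ hV F hD _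
    exact ball_plane hV F hD
  | succ m hm ih =>
    intro V _ _ _ hV F hD hv
    obtain ⟨e, a, b, c, P, Q, he, h1, h2, hTwo, hno, hsv⟩ := exists_two m hV F hD 2 hm hv
    have : Fact (Module.finrank ℝ V = m + 1) := ⟨hV⟩
    have he0 : e ≠ 0 := by
      intro h
      rw [h, norm_zero] at he
      exact zero_ne_one he
    refine two_sided he (h1.trans h2) hTwo hD.conn hD.lift ?_
    intro g hg hconn hlift hp
    exact part_ball F hD 2 he h1 h2 hno hsv
      (fun G hG hGv _ _ => ih _ (Submodule.finrank_orthogonal_span_singleton he0) G hG hGv)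
      g hg hconn hlift hp

/-- Guard theorem. PROOF. `domain_top`, `outer`, `Dom G` by `Hom.isConnected`, `Hom.liftS`;
`guard_ball`; `Hom.trans`; `carries_of_isBall`. -/
theorem guard_carries {V : Type u} [NormedAddCommGroup V] [InnerProductSpace ℝ V]
    [FiniteDimensional ℝ V] (hdim : 3 ≤ Module.finrank ℝ V) (F : V → ℝ) (hF : ContDiff ℝ ∞ F)
    (hb : Bornology.IsBounded {x | F x ≤ 0}) (hreg : ∀ x, F x = 0 → gradient F x ≠ 0)
    (hMc : IsConnected {x | F x = 0}) (hMl : LiftS {x | F x = 0}) (Q : Set V)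
    (hQb : Bornology.IsBounded Q) (hQ : Module.finrank ℝ (vectorSpan ℝ Q) ≤ 2)
    (hvis : ∀ x, F x = 0 → TwoNeg F x → ∃ q ∈ Q, 0 ≤ ⟪gradient F x, x - q⟫) :
    Carries {x : V | F x = 0} (Metric.sphere (0 : V) 1) := by
  obtain ⟨hc, hl⟩ := domain_top hdim F hF.continuous hb hMc hMl
  obtain ⟨G, hG, hFG, hGb, hGreg, hGv⟩ := outer 2 F hF hb hreg Q hQb hQ hvis
  have hD : Dom G := ⟨hG, hGb, hGreg, hFG.isConnected hb hc, hFG.liftS hb hl⟩
  exact carries_of_isBall F hF (Hom.trans hFG (guard_ball _ (by omega) V rfl G hD hGv))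

end Pool.Schoen
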