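import Pool.Agent.H.MP_6c077c_gt.Gd.RTrunc
import Pool.Agent.H.MP_6c077c_gt.Ix.Cap

/-! Guard theorem: if the highest inward point has index zero, the body is a cap (copy of
`Ix/Cap.lean`). -/

set_option autoImplicit false

namespace Pool.Schoen

open Filter Set
open scoped Topology RealInnerProductSpace ContDiff

variable {V : Type*} [NormedAddCommGroup V] [InnerProductSpace ℝ V] [FiniteDimensional ℝ V]

/-- PROOF. Let `ε` be as in `cap_small`, `s = ⟪e, p⟫ + ε`, so `P` is below `s`; `fs = trunc f e s`,
`Hom f fs` (`trunc_hom`), and `{fs ≤ 0}` is connected (`Hom.isConnected`). It is the union of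
`{fs ≤ 0} ∩ closedBall p (r/2)` (contains `p`) and `{fs ≤ 0} \ ball p r` (by `cap_small` and `hf` of `Mod0`
there are no points between), so it is the first set. The convex function
`G x = max (mdl0 B μ e p x) (⟪e, x⟫ - s)` has `{G ≤ 0} ⊆ ball p (r/2)` and agrees with `fs` on `ball p r`;
outside of `closedBall p (r/2)` both are positive. `Hom fs G` by `Hom.of_eq_near'`, and `IsBall G` by
`isBall_convex` with `o = p + (ε/2) • e`. -/
theorem rcap {f : V → ℝ} {e p : V} {c : ℝ} {P : Finset V} (hf : RClass f e c P) (hp : p ∈ P)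
    (htop : ∀ p' ∈ P, ⟪e, p'⟫ ≤ ⟪e, p⟫) {B : V →L[ℝ] V →L[ℝ] ℝ} {μ r : ℝ}
    (hm : Mod0 f e p B μ r) (hconn : IsConnected {x | f x ≤ 0}) : IsBall f := by
  have he := hm.he
  obtain ⟨ε, hε, hsmall⟩ := cap_small (p := p) he hm.hμ hm.hr hm.hB
  have hr := hm.hr
  obtain ⟨s, hs⟩ : ∃ s : ℝ, s = ⟪e, p⟫ + ε := ⟨_, rfl⟩
  have hPs : ∀ p' ∈ P, ⟪e, p'⟫ < s := fun p' hp' => by
    have := htop p' hp'
    linarith
  have hcs : c < s := by
    have := hf.high p hp
    linarith
  have hcl := rtrunc_class he hf hcs hPs
  have hhom := rtrunc_hom he hf hcs hPs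
  have hconn' := hhom.isConnected hf.bdd hconn
  have hlev : ∀ x : V, ⟪e, x⟫ - s ≤ 0 ↔ ⟪e, x - p⟫ ≤ ε := by
    intro x
    rw [inner_sub_right, hs]
    constructor <;> intro h <;> linarith
  have hin : ∀ x, trunc f e s x ≤ 0 → ‖x - p‖ < r → ‖x - p‖ < r / 2 := by
    intro x hx hxr
    have h1 : f x ≤ 0 := (le_max_left _ _).trans hx
    have h2 : ⟪e, x⟫ - s ≤ 0 := (le_max_right _ _).trans hx
    rw [hm.hf x hxr] at h1
    exact hsmall x h1 ((hlev x).1 h2)
  have hball : {x | trunc f e s x ≤ 0} ⊆ Metric.ball p (r / 2) := by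
    refine hconn'.isPreconnected.subset_left_of_subset_union Metric.isOpen_ball
      (v := (Metric.closedBall p (r / 2))ᶜ) Metric.isClosed_closedBall.isOpen_compl ?_ ?_ ?_
    · rw [Set.disjoint_compl_right_iff_subset]
      exact Metric.ball_subset_closedBall
    · intro x hx
      by_cases hxr : ‖x - p‖ < r
      · left
        rw [Metric.mem_ball, dist_eq_norm]
        exact hin x hx hxr
      · right
        rw [mem_compl_iff, Metric.mem_closedBall, dist_eq_norm, not_le]
        linarith
    · refine ⟨p, ?_, Metric.mem_ball_self (by linarith)⟩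
      have h1 : max (f p) (⟪e, p⟫ - s) ≤ 0 := by
        apply max_le
        · rw [(hf.inw p hp).zero]
        · linarith
      exact h1
  have hGc : Continuous fun x => max (mdl0 B μ e p x) (⟪e, x⟫ - s) :=
    (mdl0_contDiff B μ e p).continuous.max (by fun_prop)
  have hGin : ∀ x, max (mdl0 B μ e p x) (⟪e, x⟫ - s) ≤ 0 → ‖x - p‖ < r / 2 := by
    intro x hx
    exact hsmall x ((le_max_left _ _).trans hx) ((hlev x).1 ((le_max_right _ _).trans hx))
  have hfG : ∀ x, ‖x - p‖ < r →
      trunc f e s x = max (mdl0 B μ e p x) (⟪e, x⟫ - s) := by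
    intro x hx
    unfold trunc
    rw [hm.hf x hx]
  have hhG : Hom (trunc f e s) fun x => max (mdl0 B μ e p x) (⟪e, x⟫ - s) := by
    refine Hom.of_eq_near' hcl.good hGc ?_ ?_
    · intro x hx
      have h1 : ‖x - p‖ < r := by
        rcases hx with hx | hx
        · have h2 := hball (show x ∈ {x | trunc f e s x ≤ 0} from hx.le)
          rw [Metric.mem_ball, dist_eq_norm] at h2
          linarith
        · have h2 := hGin x hx.le
          linarith
      have h2 : Continuous fun y : V => ‖y - p‖ := by fun_prop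
      filter_upwards [h2.continuousAt.eventually_lt_const h1] with y hy
      exact hfG y hy
    · intro x h1 h2
      by_cases hxr : ‖x - p‖ < r
      · rw [← hfG x hxr]
        exact mul_self_pos.2 h1
      · refine mul_pos ?_ ?_
        · by_contra h3
          have h4 := hball (show x ∈ {x | trunc f e s x ≤ 0} from not_lt.1 h3)
          rw [Metric.mem_ball, dist_eq_norm] at h4
          linarith
        · by_contra h3
          have h4 := hGin x (not_lt.1 h3)
          linarith
  refine (hhom.trans hhG).trans ?_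
  have hcv : ConvexOn ℝ univ (mdl0 B μ e p) := by
    refine mdl0_convex he fun w hw => ?_
    by_cases hw0 : w = 0
    · rw [hw0]
      simp
    · exact (hm.hB w hw hw0).le
  have hcv2 : ConvexOn ℝ univ fun x : V => ⟪e, x⟫ - s := by
    refine ⟨convex_univ, fun x _ y _ a b _ _ hab => ?_⟩
    simp only [inner_add_right, inner_smul_right, smul_eq_mul]
    have h1 : s = a * s + b * s := by rw [← add_mul, hab, one_mul]
    nth_rw 1 [h1]
    apply le_of_eq
    ring
  refine isBall_convex (o := p + (ε / 2) • e) (hcv.sup hcv2) hGc ?_ ?_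
  · have e1 : p + (ε / 2) • e - p = (ε / 2) • e := by abel
    have e2 : ⟪e, (ε / 2) • e⟫ = ε / 2 := by
      rw [inner_smul_right, real_inner_self_eq_norm_sq, he]
      ring
    have e3 : orth e ((ε / 2) • e) = 0 := by
      unfold orth
      rw [e2]
      simp
    apply max_lt
    · rw [mdl0, e1, e2, e3]
      have := mul_pos hm.hμ hε
      simp only [map_zero, zero_div, add_zero]
      linarith
    · rw [inner_add_right, e2, hs]
      linarith
  · refine (Metric.isBounded_ball (x := p) (r := r / 2)).subset ?_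
    intro x hx
    rw [Metric.mem_ball, dist_eq_norm]
    exact hGin x hx

end Pool.Schoen
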