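import Pool.Agent.H.MP_6c077c_gt.Gd.RCutA

/-! Guard theorem: the cut body belongs to the relative class, with one inward point less. -/

set_option autoImplicit false

namespace Pool.Schoen

open Filter Set
open scoped Topology RealInnerProductSpace ContDiff

variable {V : Type*} [NormedAddCommGroup V] [InnerProductSpace ℝ V]
variable {f : V → ℝ} {k : ℝ} {P : Finset V} {e u p : V} {B : V →L[ℝ] V →L[ℝ] ℝ} {μ a r η ε : ℝ}

/-- The direction at the walls: `v = (a y₁) u - w - δ e` with `0 < δ`, `μ δ < a ^ 2 η ^ 2`; `y₁ = ⟪u, x - p⟫`,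
`w = wc e u (x - p)`. PROOF. `mdl1' v = μ δ - a ^ 2 y₁ ^ 2 - B w w < 0` (`mdl1_fderiv`, `comp_of`),
`⟪e, v⟫ = -δ`, `⟪u, v⟫ = a y₁`. -/
theorem RSlab.wall_dir (h : RSlab f k P e u p B μ a r η ε) {x : V} (hx : |⟪u, x - p⟫| = η) :
    ∃ v : V, fderiv ℝ (mdl1 B μ a e u p) x v < 0 ∧ ⟪e, v⟫ < 0 ∧ 0 < ⟪u, x - p⟫ * ⟪u, v⟫ := by
  have he := h.mod.he
  have hu := h.mod.hu
  have heu := h.mod.heu
  have hμ := h.mod.hμ
  have ha := h.mod.ha
  have hη := h.hη
  obtain ⟨hw1, hw2⟩ := inner_wc he hu heu (x - p)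
  obtain ⟨w, hw⟩ : ∃ w, w = wc e u (x - p) := ⟨_, rfl⟩
  rw [← hw] at hw1 hw2
  have hwn1 : ⟪e, -w⟫ = 0 := by rw [inner_neg_right, hw1, neg_zero]
  have hwn2 : ⟪u, -w⟫ = 0 := by rw [inner_neg_right, hw2, neg_zero]
  obtain ⟨δ, hδ⟩ : ∃ δ, δ = a ^ 2 * η ^ 2 / (2 * μ) := ⟨_, rfl⟩
  have hδ0 : 0 < δ := by rw [hδ]; positivity
  have hδ1 : μ * δ = a ^ 2 * η ^ 2 / 2 := by
    rw [hδ]
    field_simp
  have hy : ⟪u, x - p⟫ ^ 2 = η ^ 2 := by rw [← hx, sq_abs]
  obtain ⟨c1, c2, c3⟩ := comp_of he hu heu hwn1 hwn2 (-δ) (a * ⟪u, x - p⟫)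
  refine ⟨(-δ) • e + (a * ⟪u, x - p⟫) • u + -w, ?_, ?_, ?_⟩
  · rw [mdl1_fderiv, c1, c2, c3, ← hw]
    have hBw : 0 ≤ B w w := by
      by_cases hw0 : w = 0
      · rw [hw0]
        simp
      · exact (h.mod.hB w hw1 hw2 hw0).le
    have e2 : B w (-w) = -(B w w) := map_neg _ _
    have e3 : B (-w) w = -(B w w) := by rw [map_neg]; rfl
    rw [e2, e3]
    have h3 : a * ⟪u, x - p⟫ * (a * ⟪u, x - p⟫) = a ^ 2 * η ^ 2 := by
      rw [← hy]
      ring
    rw [h3]
    have h4 : 0 < a ^ 2 * η ^ 2 := by positivity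
    linarith
  · rw [c1]
    linarith
  · rw [c2]
    have h3 : ⟪u, x - p⟫ * (a * ⟪u, x - p⟫) = a * η ^ 2 := by
      rw [← hy]
      ring
    rw [h3]
    positivity

theorem RCutB_fs_cont (h : RSlab f k P e u p B μ a r η ε) : Continuous (fs f e p ε) :=
  h.fs_class.good.cont

theorem RCutB_near (h : RSlab f k P e u p B μ a r η ε) {x : V}
    (hx : lam u p η r x < fs f e p ε x) : ∀ᶠ y in 𝓝 x, fs f e p ε y = fcut f e u p η ε r y := by
  have h1 := (lam_continuous u p η r).continuousAt.eventually_lt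
    (RCutB_fs_cont h).continuousAt hx
  filter_upwards [h1] with y hy
  unfold fcut
  rw [max_eq_left hy.le]

theorem RCutB_inw (h : RSlab f k P e u p B μ a r η ε) {p' : V} (hp' : p' ∈ P) (hne : p' ≠ p) :
    Inw (fcut f e u p η ε r) e p' := by
  have h1 := h.fs_class.inw p' hp'
  apply h1.congr
  apply RCutB_near h
  rw [h1.zero]
  have h2 := h.sep p' hp' hne
  have h3 := h.mod.hr
  unfold lam
  have h4 := min_le_right (η - |⟪u, p' - p⟫|) (3 * r / 4 - ‖p' - p‖)
  linarith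

theorem RCutB_free [DecidableEq V] (h : RSlab f k P e u p B μ a r η ε) {x : V}
    (hx : fcut f e u p η ε r x = 0) (hk : k ≤ ⟪e, x⟫) (hP : x ∉ P.erase p) :
    FreeAt (fcut f e u p η ε r) e x := by
  have hη := h.hη
  have hr := h.mod.hr
  have h0 : max (fs f e p ε x) (lam u p η r x) = 0 := hx
  have hxp : x ≠ p := by
    intro hxp
    have h1 : lam u p η r x = min η (3 * r / 4) := by
      unfold lam
      rw [hxp, sub_self, inner_zero_right, abs_zero, norm_zero, sub_zero, sub_zero]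
    have h2 : 0 < lam u p η r x := by
      rw [h1]
      exact lt_min hη (by linarith)
    have h3 := le_max_right (fs f e p ε x) (lam u p η r x)
    linarith
  have hxP : x ∉ P := fun hh => hP (Finset.mem_erase.2 ⟨hxp, hh⟩)
  have h3 : lam u p η r x ≤ 0 := h0 ▸ le_max_right _ _
  have h4 : fs f e p ε x ≤ 0 := h0 ▸ le_max_left _ _
  rcases lt_or_eq_of_le h3 with h5 | h5
  · have h6 : fs f e p ε x = 0 := by
      rcases max_choice (fs f e p ε x) (lam u p η r x) with h7 | h7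
      · rw [← h7, h0]
      · rw [h0] at h7
        linarith
    have h7 := h.fs_class.free x h6 hk hxP
    apply h7.congr
    exact RCutB_near h (by rw [h6]; exact h5)
  · obtain ⟨h6, h7⟩ := h.near h4 h5.ge
    have h8 := (h.lam_near h6).self_of_nhds
    rw [h5] at h8
    have h9 : |⟪u, x - p⟫| = η := by linarith
    obtain ⟨v, hv1, hv2, hv3⟩ := h.wall_dir h9
    have d1 : DZ1 (fs f e p ε) x v := h.fs_dz1 (by linarith) (fun _ => hv1) (fun _ => hv2)
    have d2 : DZ1 (lam u p η r) x v := fun _ => h.lam_desc h6 hv3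
    exact ⟨v, dz1_max (RCutB_fs_cont h) (lam_continuous u p η r) d1 d2 hx, hv2⟩

/-- At a zero of height at most `k` nothing changes. -/
theorem RCutB_low (h : RSlab f k P e u p B μ a r η ε) {x : V}
    (hx : fcut f e u p η ε r x = 0) (hk : ⟪e, x⟫ ≤ k) :
    fs f e p ε x = 0 ∧ fs f e p ε =ᶠ[𝓝 x] fcut f e u p η ε r := by
  have h0 : max (fs f e p ε x) (lam u p η r x) = 0 := hx
  have h1 := real_inner_le_norm e (p - x)
  rw [h.mod.he, one_mul, inner_sub_right, norm_sub_rev] at h1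
  have h2 := h.low
  have h3 := h.mod.hr
  have h4 : lam u p η r x < 0 := by
    unfold lam
    refine lt_of_le_of_lt (min_le_right _ _) ?_
    linarith
  have h5 : fs f e p ε x = 0 := by
    rcases max_choice (fs f e p ε x) (lam u p η r x) with h7 | h7
    · rw [← h7, h0]
    · rw [h0] at h7
      linarith
  exact ⟨h5, RCutB_near h (by rw [h5]; exact h4)⟩

/-- As `Slab.cut_class`. -/
theorem RSlab.cut_class [DecidableEq V] (h : RSlab f k P e u p B μ a r η ε) :
    RClass (fcut f e u p η ε r) e k (P.erase p) := by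
  have hinw : ∀ p' ∈ P.erase p, Inw (fcut f e u p η ε r) e p' := by
    intro p' hp'
    rw [Finset.mem_erase] at hp'
    exact RCutB_inw h hp'.2 hp'.1
  have hb : Bornology.IsBounded {x | fcut f e u p η ε r x ≤ 0} := by
    apply h.fs_class.bdd.subset
    intro x hx
    exact (le_max_left (fs f e p ε x) (lam u p η r x)).trans hx
  refine ⟨hb, ⟨?_, ?_, ?_⟩, hinw, ?_, fun x hx hk hP => RCutB_free h hx hk hP⟩
  · exact (RCutB_fs_cont h).max (lam_continuous u p η r)
  · apply hb.subset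
    intro x hx
    exact le_of_eq hx
  · intro x hx
    by_cases hP : x ∈ P.erase p
    · exact ⟨e, (hinw x hP).desc h.mod.he⟩
    · rcases le_total k ⟪e, x⟫ with hk | hk
      · obtain ⟨v, hv, _⟩ := RCutB_free h hx hk hP
        exact ⟨v, hv⟩
      · obtain ⟨h1, h2⟩ := RCutB_low h hx hk
        obtain ⟨v, hv⟩ := h.fs_class.good.desc x h1
        exact ⟨v, hv.congr h2⟩
  · intro p' hp'
    exact h.cls.high p' (Finset.mem_of_mem_erase hp')

end Pool.Schoen
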