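import Pool.Agent.H.MP_6c077c_gt.Gd.Defs
import Pool.Agent.H.MP_6c077c_gt.Ix.Trunc

/-! Guard theorem: truncation and parts in the relative class (copy of `Ix/Trunc.lean`). -/

set_option autoImplicit false

namespace Pool.Schoen

open Filter Set
open scoped Topology RealInnerProductSpace ContDiff

variable {V : Type*} [NormedAddCommGroup V] [InnerProductSpace ℝ V]

private theorem RTrunc_aff {e x v : V} (he : ‖e‖ = 1) (s : ℝ) (hv : ⟪e, v⟫ < 0) :
    Desc1 (fun y => ⟪e, y⟫ - s) x v := by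
  have h := desc1_affine (x := x) e (s • e) hv
  have h2 : (fun y : V => ⟪e, y - s • e⟫) = fun y => ⟪e, y⟫ - s := by
    funext y
    rw [inner_sub_right, real_inner_smul_right, real_inner_self_eq_norm_sq, he]
    ring
  rwa [h2] at h

private theorem RTrunc_cont (e : V) (s : ℝ) : Continuous fun y : V => ⟪e, y⟫ - s :=
  (continuous_const.inner continuous_id).sub continuous_const

private theorem RTrunc_near {f : V → ℝ} (hf : Continuous f) {e x : V} {s : ℝ} (hx : f x = 0)
    (h : ⟪e, x⟫ < s) : f =ᶠ[𝓝 x] trunc f e s := by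
  have h1 : ⟪e, x⟫ - s < f x := by linarith
  filter_upwards [(RTrunc_cont e s).continuousAt.eventually_lt hf.continuousAt h1] with y hy
  unfold trunc
  exact (max_eq_left hy.le).symm

private theorem RTrunc_free {f : V → ℝ} (hf : Continuous f) {e x : V} {s : ℝ} (he : ‖e‖ = 1)
    (hx : trunc f e s x = 0) (h : f x = 0 → FreeAt f e x) : FreeAt (trunc f e s) e x := by
  by_cases h0 : f x = 0
  · obtain ⟨v, hv, hv'⟩ := h h0
    exact ⟨v, desc1_max hv (RTrunc_aff he s hv'), hv'⟩
  · have h1 : f x ≤ 0 := by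
      rw [← hx]
      exact le_max_left _ _
    have h2 : f x < 0 := lt_of_le_of_ne h1 h0
    have h3 : ⟪e, x⟫ - s = 0 := by
      unfold trunc at hx
      rcases max_choice (f x) (⟪e, x⟫ - s) with h4 | h4
      · rw [h4] at hx
        exact absurd hx h0
      · rw [h4] at hx
        exact hx
    have h5 : ⟪e, -e⟫ < 0 := by
      rw [inner_neg_right, real_inner_self_eq_norm_sq, he]
      norm_num
    refine ⟨-e, ?_, h5⟩
    exact desc1_max_right hf.continuousAt (RTrunc_cont e s).continuousAt (RTrunc_aff he s h5)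
      (by rw [h3]; exact h2)

/-- Below the level of truncation the zeros are the zeros of `f`. -/
private theorem RTrunc_zero {f : V → ℝ} {e x : V} {s : ℝ} (h : ⟪e, x⟫ < s) :
    trunc f e s x = 0 ↔ f x = 0 := by
  unfold trunc
  constructor
  · intro hx
    rcases max_choice (f x) (⟪e, x⟫ - s) with h5 | h5
    · rw [h5] at hx
      exact hx
    · rw [h5] at hx
      linarith
  · intro hx
    rw [hx]
    exact max_eq_left (by linarith)

theorem rtrunc_class {f : V → ℝ} {e : V} (he : ‖e‖ = 1) {c : ℝ} {P : Finset V}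
    (hf : RClass f e c P) {s : ℝ} (hcs : c < s) (hs : ∀ p ∈ P, ⟪e, p⟫ < s) :
    RClass (trunc f e s) e c P := by
  have hinw : ∀ p ∈ P, Inw (trunc f e s) e p := fun p hp =>
    (hf.inw p hp).congr (RTrunc_near hf.good.cont (hf.inw p hp).zero (hs p hp))
  have hfree : ∀ x, trunc f e s x = 0 → c ≤ ⟪e, x⟫ → x ∉ P → FreeAt (trunc f e s) e x :=
    fun x hx hxc hP => RTrunc_free hf.good.cont he hx fun h0 => hf.free x h0 hxc hP
  refine ⟨?_, ⟨?_, ?_, ?_⟩, hinw, hf.high, hfree⟩
  · refine hf.bdd.subset fun x hx => ?_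
    have h1 : max (f x) (⟪e, x⟫ - s) ≤ 0 := hx
    exact (le_max_left _ _).trans h1
  · exact hf.good.cont.max (RTrunc_cont e s)
  · exact hf.bdd.subset fun x hx => (le_max_left (f x) (⟪e, x⟫ - s)).trans (le_of_eq hx)
  · intro x hx
    by_cases hP : x ∈ P
    · exact ⟨e, (hinw x hP).desc he⟩
    · rcases le_or_gt c ⟪e, x⟫ with hc | hc
      · obtain ⟨v, hv, -⟩ := hfree x hx hc hP
        exact ⟨v, hv⟩
      · have h1 : ⟪e, x⟫ < s := hc.trans hcs
        have h2 : f x = 0 := (RTrunc_zero h1).1 hx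
        obtain ⟨v, hv⟩ := hf.good.desc x h2
        exact ⟨v, hv.congr (RTrunc_near hf.good.cont h2 h1)⟩

private theorem RTrunc_fam {f : V → ℝ} {e : V} (he : ‖e‖ = 1) {c : ℝ} {P : Finset V}
    (hf : RClass f e c P) {s S : ℝ} (hcs : c < s) (hs : ∀ p ∈ P, ⟪e, p⟫ < s) {t : ℝ}
    (hst : s ≤ t) {x : V} (hx : trunc f e t x = 0) :
    ∃ v, Desc (fun σ => trunc f e σ) (𝓝[Icc s S] t) x v := by
  have hK : ∀ v, ⟪e, v⟫ < 0 →
      Desc (fun (σ : ℝ) (y : V) => ⟪e, y⟫ - σ) (𝓝[Icc s S] t) x v := by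
    intro v hv
    have h := desc_add_const ((RTrunc_aff (x := x) he 0 hv).const (𝓝[Icc s S] t)) (fun σ => -σ)
    refine h.congr (Eventually.of_forall fun p => ?_)
    ring
  -- near a zero of `f` of height less than `s` the family is constant
  have hlow : f x = 0 → ⟪e, x⟫ < s → ∀ v, Desc1 f x v →
      Desc (fun σ => trunc f e σ) (𝓝[Icc s S] t) x v := by
    intro h0 hlt v hv
    refine desc_max_left (H := fun _ => f) (K := fun σ y => ⟪e, y⟫ - σ) (hv.const _) ?_
    have h2 : ∀ᶠ y in 𝓝 x, ⟪e, y⟫ - s < f y :=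
      (RTrunc_cont e s).continuousAt.eventually_lt hf.good.cont.continuousAt
        (by rw [h0]; linarith)
    have h3 : ∀ᶠ σ in 𝓝[Icc s S] t, σ ∈ Icc s S := self_mem_nhdsWithin
    filter_upwards [h3.prod_mk h2] with p hp
    linarith [hp.1.1, hp.2]
  by_cases h0 : f x = 0
  · by_cases hP : x ∈ P
    · exact ⟨e, hlow h0 (hs x hP) e ((hf.inw x hP).desc he)⟩
    · rcases le_or_gt c ⟪e, x⟫ with hc | hc
      · obtain ⟨v, hv, hv'⟩ := hf.free x h0 hc hP
        exact ⟨v, desc_max (hv.const _) (hK v hv')⟩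
      · obtain ⟨v, hv⟩ := hf.good.desc x h0
        exact ⟨v, hlow h0 (hc.trans hcs) v hv⟩
  · have h1 : f x ≤ 0 := by
      rw [← hx]
      exact le_max_left _ _
    have h2 : f x < 0 := lt_of_le_of_ne h1 h0
    have h3 : ⟪e, x⟫ - t = 0 := by
      unfold trunc at hx
      rcases max_choice (f x) (⟪e, x⟫ - t) with h4 | h4
      · rw [h4] at hx
        exact absurd hx h0
      · rw [h4] at hx
        exact hx
    have h5 : ⟪e, -e⟫ < 0 := by
      rw [inner_neg_right, real_inner_self_eq_norm_sq, he]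
      norm_num
    refine ⟨-e, desc_max_right (H := fun _ => f) (K := fun σ y => ⟪e, y⟫ - σ) (hK _ h5) ?_⟩
    have hc : Continuous fun p : ℝ × V => ⟪e, p.2⟫ - p.1 :=
      (continuous_const.inner continuous_snd).sub continuous_fst
    have hc2 : Continuous fun p : ℝ × V => f p.2 := hf.good.cont.comp continuous_snd
    have h6 : ∀ᶠ p in 𝓝 (t, x), f p.2 < ⟪e, p.2⟫ - p.1 :=
      hc2.continuousAt.eventually_lt hc.continuousAt (by
        show f x < ⟪e, x⟫ - t
        rw [h3]
        exact h2)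
    rw [nhds_prod_eq] at h6
    exact (h6.filter_mono (Filter.prod_mono nhdsWithin_le_nhds le_rfl)).mono fun p hp => hp.le

theorem rtrunc_hom {f : V → ℝ} {e : V} (he : ‖e‖ = 1) {c : ℝ} {P : Finset V}
    (hf : RClass f e c P) {s : ℝ} (hcs : c < s) (hs : ∀ p ∈ P, ⟪e, p⟫ < s) :
    Hom f (trunc f e s) := by
  obtain ⟨R, hR⟩ := hf.bdd.exists_norm_le
  have hin : ∀ x, f x ≤ 0 → ⟪e, x⟫ ≤ R := by
    intro x hx
    have h1 := real_inner_le_norm e x
    rw [he, one_mul] at h1
    exact h1.trans (hR x hx)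
  obtain ⟨S, hsS, hRS⟩ : ∃ S, s ≤ S ∧ R < S :=
    ⟨max s (R + 1), le_max_left _ _, lt_of_lt_of_le (by linarith) (le_max_right _ _)⟩
  have h1 : Hom f (trunc f e S) := by
    apply Hom.of_eq_near' hf.good (hf.good.cont.max (RTrunc_cont e S))
    · intro x hx
      have h2 : f x ≤ 0 := by
        rcases hx with h | h
        · exact h.le
        · exact (le_max_left (f x) (⟪e, x⟫ - S)).trans (le_of_eq h)
      have h3 := hin x h2
      have h4 : f x = 0 := by
        rcases hx with h | h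
        · exact h
        · rcases max_choice (f x) (⟪e, x⟫ - S) with h5 | h5
          · rw [h5] at h
            exact h
          · rw [h5] at h
            linarith
      exact RTrunc_near hf.good.cont h4 (by linarith)
    · intro x hx hx'
      rcases lt_or_gt_of_ne hx with h | h
      · have h3 := hin x h.le
        have h4 : max (f x) (⟪e, x⟫ - S) < 0 := max_lt h (by linarith)
        exact mul_pos_of_neg_of_neg h h4
      · exact mul_pos h (lt_of_lt_of_le h (le_max_left _ _))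
  have h2 : Hom (trunc f e s) (trunc f e S) := by
    apply Hom.of_family hsS (fun σ => trunc f e σ)
    · refine Continuous.continuousOn ?_
      exact (hf.good.cont.comp continuous_snd).max
        ((continuous_const.inner continuous_snd).sub continuous_fst)
    · exact ⟨R, fun t _ x hx => hR x ((le_max_left (f x) (⟪e, x⟫ - t)).trans (le_of_eq hx))⟩
    · intro t ht x hx
      exact RTrunc_fam he hf hcs hs ht.1 hx
  exact h1.trans h2.symm

/-- Near and below `c` the truncation changes nothing. -/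
theorem trunc_eq_low {f : V → ℝ} (hf : Continuous f) {e : V} {c s : ℝ} (hcs : c < s) {x : V}
    (hx : ⟪e, x⟫ ≤ c) : (trunc f e s x ≤ 0 ↔ f x ≤ 0) ∧ (trunc f e s x = 0 ↔ f x = 0) ∧
      (f x = 0 → trunc f e s =ᶠ[𝓝 x] f) := by
  have h1 : ⟪e, x⟫ < s := hx.trans_lt hcs
  refine ⟨?_, RTrunc_zero h1, fun h0 => (RTrunc_near hf h0 h1).symm⟩
  unfold trunc
  rw [max_le_iff]
  exact ⟨fun h => h.1, fun h => ⟨h, by linarith⟩⟩

private theorem RTrunc_pcont {f : V → ℝ} (hf : Continuous f) (A C : Set V) :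
    Continuous (partF f A C) :=
  hf.max ((Metric.continuous_infDist_pt A).sub (Metric.continuous_infDist_pt C))

private theorem RTrunc_pzero {f : V → ℝ} {A C : Set V} (hA : IsClosed A) (hC : IsClosed C)
    (hd : Disjoint A C) (hA0 : A.Nonempty) (hC0 : C.Nonempty) (h : A ∪ C = {x | f x ≤ 0}) {x : V}
    (hx : partF f A C x = 0) : x ∈ A ∧ f x = 0 := by
  have h1 : x ∈ A := (partF_le hA hC hd hA0 hC0 h x).1 hx.le
  refine ⟨h1, ?_⟩
  have h2 : Metric.infDist x A = 0 := Metric.infDist_zero_of_mem h1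
  have h3 : 0 < Metric.infDist x C :=
    (hC.notMem_iff_infDist_pos hC0).1 (Set.disjoint_left.1 hd h1)
  unfold partF at hx
  rcases max_choice (f x) (Metric.infDist x A - Metric.infDist x C) with h4 | h4
  · rw [h4] at hx
    exact hx
  · rw [h4] at hx
    linarith

theorem rpart_class {f : V → ℝ} {e : V} {c : ℝ} {P : Finset V}
    (hf : RClass f e c P) {A C : Set V} (hA : IsClosed A) (hC : IsClosed C)
    (hd : Disjoint A C) (hA0 : A.Nonempty) (hC0 : C.Nonempty) (h : A ∪ C = {x | f x ≤ 0}) :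
    ∃ PA ⊆ P, RClass (partF f A C) e c PA := by
  classical
  have hnear : ∀ x ∈ A, f x = 0 → f =ᶠ[𝓝 x] partF f A C := fun x hx hx0 =>
    (partF_near hf.good.cont hC hd hC0 hx hx0).mono fun y hy => hy.symm
  refine ⟨P.filter fun p => p ∈ A, Finset.filter_subset _ _, ⟨?_, ⟨?_, ?_, ?_⟩, ?_, ?_, ?_⟩⟩
  · refine hf.bdd.subset fun x hx => ?_
    have h1 : max (f x) (Metric.infDist x A - Metric.infDist x C) ≤ 0 := hx
    exact (le_max_left _ _).trans h1
  · exact RTrunc_pcont hf.good.cont A C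
  · exact hf.bdd.subset fun x hx => (RTrunc_pzero hA hC hd hA0 hC0 h hx).2.le
  · intro x hx
    obtain ⟨h1, h2⟩ := RTrunc_pzero hA hC hd hA0 hC0 h hx
    obtain ⟨v, hv⟩ := hf.good.desc x h2
    exact ⟨v, hv.congr (hnear x h1 h2)⟩
  · intro p hp
    obtain ⟨hp1, hp2⟩ := Finset.mem_filter.1 hp
    exact (hf.inw p hp1).congr (hnear p hp2 (hf.inw p hp1).zero)
  · intro p hp
    exact hf.high p (Finset.mem_filter.1 hp).1
  · intro x hx hxc hxP
    obtain ⟨h1, h2⟩ := RTrunc_pzero hA hC hd hA0 hC0 h hx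
    exact (hf.free x h2 hxc fun h3 => hxP (Finset.mem_filter.2 ⟨h3, h1⟩)).congr (hnear x h1 h2)

end Pool.Schoen
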