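import Pool.Agent.H.MP_6c077c_gt.Ix.CutA
import Pool.Agent.H.MP_6c077c_gt.Gd.RTrunc

/-! Guard theorem: cutting at the highest inward point of index one, relative class. -/

set_option autoImplicit false

namespace Pool.Schoen

open Filter Set
open scoped Topology RealInnerProductSpace ContDiff

variable {V : Type*} [NormedAddCommGroup V] [InnerProductSpace ℝ V]

/-- The situation of `Slab` for the relative class: the radius `r` is also smaller than the distance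
of `p` to the height `k`. -/
structure RSlab (f : V → ℝ) (k : ℝ) (P : Finset V) (e u p : V)
    (B : V →L[ℝ] V →L[ℝ] ℝ) (μ a r η ε : ℝ) : Prop where
  cls : RClass f e k P
  mem : p ∈ P
  top : ∀ p' ∈ P, ⟪e, p'⟫ ≤ ⟪e, p⟫
  sep : ∀ p' ∈ P, p' ≠ p → r ≤ ‖p' - p‖
  low : r ≤ ⟪e, p⟫ - k
  mod : Mod1 f e u p B μ a r
  hη : 0 < η
  hε : 0 < ε
  hηr : η < r / 8
  hεr : ε < r / 8
  small : ∀ x, mdl1 B μ a e u p x ≤ 0 → ⟪e, x - p⟫ ≤ ε → |⟪u, x - p⟫| ≤ 2 * η → ‖x - p‖ < r / 2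

/-- PROOF. First shrink `r` (`Mod1.mono`) below the distances to the other points of `P`. By
`pos_form_wc`, `β ‖w‖ ^ 2 / 2 ≤ μ z + a y₁ ^ 2 / 2 ≤ μ ε + 2 a η ^ 2`, and `μ z ≥ - 2 a η ^ 2`, so
`‖x - p‖ ^ 2 = z ^ 2 + y₁ ^ 2 + ‖w‖ ^ 2` is small if `η` and `ε` are small: take
`η = ε = ` a small number. -/
theorem rslab_exists [FiniteDimensional ℝ V] {f : V → ℝ} {k : ℝ}
    {P : Finset V} {e u p : V} {B : V →L[ℝ] V →L[ℝ] ℝ} {μ a r : ℝ}
    (hf : RClass f e k P) (hp : p ∈ P)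
    (htop : ∀ p' ∈ P, ⟪e, p'⟫ ≤ ⟪e, p⟫) (hm : Mod1 f e u p B μ a r) :
    ∃ r' η ε : ℝ, RSlab f k P e u p B μ a r' η ε := by
  obtain ⟨β, hβ, hβB⟩ := pos_form_wc B hm.hB
  -- the radius
  have hpk : 0 < ⟪e, p⟫ - k := by linarith [hf.high p hp]
  obtain ⟨r', hr'0, hr'r, hsep, hlow⟩ : ∃ r' : ℝ, 0 < r' ∧ r' ≤ r ∧
      (∀ p' ∈ P, p' ≠ p → r' ≤ ‖p' - p‖) ∧ r' ≤ ⟪e, p⟫ - k := by
    have h1 : ∀ᶠ s : ℝ in 𝓝[>] 0, ∀ p' ∈ P, p' ≠ p → s ≤ ‖p' - p‖ := by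
      rw [Filter.eventually_all_finset]
      intro p' _
      by_cases hpp : p' = p
      · exact Filter.Eventually.of_forall fun s h => absurd hpp h
      · have hpos : 0 < ‖p' - p‖ := norm_pos_iff.2 (sub_ne_zero.2 hpp)
        filter_upwards [Ioo_mem_nhdsGT hpos] with s hs _
        exact hs.2.le
    have h2 : ∀ᶠ s : ℝ in 𝓝[>] 0, s ∈ Ioo 0 r := Ioo_mem_nhdsGT hm.hr
    have h3 : ∀ᶠ s : ℝ in 𝓝[>] 0, s ∈ Ioo 0 (⟪e, p⟫ - k) := Ioo_mem_nhdsGT hpk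
    obtain ⟨s, ⟨hs1, hs2⟩, hs3⟩ := ((h1.and h2).and h3).exists
    exact ⟨s, hs2.1, hs2.2.le, hs1, hs3.2.le⟩
  -- the size of the slab
  have hcont : Continuous (fun s : ℝ => (s + 2 * a * s ^ 2 / μ) ^ 2 + 4 * s ^ 2 +
      2 * (μ * s + 2 * a * s ^ 2) / β) := by
    fun_prop
  have hev : ∀ᶠ s : ℝ in 𝓝 0, (s + 2 * a * s ^ 2 / μ) ^ 2 + 4 * s ^ 2 +
      2 * (μ * s + 2 * a * s ^ 2) / β < (r' / 2) ^ 2 := by
    apply hcont.continuousAt.eventually_lt_const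
    have : (0 : ℝ) < (r' / 2) ^ 2 := by positivity
    simpa using this
  obtain ⟨s, hs1, hs0, hs2⟩ : ∃ s : ℝ, ((s + 2 * a * s ^ 2 / μ) ^ 2 + 4 * s ^ 2 +
      2 * (μ * s + 2 * a * s ^ 2) / β < (r' / 2) ^ 2) ∧ 0 < s ∧ s < r' / 8 := by
    have h2 : ∀ᶠ s : ℝ in 𝓝[>] 0, s ∈ Ioo 0 (r' / 8) := Ioo_mem_nhdsGT (by linarith)
    obtain ⟨s, h3, h4⟩ := ((hev.filter_mono nhdsWithin_le_nhds).and h2).exists
    exact ⟨s, h3, h4.1, h4.2⟩
  refine ⟨r', s, s, ⟨hf, hp, htop, hsep, hlow, hm.mono hr'0 hr'r, hs0, hs0, hs2, hs2, ?_⟩⟩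
  intro x hx hz hy
  have hμ := hm.hμ
  have ha := hm.ha
  obtain ⟨hw1, hw2⟩ := inner_wc hm.he hm.hu hm.heu (x - p)
  have hBw := hβB _ hw1 hw2
  have hn := norm_sq_wc hm.he hm.hu hm.heu (x - p)
  unfold mdl1 at hx
  set z := ⟪e, x - p⟫ with hzdef
  set y := ⟪u, x - p⟫ with hydef
  set w := wc e u (x - p) with hwdef
  have hy2 : y ^ 2 ≤ 4 * s ^ 2 := by
    have h1 := abs_le.1 hy
    nlinarith
  have hw0 : 0 ≤ ‖w‖ ^ 2 := by positivity
  have hBw0 : 0 ≤ B w w := le_trans (by positivity) hBw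
  have h1 : B w w ≤ 2 * (μ * z) + a * y ^ 2 := by linarith
  have h2 : a * y ^ 2 ≤ 4 * a * s ^ 2 := by nlinarith
  have h3 : μ * z ≤ μ * s := mul_le_mul_of_nonneg_left hz hμ.le
  have h4 : ‖w‖ ^ 2 ≤ 2 * (μ * s + 2 * a * s ^ 2) / β := by
    rw [le_div_iff₀ hβ]
    linarith
  have h5 : -(2 * a * s ^ 2 / μ) ≤ z := by
    rw [neg_le, div_eq_mul_inv, ← neg_le_neg_iff, neg_neg]
    have h6 : -(2 * a * s ^ 2) ≤ μ * z := by linarith
    have h7 : -(2 * a * s ^ 2 * μ⁻¹) = μ⁻¹ * (-(2 * a * s ^ 2)) := by ring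
    rw [h7]
    calc μ⁻¹ * (-(2 * a * s ^ 2)) ≤ μ⁻¹ * (μ * z) :=
          mul_le_mul_of_nonneg_left h6 (inv_nonneg.2 hμ.le)
      _ = z := by field_simp
  have h8 : 0 ≤ 2 * a * s ^ 2 / μ := by positivity
  have h9 : z ^ 2 ≤ (s + 2 * a * s ^ 2 / μ) ^ 2 := by
    apply sq_le_sq'
    · linarith
    · linarith
  have h10 : ‖x - p‖ ^ 2 < (r' / 2) ^ 2 := by
    rw [hn]
    linarith
  exact lt_of_pow_lt_pow_left₀ 2 (by positivity) h10

variable {f : V → ℝ} {k : ℝ} {P : Finset V} {e u p : V} {B : V →L[ℝ] V →L[ℝ] ℝ} {μ a r η ε : ℝ}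

theorem RSlab.fs_class (h : RSlab f k P e u p B μ a r η ε) : RClass (fs f e p ε) e k P := by
  apply rtrunc_class h.mod.he h.cls
  · have h1 := h.low
    have h2 := h.mod.hr
    have h3 := h.hε
    linarith
  intro p' hp'
  have h1 := h.top p' hp'
  have h2 := h.hε
  linarith

/-- In the body and in the slab one is within the ball of radius `r / 2`. -/
theorem RSlab.near (h : RSlab f k P e u p B μ a r η ε) {x : V} (hx : fs f e p ε x ≤ 0)
    (hl : 0 ≤ lam u p η r x) : ‖x - p‖ < r / 2 ∧ |⟪u, x - p⟫| ≤ η := by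
  rw [fs_eq, max_le_iff] at hx
  unfold lam at hl
  rw [le_min_iff] at hl
  have hη := h.hη
  have hr := h.mod.hr
  have h1 : |⟪u, x - p⟫| ≤ η := by linarith [hl.1]
  have h2 : ‖x - p‖ < r := by linarith [hl.2]
  have h3 := hx.1
  rw [h.mod.hf x h2] at h3
  exact ⟨h.small x h3 (by linarith [hx.2]) (by linarith), h1⟩

/-- There `lam` is `η - |y₁|`: as `3 r / 4 - ‖x - p‖ > r / 4 > η ≥ η - |y₁|` near `x`. -/
theorem RSlab.lam_near (h : RSlab f k P e u p B μ a r η ε) {x : V} (hx : ‖x - p‖ < r / 2) :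
    ∀ᶠ y in 𝓝 x, lam u p η r y = η - |⟪u, y - p⟫| := by
  have hc : Continuous (fun y : V => ‖y - p‖) := by fun_prop
  filter_upwards [hc.continuousAt.eventually_lt_const hx] with y hy
  unfold lam
  apply min_eq_left
  have h1 := h.hηr
  have h2 := abs_nonneg (⟪u, y - p⟫ : ℝ)
  have h3 : ‖y - p‖ < r / 2 := hy
  have h4 := h.mod.hr
  linarith

private theorem CutA_aff (w q : V) (c : ℝ) {x v : V} (h : ⟪w, v⟫ < 0) :
    Desc1 (fun y => ⟪w, y - q⟫ + c) x v := by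
  have hd : HasFDerivAt (fun y : V => ⟪w, y - q⟫ + c) (innerSL ℝ w) x := by
    have h1 : HasFDerivAt (fun y : V => innerSL ℝ w (y - q) + c) (innerSL ℝ w) x := by
      have h2 : HasFDerivAt (fun y : V => y - q) (ContinuousLinearMap.id ℝ V) x :=
        (hasFDerivAt_id x).sub_const q
      have h3 := ((innerSL ℝ w).hasFDerivAt (x := x - q)).comp x h2
      simpa using h3.add_const c
    exact h1
  apply desc1_smooth
  · apply ContDiff.contDiffAt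
    exact (contDiff_const.inner ℝ (contDiff_id.sub contDiff_const)).add contDiff_const
  · rw [hd.fderiv]
    exact h

/-- Descent of `lam` at `x` in the ball of radius `r / 2`: directions `v` with
`0 < ⟪u, x - p⟫ * ⟪u, v⟫`. -/
theorem RSlab.lam_desc (h : RSlab f k P e u p B μ a r η ε) {x v : V} (hx : ‖x - p‖ < r / 2)
    (hv : 0 < ⟪u, x - p⟫ * ⟪u, v⟫) : Desc1 (lam u p η r) x v := by
  have hc : Continuous (fun y : V => ⟪u, y - p⟫) := by fun_prop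
  rcases mul_pos_iff.1 hv with ⟨h1, h2⟩ | ⟨h1, h2⟩
  · have h3 : Desc1 (fun y => ⟪-u, y - p⟫ + η) x v := by
      apply CutA_aff
      rw [inner_neg_left]
      linarith
    refine h3.congr ?_
    have h4 : ∀ᶠ y in 𝓝 x, (0 : ℝ) < ⟪u, y - p⟫ := hc.continuousAt.eventually_const_lt h1
    filter_upwards [h.lam_near hx, h4] with y hy1 hy2
    rw [hy1, abs_of_pos hy2, inner_neg_left]
    ring
  · have h3 : Desc1 (fun y => ⟪u, y - p⟫ + η) x v := CutA_aff _ _ _ h2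
    refine h3.congr ?_
    have h4 : ∀ᶠ y in 𝓝 x, ⟪u, y - p⟫ < (0 : ℝ) := hc.continuousAt.eventually_lt_const h1
    filter_upwards [h.lam_near hx, h4] with y hy1 hy2
    rw [hy1, abs_of_neg hy2]
    ring

/-- Descent of `fs` (if it vanishes) at `x` in the ball of radius `r`: it is enough that
`mdl1' v < 0` if `mdl1 x = 0`, and `⟪e, v⟫ < 0` if `⟪e, x - p⟫ = ε` (`dz1_max`). -/
theorem RSlab.fs_dz1 (h : RSlab f k P e u p B μ a r η ε) {x v : V} (hx : ‖x - p‖ < r)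
    (h1 : mdl1 B μ a e u p x = 0 → fderiv ℝ (mdl1 B μ a e u p) x v < 0)
    (h2 : ⟪e, x - p⟫ = ε → ⟪e, v⟫ < 0) : DZ1 (fs f e p ε) x v := by
  have hg : Continuous (fun y : V => ⟪e, y⟫ - (⟪e, p⟫ + ε)) := by fun_prop
  have key : DZ1 (fun y => max (f y) (⟪e, y⟫ - (⟪e, p⟫ + ε))) x v := by
    apply dz1_max h.cls.good.cont hg
    · intro h0
      have hev : ∀ᶠ y in 𝓝 x, mdl1 B μ a e u p y = f y := by
        have hc : Continuous (fun y : V => ‖y - p‖) := by fun_prop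
        filter_upwards [hc.continuousAt.eventually_lt_const hx] with y hy
        exact (h.mod.hf y hy).symm
      have h3 : mdl1 B μ a e u p x = 0 := by rw [hev.self_of_nhds, h0]
      have h4 : Desc1 (mdl1 B μ a e u p) x v :=
        desc1_smooth (((mdl1_contDiff B μ a e u p).of_le (by simp)).contDiffAt) (h1 h3)
      exact h4.congr hev
    · intro h0
      change ⟪e, x⟫ - (⟪e, p⟫ + ε) = 0 at h0
      have h3 : ⟪e, x - p⟫ = ε := by
        rw [inner_sub_right]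
        linarith
      have h4 : Desc1 (fun y => ⟪e, y - p⟫ + (-ε)) x v := CutA_aff _ _ _ (h2 h3)
      refine h4.congr (Filter.Eventually.of_forall fun y => ?_)
      rw [inner_sub_right]
      ring
  exact key

end Pool.Schoen
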