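import Pool.Agent.H.MP_6c077c_gt.Ix.Neck
import Pool.Agent.H.MP_6c077c_gt.Gd.RCutA

/-! Guard theorem: the neck homotopy, relative class. -/

set_option autoImplicit false

namespace Pool.Schoen

open Filter Set
open scoped Topology RealInnerProductSpace ContDiff

variable {V : Type*} [NormedAddCommGroup V] [InnerProductSpace ℝ V]
variable {f : V → ℝ} {k : ℝ} {P : Finset V} {e u p : V} {B : V →L[ℝ] V →L[ℝ] ℝ} {μ a r η ε : ℝ}

/-- In the body and in the slab one is well inside of the tube of radius `r`. -/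
theorem RSlab.Neck_in (h : RSlab f k P e u p B μ a r η ε) {x : V} (hx : fs f e p ε x ≤ 0)
    (hl : 0 ≤ lam u p η r x) : 0 ≤ ⟪u, x - qn e u p η ε⟫ ∧ ⟪u, x - qn e u p η ε⟫ ≤ 2 * η ∧
      ‖orth u (x - qn e u p η ε)‖ < r := by
  obtain ⟨h1, h2⟩ := h.near hx hl
  rw [Neck_inner h.mod.hu h.mod.heu]
  have h3 := abs_le.1 h2
  refine ⟨by linarith [h3.1], by linarith [h3.2], ?_⟩
  refine (Neck_orth_le h.mod.hu _).trans_lt ?_
  have h4 := Neck_dist (p := p) h.mod.he h.mod.hu h.hη h.hε x
  have h5 := h.hηr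
  have h6 := h.hεr
  have h7 := h.hη
  linarith

/-- The direction in the neck: `v = - w + (ε / 2 - z) e + y₁ u`. At a point of the slab:
`⟪orth u (x - q), v⟫ = - ‖orth u (x - q)‖ ^ 2` for `q = qn`, `⟪u, v⟫ = y₁`, `⟪e, v⟫ = ε / 2 - z`, and where
`mdl1 = 0`: `mdl1' v = - μ (ε / 2 - z) - a y₁ ^ 2 - B (w, w) = - μ ε / 2 - (3/2) a y₁ ^ 2 - B (w, w) / 2 < 0`. -/
theorem RSlab.neck_dir (h : RSlab f k P e u p B μ a r η ε) (x : V) :
    ∃ v : V, ⟪orth u (x - qn e u p η ε), v⟫ = -‖orth u (x - qn e u p η ε)‖ ^ 2 ∧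
      ⟪u, v⟫ = ⟪u, x - p⟫ ∧ ⟪e, v⟫ = ε / 2 - ⟪e, x - p⟫ ∧
      (mdl1 B μ a e u p x = 0 → fderiv ℝ (mdl1 B μ a e u p) x v < 0) := by
  have he := h.mod.he
  have hu := h.mod.hu
  have heu := h.mod.heu
  obtain ⟨hw1, hw2⟩ := inner_wc he hu heu (x - p)
  obtain ⟨w, hw⟩ : ∃ w, w = wc e u (x - p) := ⟨_, rfl⟩
  rw [← hw] at hw1 hw2
  have hwn1 : ⟪e, -w⟫ = 0 := by rw [inner_neg_right, hw1, neg_zero]
  have hwn2 : ⟪u, -w⟫ = 0 := by rw [inner_neg_right, hw2, neg_zero]
  obtain ⟨c1, c2, c3⟩ := comp_of he hu heu hwn1 hwn2 (ε / 2 - ⟪e, x - p⟫) ⟪u, x - p⟫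
  refine ⟨(ε / 2 - ⟪e, x - p⟫) • e + ⟪u, x - p⟫ • u + -w, ?_, c2, c1, ?_⟩
  · have e1 : (ε / 2 - ⟪e, x - p⟫) • e + ⟪u, x - p⟫ • u + -w =
        -orth u (x - qn e u p η ε) + ⟪u, x - p⟫ • u := by
      rw [Neck_orth hu heu, hw, wc]
      module
    rw [e1, inner_add_right, inner_neg_right, real_inner_self_eq_norm_sq, inner_smul_right,
      real_inner_comm u (orth u (x - qn e u p η ε)), inner_orth hu, mul_zero, add_zero]
  · intro h0
    rw [mdl1_fderiv, c1, c2, c3, ← hw]
    have hBw : 0 ≤ B w w := by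
      by_cases hw0 : w = 0
      · rw [hw0]
        simp
      · exact (h.mod.hB w hw1 hw2 hw0).le
    unfold mdl1 at h0
    rw [← hw] at h0
    have e2 : B w (-w) = -(B w w) := map_neg _ _
    have e3 : B (-w) w = -(B w w) := by rw [map_neg]; rfl
    rw [e2, e3]
    have h1 := mul_pos h.mod.hμ h.hε
    have h2 := h.mod.ha
    have h3 : 0 ≤ a * ⟪u, x - p⟫ ^ 2 := by positivity
    nlinarith

/-- First step: for the radius `R = r` nothing changes.
PROOF. `Hom.of_eq_near'`: if `fs x ≤ 0` then the minimum is negative at `x`: if `0 ≤ lam x` then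
`‖x - p‖ < r / 2`, `|y₁| ≤ η` (`Slab.near`), so `⟪u, x - q⟫ = y₁ + η ∈ [0, 2 η]` and
`‖orth u (x - q)‖ ≤ ‖x - q‖ < r / 2 + η + ε / 2 < r`, so the tube function is negative (`tubeF_lt`). So both
functions vanish at the same points, and agree near them. -/
theorem RSlab.neck_start (h : RSlab f k P e u p B μ a r η ε) {ρ : ℝ} (hρ : 0 < ρ) :
    Hom (fs f e p ε) (neckF f e u p η ε r ρ r) := by
  have hfc := h.fs_class.good.cont
  have hlc := lam_continuous u p η r
  have hTc := tubeF_continuous (qn e u p η ε) u (-ρ) (2 * η + ρ) r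
  have hr := h.mod.hr
  have key : ∀ x, fs f e p ε x ≤ 0 →
      min (lam u p η r x) (tubeF (qn e u p η ε) u (-ρ) (2 * η + ρ) r x) < 0 := by
    intro x hx
    by_cases hl : lam u p η r x < 0
    · exact (min_le_left _ _).trans_lt hl
    · obtain ⟨h1, h2, h3⟩ := h.Neck_in hx (not_lt.1 hl)
      refine (min_le_right _ _).trans_lt ?_
      rw [tubeF_lt hr.le]
      exact ⟨by linarith, by linarith, h3⟩
  have hN : ∀ x, neckF f e u p η ε r ρ r x = max (fs f e p ε x)
      (min (lam u p η r x) (tubeF (qn e u p η ε) u (-ρ) (2 * η + ρ) r x)) := fun x => rfl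
  refine Hom.of_eq_near' h.fs_class.good ?_ ?_ ?_
  · exact hfc.max (hlc.min hTc)
  · intro x hx
    have hx0 : fs f e p ε x = 0 := by
      rcases hx with hx | hx
      · exact hx
      · rw [hN] at hx
        have h1 : fs f e p ε x ≤ 0 := (le_max_left _ _).trans hx.le
        rcases max_choice (fs f e p ε x)
          (min (lam u p η r x) (tubeF (qn e u p η ε) u (-ρ) (2 * η + ρ) r x)) with h2 | h2
        · rw [← h2]
          exact hx
        · rw [h2] at hx
          exact absurd hx (key x h1).ne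
    have h1 : ∀ᶠ y in 𝓝 x, min (lam u p η r y)
        (tubeF (qn e u p η ε) u (-ρ) (2 * η + ρ) r y) < fs f e p ε y := by
      refine (hlc.min hTc).continuousAt.eventually_lt hfc.continuousAt ?_
      rw [hx0]
      exact key x hx0.le
    filter_upwards [h1] with y hy
    rw [hN, max_eq_left hy.le]
  · intro x hf hg
    rcases lt_or_gt_of_ne hf with h1 | h1
    · refine mul_pos_of_neg_of_neg h1 ?_
      rw [hN]
      exact max_lt h1 (key x h1.le)
    · refine mul_pos h1 ?_
      rw [hN]
      exact lt_max_of_lt_left h1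

/-- Second step: the radius shrinks from `r` to `ρ`.
PROOF. Family `H t = neckF ... ρ (r + t (ρ - r))`, sublevel sets in `{fs ≤ 0}`. At a zero `x`: if `lam x < 0`
then `fs x = 0`; take the direction of `fs` (`Slab.fs_class`), `dz_max` with `dz_of_ne` for the minimum. If
`0 ≤ lam x`: `‖x - p‖ < r / 2`, `|y₁| ≤ η`, `⟪u, x - q⟫ ∈ [0, 2 η]`; with `v` of `neck_dir`: `fs` by
`Slab.fs_dz1`; `lam` (if zero, then `|y₁| = η > 0`) by `Slab.lam_desc`; the tube by `tubeF_dz`
(`‖orth‖ = R t ≥ min ρ r > 0`). -/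
theorem RSlab.neck_shrink (h : RSlab f k P e u p B μ a r η ε) {ρ : ℝ} (hρ : 0 < ρ) :
    Hom (neckF f e u p η ε r ρ r) (neckF f e u p η ε r ρ ρ) := by
  have hfc := h.fs_class.good.cont
  have hlc := lam_continuous u p η r
  have hr := h.mod.hr
  have hη := h.hη
  have hRc : Continuous fun t : ℝ => r + t * (ρ - r) := by fun_prop
  have hRpos : ∀ t ∈ Icc (0 : ℝ) 1, 0 < r + t * (ρ - r) := by
    intro t ht
    rcases eq_or_lt_of_le ht.1 with h1 | h1
    · rw [← h1]
      linarith
    · have h2 : 0 < t * ρ := mul_pos h1 hρ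
      have h3 : 0 ≤ (1 - t) * r := mul_nonneg (by linarith [ht.2]) hr.le
      nlinarith
  have c1 : Continuous fun p' : ℝ × V => fs f e p ε p'.2 := hfc.comp continuous_snd
  have c2 : Continuous fun p' : ℝ × V => lam u p η r p'.2 := hlc.comp continuous_snd
  have c3 : Continuous fun p' : ℝ × V =>
      tubeF (qn e u p η ε) u (-ρ) (2 * η + ρ) (r + p'.1 * (ρ - r)) p'.2 :=
    tubeF_continuous' (qn e u p η ε) u (α := fun _ => -ρ) (β := fun _ => 2 * η + ρ)
      (ρ := fun t => r + t * (ρ - r)) continuous_const continuous_const hRc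
  refine ⟨fun t => neckF f e u p η ε r ρ (r + t * (ρ - r)), c1.max (c2.min c3), ?_, ?_, ?_, ?_⟩
  · simp only [zero_mul, add_zero]
  · simp only [one_mul, add_sub_cancel]
  · obtain ⟨R, hR⟩ := h.fs_class.bdd.exists_norm_le
    exact ⟨R, fun t _ x hx => hR x ((le_max_left _ _).trans hx.le)⟩
  · intro t ht x hx
    have hx' : max (fs f e p ε x) (min (lam u p η r x)
      (tubeF (qn e u p η ε) u (-ρ) (2 * η + ρ) (r + t * (ρ - r)) x)) = 0 := hx
    have hf0 : fs f e p ε x ≤ 0 := (le_max_left _ _).trans hx'.le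
    by_cases hl : lam u p η r x < 0
    · have hm : min (lam u p η r x)
          (tubeF (qn e u p η ε) u (-ρ) (2 * η + ρ) (r + t * (ρ - r)) x) < 0 :=
        (min_le_left _ _).trans_lt hl
      have hfz : fs f e p ε x = 0 := by
        rcases max_choice (fs f e p ε x) (min (lam u p η r x)
          (tubeF (qn e u p η ε) u (-ρ) (2 * η + ρ) (r + t * (ρ - r)) x)) with h2 | h2
        · rw [← h2]
          exact hx'
        · rw [h2] at hx'
          exact absurd hx' hm.ne
      obtain ⟨v, hv⟩ := h.fs_class.good.desc x hfz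
      refine ⟨v, dz_max c1 (c2.min c3) (dz_static fun _ => hv) ?_ hx⟩
      exact dz_of_ne hm.ne
    · have hl' := not_lt.1 hl
      obtain ⟨i1, i2, i3⟩ := h.Neck_in hf0 hl'
      obtain ⟨n1, n2⟩ := h.near hf0 hl'
      obtain ⟨v, v1, v2, v3, v4⟩ := h.neck_dir x
      have d1 : DZ1 (fs f e p ε) x v := by
        refine h.fs_dz1 (by linarith) v4 ?_
        intro hz
        rw [v3, hz]
        linarith [h.hε]
      have d2 : DZ1 (lam u p η r) x v := by
        intro hl0
        refine h.lam_desc n1 ?_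
        rw [v2]
        have h1 : lam u p η r x = η - |⟪u, x - p⟫| := (h.lam_near n1).self_of_nhds
        have h2 : ⟪u, x - p⟫ ≠ 0 := by
          intro h3
          rw [h3, abs_zero, hl0] at h1
          linarith
        exact mul_self_pos.2 h2
      have d3 : DZ (fun s => tubeF (qn e u p η ε) u (-ρ) (2 * η + ρ) (r + s * (ρ - r))) t x v := by
        refine tubeF_dz (ρ := fun s => r + s * (ρ - r)) h.mod.hu hRc (by linarith) (by linarith) ?_
        intro h1
        rw [v1, h1]
        have h2 := hRpos t ht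
        have h3 : 0 < (r + t * (ρ - r)) ^ 2 := by positivity
        linarith
      exact ⟨v, dz_max c1 (c2.min c3) (dz_static d1) (dz_min c2 c3 (dz_static d2) d3) hx⟩

/-- For small `ρ` the tube is in the interior of the truncated body.
PROOF. On the segment `q + s u`, `s ∈ [0, 2 η]`: `y₁ = s - η`, `z = ε / 2`, `w = 0`, so
`fs = max (- μ ε / 2 - a y₁ ^ 2 / 2) (- ε / 2) < 0` (the points are in the ball of radius `r`); compactness,
`tau_small` for `G = - fs` and a radius `r'` such that `fs < 0` on the ball of radius `r'` around `q`. -/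
theorem RSlab.neck_tube [FiniteDimensional ℝ V] (h : RSlab f k P e u p B μ a r η ε) :
    ∀ᶠ ρ in 𝓝[>] (0 : ℝ), ∀ x, tau (qn e u p η ε) u (2 * η) ρ x ≤ 0 → fs f e p ε x < 0 := by
  have he := h.mod.he
  have hu := h.mod.hu
  have heu := h.mod.heu
  have hη := h.hη
  have hε := h.hε
  have hηr := h.hηr
  have hεr := h.hεr
  have hfc := h.fs_class.good.cont
  have hseg : ∀ s ∈ Icc (0 : ℝ) (2 * η), fs f e p ε (qn e u p η ε + s • u) < 0 := by
    intro s hs
    have e1 : qn e u p η ε + s • u - p = (ε / 2) • e + (s - η) • u + 0 := by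
      unfold qn
      module
    obtain ⟨c1, c2, c3⟩ := comp_of he hu heu (inner_zero_right e) (inner_zero_right u) (ε / 2)
      (s - η)
    have hn : ‖qn e u p η ε + s • u - p‖ < r := by
      rw [e1, add_zero]
      refine (norm_add_le _ _).trans_lt ?_
      rw [norm_smul, norm_smul, he, hu, mul_one, mul_one, Real.norm_of_nonneg (by linarith),
        Real.norm_eq_abs]
      have h1 : |s - η| ≤ η := by
        rw [abs_le]
        exact ⟨by linarith [hs.1], by linarith [hs.2]⟩
      linarith
    rw [fs_eq, h.mod.hf _ hn, mdl1, e1, c1, c2, c3]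
    have h1 := mul_pos h.mod.hμ hε
    have h2 : 0 ≤ a * (s - η) ^ 2 := mul_nonneg h.mod.ha.le (sq_nonneg _)
    apply max_lt
    · simp only [map_zero, zero_div, add_zero]
      linarith
    · linarith
  have hq : fs f e p ε (qn e u p η ε) < 0 := by
    have h1 := hseg 0 ⟨le_rfl, by linarith⟩
    rwa [zero_smul, add_zero] at h1
  obtain ⟨r', hr', hball⟩ := Metric.eventually_nhds_iff.1
    (hfc.continuousAt.eventually_lt_const hq)
  have h1 := tau_small (q := qn e u p η ε) hu (by linarith : 0 < 2 * η) (G := fun x => -fs f e p ε x)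
    hfc.neg (fun s hs => by
      have := hseg s ⟨hs.1.le, hs.2⟩
      linarith) hr'
  filter_upwards [h1] with ρ hρ x hx
  rcases hρ x hx with h2 | h2
  · exact hball (by rw [dist_eq_norm]; exact h2)
  · linarith

/-- Last step. PROOF. `τ = tau q u (2 η) ρ = tubeF q u (-ρ) (2 η + ρ) ρ`. `Hom.of_eq_near'` for
`F = max fs (min lam τ)` (good by `neck_shrink`) and `G = min (max fs lam) τ`. Let `F x = 0` or `G x = 0`.
If `τ x < 0`: `fs x < 0`, and `F x, G x < 0`, impossible. If `τ x = 0`: `fs x < 0`; then `0 ≤ lam x`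
(for `F x = 0`: `min (lam x) 0 = 0`; for `G x = 0`: `fcut x ≥ 0`), so `fs < lam` and `fs < τ` near `x`,
and `F = min lam τ = G` near `x`. If `τ x > 0`: `F x = 0` gives `lam x ≤ 0` (else the minimum is positive), and
`G x = 0` gives `fcut x = 0`, `lam x ≤ 0`; near `x` both are `fcut`: `min lam τ = lam`. Same signs elsewhere:
by cases. -/
theorem RSlab.neck_end (h : RSlab f k P e u p B μ a r η ε) {ρ : ℝ} (hρ : 0 < ρ)
    (hT : ∀ x, tau (qn e u p η ε) u (2 * η) ρ x ≤ 0 → fs f e p ε x < 0) :
    Hom (neckF f e u p η ε r ρ ρ)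
      (fun x => min (fcut f e u p η ε r x) (tau (qn e u p η ε) u (2 * η) ρ x)) := by
  have hfc := h.fs_class.good.cont
  have hlc := lam_continuous u p η r
  have hτc := tau_continuous (qn e u p η ε) u (2 * η) ρ
  have hcc : Continuous (fcut f e u p η ε r) := hfc.max hlc
  have hN : ∀ x, neckF f e u p η ε r ρ ρ x = max (fs f e p ε x)
      (min (lam u p η r x) (tau (qn e u p η ε) u (2 * η) ρ x)) := fun x => rfl
  have hC : ∀ x, fcut f e u p η ε r x = max (fs f e p ε x) (lam u p η r x) := fun x => rfl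
  refine Hom.of_eq_near' (h.neck_shrink hρ).good_right (hcc.min hτc) ?_ ?_
  · intro x hx
    rw [hN, hC] at hx
    generalize hF : fs f e p ε x = F at hx
    generalize hL : lam u p η r x = L at hx
    generalize hA : tau (qn e u p η ε) u (2 * η) ρ x = A at hx
    rcases lt_trichotomy A 0 with h1 | h1 | h1
    · exfalso
      have h2 : F < 0 := by
        rw [← hF]
        exact hT x (by rw [hA]; exact h1.le)
      rcases hx with hx | hx
      · have h3 : max F (min L A) < 0 := max_lt h2 ((min_le_right _ _).trans_lt h1)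
        linarith
      · have h3 : min (max F L) A < 0 := (min_le_right _ _).trans_lt h1
        linarith
    · have h2 : F < 0 := by
        rw [← hF]
        exact hT x (by rw [hA]; exact h1.le)
      have h3 : 0 ≤ L := by
        rcases hx with hx | hx
        · by_contra h4
          have h5 : max F (min L A) < 0 := max_lt h2 ((min_le_left _ _).trans_lt (not_le.1 h4))
          linarith
        · by_contra h4
          have h5 : min (max F L) A < 0 := (min_le_left _ _).trans_lt (max_lt h2 (not_le.1 h4))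
          linarith
      have e1 : ∀ᶠ y in 𝓝 x, fs f e p ε y < lam u p η r y :=
        hfc.continuousAt.eventually_lt hlc.continuousAt (by rw [hF, hL]; linarith)
      have e2 : ∀ᶠ y in 𝓝 x, fs f e p ε y < tau (qn e u p η ε) u (2 * η) ρ y :=
        hfc.continuousAt.eventually_lt hτc.continuousAt (by rw [hF, hA]; linarith)
      filter_upwards [e1, e2] with y h4 h5
      rw [hN, hC, max_eq_right h4.le, max_eq_right (le_min h4.le h5.le)]
    · have h3 : max F L = 0 ∧ L ≤ 0 := by
        rcases hx with hx | hx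
        · have h4 : L ≤ 0 := by
            by_contra h5
            have h6 : 0 < min L A := lt_min (not_le.1 h5) h1
            have h7 := le_max_right F (min L A)
            linarith
          rw [min_eq_left (h4.trans h1.le)] at hx
          exact ⟨hx, h4⟩
        · have h4 : max F L = 0 := by
            rcases min_choice (max F L) A with h5 | h5
            · rw [← h5]
              exact hx
            · rw [h5] at hx
              linarith
          exact ⟨h4, (le_max_right F L).trans h4.le⟩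
      have e1 : ∀ᶠ y in 𝓝 x, lam u p η r y < tau (qn e u p η ε) u (2 * η) ρ y :=
        hlc.continuousAt.eventually_lt hτc.continuousAt (by rw [hL, hA]; linarith [h3.2])
      have e2 : ∀ᶠ y in 𝓝 x, fcut f e u p η ε r y < tau (qn e u p η ε) u (2 * η) ρ y :=
        hcc.continuousAt.eventually_lt hτc.continuousAt (by rw [hC, hF, hL, hA]; linarith [h3.1])
      filter_upwards [e1, e2] with y h4 h5
      rw [min_eq_left h5.le, hN, hC, min_eq_left h4.le]
  · intro x hx hy
    rw [hN] at hx
    rw [hC] at hy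
    rw [hN, hC]
    generalize hF : fs f e p ε x = F at hx hy
    generalize hL : lam u p η r x = L at hx hy
    generalize hA : tau (qn e u p η ε) u (2 * η) ρ x = A at hx hy
    rcases lt_trichotomy A 0 with h1 | h1 | h1
    · have h2 : F < 0 := by
        rw [← hF]
        exact hT x (by rw [hA]; exact h1.le)
      exact mul_pos_of_neg_of_neg (max_lt h2 ((min_le_right _ _).trans_lt h1))
        ((min_le_right _ _).trans_lt h1)
    · have h2 : F < 0 := by
        rw [← hF]
        exact hT x (by rw [hA]; exact h1.le)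
      by_cases h3 : L < 0
      · exact mul_pos_of_neg_of_neg (max_lt h2 ((min_le_left _ _).trans_lt h3))
          ((min_le_left _ _).trans_lt (max_lt h2 h3))
      · exfalso
        apply hx
        rw [h1, min_eq_right (not_lt.1 h3)]
        exact max_eq_right h2.le
    · by_cases h3 : L ≤ 0
      · have h4 : min L A = L := min_eq_left (h3.trans h1.le)
        rw [h4] at hx ⊢
        rcases lt_or_gt_of_ne hx with h5 | h5
        · exact mul_pos_of_neg_of_neg h5 ((min_le_left _ _).trans_lt h5)
        · exact mul_pos h5 (lt_min h5 h1)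
      · have h5 := not_le.1 h3
        exact mul_pos (lt_max_of_lt_right (lt_min h5 h1)) (lt_min (lt_max_of_lt_right h5) h1)

end Pool.Schoen
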