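import Pool.Agent.H.MP_6c077c_gt.Gd.RModel
import Pool.Agent.H.MP_6c077c_gt.Gd.RCap
import Pool.Agent.H.MP_6c077c_gt.Gd.RCut
import Pool.Agent.H.MP_6c077c_gt.Ix.Glue

/-! Guard theorem: the two-sided induction. -/

set_option autoImplicit false

namespace Pool.Schoen

open Filter Set
open scoped Topology RealInnerProductSpace ContDiff

variable {V : Type*} [NormedAddCommGroup V] [InnerProductSpace ℝ V]

theorem Two.flip {f : V → ℝ} {e : V} {a b : ℝ} {P Q : Finset V} (h : Two f e a b P Q) :
    Two f (-e) (-b) (-a) Q P := by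
  refine ⟨h.bdd, h.good, h.inwQ, ?_, ?_, ?_, ?_, ?_, ?_⟩
  · intro q hq
    rw [neg_neg]
    exact h.inwP q hq
  · intro p hp
    rw [inner_neg_left]
    exact neg_lt_neg (h.lowQ p hp)
  · intro q hq
    rw [inner_neg_left]
    exact neg_lt_neg (h.highP q hq)
  · intro x hx h1 h2
    rw [inner_neg_left] at h1
    exact h.freeQ x hx (by linarith) h2
  · intro x hx h1 h2
    rw [inner_neg_left] at h1
    rw [neg_neg]
    exact h.freeP x hx (by linarith) h2
  · intro x hx h1 h2
    rw [inner_neg_left] at h1 h2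
    obtain ⟨v, hv, hd⟩ := h.mid x hx (by linarith) (by linarith)
    exact ⟨v, by rw [inner_neg_left, hv, neg_zero], hd⟩

theorem Two.rclass {f : V → ℝ} {e : V} {a b : ℝ} {P Q : Finset V} (h : Two f e a b P Q)
    (hab : a ≤ b) : RClass f e b P :=
  ⟨h.bdd, h.good, h.inwP, h.highP, fun x hx h1 h2 => h.freeP x hx (hab.trans h1) h2⟩

/-- Descent directions only depend on the germ. -/
private theorem TwoSided_free {f g : V → ℝ} {e x : V} (h : FreeAt f e x) (hfg : g =ᶠ[𝓝 x] f) :
    FreeAt g e x := by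
  obtain ⟨v, hv, hlt⟩ := h
  exact ⟨v, hv.congr hfg.symm, hlt⟩

/-- PROOF. `Q' = Q.filter (g q = 0)` (classical). A zero `x` of `g` of height at most `b` is one of `f`
with the same germ (`PartLow`); above `b` use `RClass`. -/
theorem Two.of_partLow {f g : V → ℝ} {e : V} {a b : ℝ} {P Q P' : Finset V} (h : Two f e a b P Q)
    (hab : a ≤ b) (hg : RClass g e b P') (hp : PartLow g f e b) :
    ∃ Q' ⊆ Q, Two g e a b P' Q' := by
  classical
  refine ⟨Q.filter fun q => g q = 0, Finset.filter_subset _ _, hg.bdd, hg.good, hg.inw, ?_,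
    hg.high, ?_, ?_, ?_, ?_⟩
  · intro q hq
    rw [Finset.mem_filter] at hq
    have h1 := (hp q ((h.lowQ q hq.1).le.trans hab)).2 hq.2
    exact (h.inwQ q hq.1).congr h1.symm
  · intro q hq
    rw [Finset.mem_filter] at hq
    exact h.lowQ q hq.1
  · intro x hx h1 h2
    rcases le_or_gt b ⟪e, x⟫ with h3 | h3
    · exact hg.free x hx h3 h2
    · have h4 := (hp x h3.le).2 hx
      have h5 : f x = 0 := by rw [← h4.self_of_nhds, hx]
      refine TwoSided_free (h.freeP x h5 h1 fun h6 => ?_) h4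
      exact absurd (h.highP x h6) (not_lt.2 h3.le)
  · intro x hx h1 h2
    have h4 := (hp x h1).2 hx
    have h5 : f x = 0 := by rw [← h4.self_of_nhds, hx]
    refine TwoSided_free (h.freeQ x h5 h1 fun h6 => ?_) h4
    exact h2 (Finset.mem_filter.2 ⟨h6, hx⟩)
  · intro x hx h1 h2
    have h4 := (hp x h2).2 hx
    have h5 : f x = 0 := by rw [← h4.self_of_nhds, hx]
    obtain ⟨v, hv, hd⟩ := h.mid x h5 h1 h2
    exact ⟨v, hv, hd.congr h4.symm⟩

theorem PartMid.trans {f g k : V → ℝ} {e : V} {a b : ℝ} (h : PartMid g f e a b)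
    (h' : PartMid f k e a b) : PartMid g k e a b := by
  intro x h1 h2
  obtain ⟨h3, h4⟩ := h x h1 h2
  obtain ⟨h5, h6⟩ := h' x h1 h2
  refine ⟨fun hx => h5 (h3 hx), fun hx => ?_⟩
  have h7 := h4 hx
  have h8 : f x = 0 := by rw [← h7.self_of_nhds, hx]
  exact h7.trans (h6 h8)

theorem PartMid.flip {f g : V → ℝ} {e : V} {a b : ℝ} (h : PartMid g f e a b) :
    PartMid g f (-e) (-b) (-a) := by
  intro x h1 h2
  rw [inner_neg_left] at h1 h2
  exact h x (by linarith) (by linarith)

/-- A union of components below `b` is one between `a` and `b`. -/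
private theorem TwoSided_mid {f g : V → ℝ} {e : V} {a b : ℝ} (h : PartLow g f e b) :
    PartMid g f e a b := fun x _ h2 => h x h2

variable [FiniteDimensional ℝ V]

/-- The induction step if there is an inward point above. -/
private theorem TwoSided_step (n : ℕ)
    (ih : ∀ m < n, ∀ (e : V) (a b : ℝ) (P Q : Finset V) (f : V → ℝ), ‖e‖ = 1 → a < b →
      P.card + Q.card = m → Two f e a b P Q → IsConnected {x | f x ≤ 0} → LiftS {x | f x ≤ 0} →
      (∀ g : V → ℝ, Two g e a b ∅ ∅ → IsConnected {x | g x ≤ 0} → LiftS {x | g x ≤ 0} →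
        PartMid g f e a b → IsBall g) → IsBall f)
    (e : V) (a b : ℝ) (P Q : Finset V) (f : V → ℝ) (he : ‖e‖ = 1) (hab : a < b)
    (hn : P.card + Q.card = n) (hf : Two f e a b P Q) (hconn : IsConnected {x | f x ≤ 0})
    (hlift : LiftS {x | f x ≤ 0})
    (hbase : ∀ g : V → ℝ, Two g e a b ∅ ∅ → IsConnected {x | g x ≤ 0} → LiftS {x | g x ≤ 0} →
      PartMid g f e a b → IsBall g) (hP : P.Nonempty) : IsBall f := by
  obtain ⟨p, hp, htop⟩ := Finset.exists_max_image P (fun x => ⟪e, x⟫) hP
  obtain ⟨g, μ, r, hfg, hg, hgf, hmod⟩ := rmodel he (hf.rclass hab.le) hp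
  have hgc := hfg.isConnected hf.bdd hconn
  have hgl := hfg.liftS hf.bdd hlift
  refine Hom.trans hfg ?_
  rcases hmod with ⟨B, hm⟩ | ⟨u, B, c, hm⟩
  · exact rcap hg hp htop hm hgc
  · obtain ⟨A, C, PA, PC, q, ℓ, hA, hC, hPA, hPC, hAc, hAl, hCc, hCl, hdisj, hℓ, hflatA,
      hflatC, hs, hρ, hAg, hCg⟩ := rcut hg hp htop hm hgc hgl
    obtain ⟨Q', hQ', hg2⟩ := hf.of_partLow hab.le hg hgf
    have key : ∀ (K : V → ℝ) (PK : Finset V), RClass K e b PK → PK.card < P.card →
        IsConnected {x | K x ≤ 0} → LiftS {x | K x ≤ 0} → PartLow K g e b → IsBall K := by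
      intro K PK hK hPK hKc hKl hKg
      obtain ⟨QK, hQK, hK2⟩ := hg2.of_partLow hab.le hK hKg
      have h1 : QK.card ≤ Q.card := Finset.card_le_card (hQK.trans hQ')
      refine ih _ (by omega) e a b PK QK K he hab rfl hK2 hKc hKl ?_
      intro k hk hkc hkl hkK
      exact hbase k hk hkc hkl ((hkK.trans (TwoSided_mid hKg)).trans (TwoSided_mid hgf))
    have hAb : IsBall A := key A PA hA hPA hAc hAl hAg
    have hCb : IsBall C := key C PC hC hPC hCc hCl hCg
    have hρ' := glue hAb hC.good hdisj hm.hu hℓ hflatA hflatC hs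
    obtain ⟨ρ, h1, h2⟩ := (hρ.and hρ').exists
    exact (h1.trans h2).trans hCb

/-- The two-sided induction. PROOF. Strong induction on `P.card + Q.card`. If `P` is nonempty take its
highest point `p`; `Two.rclass`, `rmodel` (`Hom.isConnected`, `Hom.liftS`, `Hom.trans`,
`Two.of_partLow`); `Mod0`: `rcap`; `Mod1`: `rcut`, both parts are balls by induction (`Two.of_partLow`,
`PartMid.trans`; `PartLow` gives `PartMid`), `glue` (as in `t1star`). If `P` is empty and `Q` is not,
the same for `-e` (`Two.flip`, `PartMid.flip`). If both are empty: `hbase`. -/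
theorem two_sided {f : V → ℝ} {e : V} (he : ‖e‖ = 1) {a b : ℝ} (hab : a < b) {P Q : Finset V}
    (hf : Two f e a b P Q) (hconn : IsConnected {x | f x ≤ 0}) (hlift : LiftS {x | f x ≤ 0})
    (hbase : ∀ g : V → ℝ, Two g e a b ∅ ∅ → IsConnected {x | g x ≤ 0} → LiftS {x | g x ≤ 0} →
      PartMid g f e a b → IsBall g) : IsBall f := by
  have key : ∀ (n : ℕ) (e : V) (a b : ℝ) (P Q : Finset V) (f : V → ℝ), ‖e‖ = 1 → a < b →
      P.card + Q.card = n → Two f e a b P Q → IsConnected {x | f x ≤ 0} → LiftS {x | f x ≤ 0} →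
      (∀ g : V → ℝ, Two g e a b ∅ ∅ → IsConnected {x | g x ≤ 0} → LiftS {x | g x ≤ 0} →
        PartMid g f e a b → IsBall g) → IsBall f := by
    intro n
    induction n using Nat.strong_induction_on with
    | _ n ih =>
      intro e a b P Q f he hab hn hf hconn hlift hbase
      rcases P.eq_empty_or_nonempty with hP | hP
      · rcases Q.eq_empty_or_nonempty with hQ | hQ
        · subst hP hQ
          exact hbase f hf hconn hlift fun x _ _ => ⟨fun h => h, fun _ => EventuallyEq.rfl⟩
        · refine TwoSided_step n ih (-e) (-b) (-a) Q P f (by rw [norm_neg, he])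
            (neg_lt_neg hab) (by omega) hf.flip hconn hlift ?_ hQ
          intro g hg hgc hgl hgf
          have h1 := hg.flip
          have h2 := hgf.flip
          rw [neg_neg, neg_neg, neg_neg] at h1 h2
          exact hbase g h1 hgc hgl h2
      · exact TwoSided_step n ih e a b P Q f he hab hn hf hconn hlift hbase hP
  exact key _ e a b P Q f he hab rfl hf hconn hlift hbase

end Pool.Schoen
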