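import Pool.Agent.H.MP_6c077c_gt.Gd.BaseSlice
import Pool.Agent.H.MP_6c077c_gt.Gd.TwoSided
import Pool.Agent.H.MP_6c077c_gt.Al.Compl

/-! Guard theorem, four guards: the complement of the slice is connected. -/

set_option autoImplicit false

namespace Pool.Schoen

open Filter Set Metric
open scoped Topology RealInnerProductSpace ContDiff

variable {V : Type*} [NormedAddCommGroup V] [InnerProductSpace ℝ V]

/-- A continuous function with values in `2 π ℤ` is constant on a preconnected set. -/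
theorem OutSlice_const {Y : Type*} [TopologicalSpace Y] {A : Set Y} (hA : IsPreconnected A)
    {f : Y → ℝ} (hf : ContinuousOn f A)
    (h1 : ∀ x ∈ A, Complex.exp (f x * Complex.I) = 1) : ∀ x ∈ A, ∀ x' ∈ A, f x ≤ f x' := by
  intro x hx x' hx'
  by_contra hlt
  push Not at hlt
  have key : ∀ x ∈ A, ∃ n : ℤ, f x = n * (2 * Real.pi) := by
    intro x hx
    obtain ⟨n, hn⟩ := Complex.exp_eq_one_iff.1 (h1 x hx)
    refine ⟨n, ?_⟩
    have h2 : ((f x : ℂ)) * Complex.I = ((n * (2 * Real.pi) : ℝ) : ℂ) * Complex.I := by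
      rw [hn]
      push_cast
      ring
    have h3 := mul_right_cancel₀ Complex.I_ne_zero h2
    exact_mod_cast h3
  obtain ⟨n, hn⟩ := key x hx
  obtain ⟨m, hm⟩ := key x' hx'
  have hpi := Real.pi_pos
  have hmn : m < n := by
    have : (m : ℝ) * (2 * Real.pi) < n * (2 * Real.pi) := by rw [← hn, ← hm]; exact hlt
    have := lt_of_mul_lt_mul_right this (by positivity)
    exact_mod_cast this
  have hle : (m : ℝ) + 1 ≤ n := by exact_mod_cast hmn
  have hmem : f x' + Real.pi ∈ f '' A := by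
    have hord := (hA.image f hf).ordConnected
    refine hord.out (mem_image_of_mem f hx') (mem_image_of_mem f hx) ⟨by linarith, ?_⟩
    rw [hn, hm]
    nlinarith
  obtain ⟨y, hy, hfy⟩ := hmem
  obtain ⟨k, hk⟩ := key y hy
  rw [hk, hm] at hfy
  have h4 : ((k - m : ℤ) : ℝ) * 2 = 1 := by
    push_cast
    have : ((k : ℝ) - m) * (2 * Real.pi) = Real.pi := by linarith
    field_simp at this
    linarith
  have h5 : (k - m) * 2 = 1 := by exact_mod_cast h4
  omega

theorem OutSlice_const' {Y : Type*} [TopologicalSpace Y] {A : Set Y}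
    (hA : IsPreconnected A) {f : Y → ℝ} (hf : ContinuousOn f A)
    (h1 : ∀ x ∈ A, Complex.exp (f x * Complex.I) = 1) {x x' : Y} (hx : x ∈ A) (hx' : x' ∈ A) :
    f x = f x' :=
  le_antisymm (OutSlice_const hA hf h1 x hx x' hx') (OutSlice_const hA hf h1 x' hx' x hx)

/-- The clamped height. -/
noncomputable def osT (e : V) (c η : ℝ) (x : V) : ℝ := max 0 (min 1 ((⟪e, x⟫ - c + η) / (2 * η)))

theorem osT_cont (e : V) (c η : ℝ) : Continuous (osT e c η) := by
  unfold osT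
  fun_prop

theorem osT_one {e : V} {c η : ℝ} (hη : 0 < η) {x : V} (hx : c + η ≤ ⟪e, x⟫) :
    osT e c η x = 1 := by
  have h1 : 1 ≤ (⟪e, x⟫ - c + η) / (2 * η) := by
    rw [le_div_iff₀ (by positivity)]
    linarith
  rw [osT, min_eq_left h1, max_eq_right zero_le_one]

theorem osT_zero {e : V} {c η : ℝ} (hη : 0 < η) {x : V} (hx : ⟪e, x⟫ ≤ c - η) :
    osT e c η x = 0 := by
  have h1 : (⟪e, x⟫ - c + η) / (2 * η) ≤ 0 :=
    div_nonpos_of_nonpos_of_nonneg (by linarith) (by positivity)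
  rw [osT, max_eq_left]
  exact (min_le_right _ _).trans h1

theorem exp_osT_one {e : V} {c η : ℝ} {x : V} (h : osT e c η x = 1) :
    Complex.exp (((2 * Real.pi * osT e c η x : ℝ) : ℂ) * Complex.I) = 1 := by
  rw [h, mul_one]
  push_cast
  exact Complex.exp_two_pi_mul_I

theorem exp_osT_zero {e : V} {c η : ℝ} {x : V} (h : osT e c η x = 0) :
    Complex.exp (((2 * Real.pi * osT e c η x : ℝ) : ℂ) * Complex.I) = 1 := by
  rw [h, mul_zero]
  simp

/-- A point of the closed part with a positive value. -/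
theorem OutSlice_pos {E : Type*} [NormedAddCommGroup E] [InnerProductSpace ℝ E] {k : E → ℝ}
    (hg : Good k) {t t' : Set E} (ht' : IsClosed t') (hcov : {y | 0 ≤ k y} ⊆ t ∪ t')
    (hdis : ¬ ({y | 0 ≤ k y} ∩ (t ∩ t')).Nonempty) {y : E} (hy : 0 ≤ k y) (hyt : y ∈ t) :
    ∃ z ∈ t, 0 < k z ∧ z ∉ t' := by
  have hyt' : y ∉ t' := fun h => hdis ⟨y, hy, hyt, h⟩
  have hcl : y ∈ closure {x | 0 < k x} := by
    rcases hy.eq_or_lt with h0 | h0
    · exact hg.zero_closure h0.symm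
    · exact subset_closure h0
  obtain ⟨z, hz1, hz2⟩ := mem_closure_iff_nhds.1 hcl t'ᶜ (ht'.isOpen_compl.mem_nhds hyt')
  have hz3 : 0 < k z := hz2
  rcases hcov (show 0 ≤ k z from hz3.le) with h | h
  · exact ⟨z, h, hz3, hz1⟩
  · exact absurd h hz1

/-- Positivity on a short vertical segment. -/
theorem OutSlice_seg {f : V → ℝ} (hfc : Continuous f) {e : V} {c : ℝ} {y : (ℝ ∙ e)ᗮ}
    (hy : 0 < slc f e c y) : ∃ η : ℝ, 0 < η ∧ ∀ h : ℝ, |h - c| ≤ η → 0 < f ((y : V) + h • e) := by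
  have hcont : ContinuousAt (fun h : ℝ => f ((y : V) + h • e)) c := by
    have : Continuous (fun h : ℝ => f ((y : V) + h • e)) := by fun_prop
    exact this.continuousAt
  have hev : ∀ᶠ h in 𝓝 c, 0 < f ((y : V) + h • e) := hcont.eventually_const_lt hy
  obtain ⟨ε, hε, hb⟩ := Metric.eventually_nhds_iff.1 hev
  refine ⟨ε / 2, by positivity, fun h hh => hb ?_⟩
  rw [Real.dist_eq]
  linarith

/-- Main step, with the connectedness of the upper and lower parts as hypotheses. -/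
theorem out_slice_aux [FiniteDimensional ℝ V] {f : V → ℝ} (hfc : Continuous f) {e : V}
    (he : ‖e‖ = 1) {c : ℝ} (hg : Good (slc f e c))
    (hup : ∃ ρ₀ : ℝ, ∀ ρ, ρ₀ ≤ ρ → ∀ c', c ≤ c' → c' ≤ c + 1 →
      IsPreconnected {x | 0 ≤ f x ∧ ‖x‖ ≤ ρ ∧ c' ≤ ⟪e, x⟫})
    (hdn : ∃ ρ₀ : ℝ, ∀ ρ, ρ₀ ≤ ρ → ∀ c', c - 1 ≤ c' → c' ≤ c →
      IsPreconnected {x | 0 ≤ f x ∧ ‖x‖ ≤ ρ ∧ ⟪e, x⟫ ≤ c'})
    (hl : ∃ ρ₀ : ℝ, ∀ ρ, ρ₀ ≤ ρ → LiftS {x | 0 ≤ f x ∧ ‖x‖ ≤ ρ}) :
    IsPreconnected {y : (ℝ ∙ e)ᗮ | 0 ≤ slc f e c y} := by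
  classical
  rw [isPreconnected_closed_iff]
  intro t t' ht ht' hcov hne hne'
  by_contra hdis
  obtain ⟨y1, hy1, hy1t⟩ := hne
  obtain ⟨y2, hy2, hy2t⟩ := hne'
  obtain ⟨yA, hyA, hyA0, hyA'⟩ := OutSlice_pos hg ht' hcov hdis hy1 hy1t
  obtain ⟨yB, hyB, hyB0, hyB'⟩ := OutSlice_pos hg (t := t') (t' := t) ht (by rwa [union_comm])
    (by rwa [inter_comm t' t]) hy2 hy2t
  obtain ⟨ηA, hηA, hsA⟩ := OutSlice_seg hfc hyA0
  obtain ⟨ηB, hηB, hsB⟩ := OutSlice_seg hfc hyB0
  obtain ⟨ρ1, hup⟩ := hup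
  obtain ⟨ρ2, hdn⟩ := hdn
  obtain ⟨ρ3, hl⟩ := hl
  obtain ⟨ρ, hρ1, hρ2, hρ3, hρ4⟩ : ∃ ρ : ℝ, ρ1 ≤ ρ ∧ ρ2 ≤ ρ ∧ ρ3 ≤ ρ ∧
      ‖yA‖ + ‖yB‖ + |c| + 1 ≤ ρ :=
    ⟨|ρ1| + |ρ2| + |ρ3| + (‖yA‖ + ‖yB‖ + |c| + 1), by
      nlinarith [le_abs_self ρ1, abs_nonneg ρ2, abs_nonneg ρ3, norm_nonneg yA, norm_nonneg yB,
        abs_nonneg c], by
      nlinarith [le_abs_self ρ2, abs_nonneg ρ1, abs_nonneg ρ3, norm_nonneg yA, norm_nonneg yB,
        abs_nonneg c], by
      nlinarith [le_abs_self ρ3, abs_nonneg ρ1, abs_nonneg ρ2, norm_nonneg yA, norm_nonneg yB,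
        abs_nonneg c], by
      nlinarith [abs_nonneg ρ1, abs_nonneg ρ2, abs_nonneg ρ3]⟩
  set Ω : Set V := {x | 0 ≤ f x ∧ ‖x‖ ≤ ρ} with hΩ
  have hS : IsClosed {y : (ℝ ∙ e)ᗮ | 0 ≤ slc f e c y} := isClosed_le continuous_const hg.cont
  obtain ⟨κ, hκA, hκB, -⟩ := exists_continuous_zero_one_of_isClosed (hS.inter ht) (hS.inter ht')
    (by
      rw [Set.disjoint_iff_inter_eq_empty, Set.eq_empty_iff_forall_notMem]
      rintro z ⟨⟨h1, h2⟩, -, h3⟩
      exact hdis ⟨z, h1, h2, h3⟩)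
  have hhc : Continuous fun x : V => hpr e x := (hprL e).continuous
  have hκc : Continuous fun x : V => κ (hpr e x) := κ.continuous.comp hhc
  have hΩc : IsCompact Ω := by
    have hp : ProperSpace V := FiniteDimensional.proper ℝ V
    refine isCompact_of_isClosed_isBounded ?_ ?_
    · exact (isClosed_le continuous_const hfc).inter (isClosed_le continuous_norm continuous_const)
    · refine (Metric.isBounded_closedBall (x := (0 : V)) (r := ρ)).subset ?_
      intro x hx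
      rw [mem_closedBall_zero_iff]
      exact hx.2
  -- the separating height
  obtain ⟨m, hm, hsep⟩ : ∃ m : ℝ, 0 < m ∧ ∀ x ∈ Ω, κ (hpr e x) = 1 / 2 → m ≤ |⟪e, x⟫ - c| := by
    have hK : IsCompact (Ω ∩ {x | κ (hpr e x) = 1 / 2}) :=
      hΩc.inter_right (isClosed_eq hκc continuous_const)
    rcases (Ω ∩ {x | κ (hpr e x) = 1 / 2}).eq_empty_or_nonempty with h | h
    · refine ⟨1, one_pos, fun x hx hx' => ?_⟩
      have hx2 : x ∈ Ω ∩ {x | κ (hpr e x) = 1 / 2} := ⟨hx, hx'⟩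
      rw [h] at hx2
      exact absurd hx2 (notMem_empty x)
    · have hc1 : Continuous fun x : V => |⟪e, x⟫ - c| := by fun_prop
      obtain ⟨x0, hx0, hmin⟩ := hK.exists_isMinOn h hc1.continuousOn
      refine ⟨|⟪e, x0⟫ - c|, ?_, fun x hx hx' => hmin ⟨hx, hx'⟩⟩
      rw [abs_pos]
      intro h0
      have h1 : ⟪e, x0⟫ = c := by linarith
      have h2 := hpr_add he x0
      rw [h1] at h2
      have h3 : 0 ≤ slc f e c (hpr e x0) := by
        rw [slc, h2]
        exact hx0.1.1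
      have h4 : κ (hpr e x0) = 1 / 2 := hx0.2
      rcases hcov h3 with h5 | h5
      · have := hκA ⟨h3, h5⟩
        rw [h4] at this
        norm_num at this
      · have := hκB ⟨h3, h5⟩
        rw [h4] at this
        norm_num at this
  obtain ⟨η, hη, hη1, hηm, hηA', hηB'⟩ : ∃ η : ℝ, 0 < η ∧ η ≤ 1 ∧ η < m ∧ η ≤ ηA ∧ η ≤ ηB := by
    refine ⟨min (min 1 (m / 2)) (min ηA ηB), by positivity, ?_, ?_, ?_, ?_⟩
    · exact (min_le_left _ _).trans (min_le_left _ _)
    · have : min (min 1 (m / 2)) (min ηA ηB) ≤ m / 2 := (min_le_left _ _).trans (min_le_right _ _)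
      linarith
    · exact (min_le_right _ _).trans (min_le_left _ _)
    · exact (min_le_right _ _).trans (min_le_right _ _)
  -- the circle map
  set w : V → ℂ := fun x => Complex.exp (((2 * Real.pi * osT e c η x : ℝ) : ℂ) * Complex.I) with hw
  have hwc : Continuous w := by
    have := osT_cont e c η
    fun_prop
  set u : V → ℂ := fun x => if 1 / 2 ≤ κ (hpr e x) then w x else 1 with hu
  have hmid : ∀ x ∈ Ω, κ (hpr e x) = 1 / 2 → w x = 1 := by
    intro x hx hx'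
    have h1 := hsep x hx hx'
    rcases le_total 0 (⟪e, x⟫ - c) with h | h
    · rw [abs_of_nonneg h] at h1
      exact exp_osT_one (osT_one hη (by linarith))
    · rw [abs_of_nonpos h] at h1
      exact exp_osT_zero (osT_zero hη (by linarith))
  have huc : ContinuousOn u Ω := by
    have e1 : Ω = (Ω ∩ {x | 1 / 2 ≤ κ (hpr e x)}) ∪ (Ω ∩ {x | κ (hpr e x) ≤ 1 / 2}) := by
      rw [← inter_union_distrib_left]
      ext x
      simp only [mem_inter_iff, mem_union, mem_setOf_eq]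
      exact ⟨fun h => ⟨h, le_total _ _⟩, fun h => h.1⟩
    rw [e1]
    refine ContinuousOn.union_of_isClosed ?_ ?_
      (hΩc.isClosed.inter (isClosed_le continuous_const hκc))
      (hΩc.isClosed.inter (isClosed_le hκc continuous_const))
    · refine hwc.continuousOn.congr ?_
      rintro x ⟨-, hx⟩
      have hx' : 1 / 2 ≤ κ (hpr e x) := hx
      simp only [hu]
      rw [if_pos hx']
    · refine (continuousOn_const (c := (1 : ℂ))).congr ?_
      rintro x ⟨hx, hx'⟩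
      have hx2 : κ (hpr e x) ≤ 1 / 2 := hx'
      simp only [hu]
      split_ifs with h
      · exact hmid x hx (le_antisymm hx2 h)
      · rfl
  have hun : ∀ x ∈ Ω, ‖u x‖ = 1 := by
    intro x _
    simp only [hu]
    split_ifs
    · exact Complex.norm_exp_ofReal_mul_I _
    · exact norm_one
  obtain ⟨v, hv, huv⟩ := hl ρ hρ3 u huc hun
  have hup' := hup ρ hρ1 (c + η) (by linarith) (by linarith)
  have hdn' := hdn ρ hρ2 (c - η) (by linarith) (by linarith)
  -- norms on the segments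
  have hnorm : ∀ y : (ℝ ∙ e)ᗮ, ‖y‖ ≤ ‖yA‖ + ‖yB‖ → ∀ h : ℝ, |h - c| ≤ η →
      ‖(y : V) + h • e‖ ≤ ρ := by
    intro y hy h hh
    have h1 : ‖(y : V) + h • e‖ ≤ ‖y‖ + |h| := by
      refine (norm_add_le _ _).trans ?_
      rw [norm_smul, he, mul_one, Real.norm_eq_abs]
      exact le_rfl
    have h2 : |h| ≤ |c| + η := by
      have h3 := abs_add_le (h - c) c
      rw [sub_add_cancel] at h3
      linarith
    linarith
  have hsegΩ : ∀ y : (ℝ ∙ e)ᗮ, ‖y‖ ≤ ‖yA‖ + ‖yB‖ → (∀ h : ℝ, |h - c| ≤ η → 0 < f ((y : V) + h • e)) →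
      ∀ h : ℝ, |h - c| ≤ η → (y : V) + h • e ∈ Ω :=
    fun y hy hp h hh => ⟨(hp h hh).le, hnorm y hy h hh⟩
  have hmA := hsegΩ yA (by linarith [norm_nonneg yB]) (fun h hh => hsA h (hh.trans hηA'))
  have hmB := hsegΩ yB (by linarith [norm_nonneg yA]) (fun h hh => hsB h (hh.trans hηB'))
  have hcplus : |c + η - c| ≤ η := by
    rw [add_sub_cancel_left, abs_of_pos hη]
  have hcminus : |c - η - c| ≤ η := by
    rw [sub_sub_cancel_left, abs_neg, abs_of_pos hη]
  have hI : IsPreconnected (Icc (c - η) (c + η)) := isPreconnected_Icc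
  have hIabs : ∀ h ∈ Icc (c - η) (c + η), |h - c| ≤ η := by
    intro h hh
    rw [abs_le]
    exact ⟨by linarith [hh.1], by linarith [hh.2]⟩
  have hvseg : ∀ y : (ℝ ∙ e)ᗮ, (∀ h : ℝ, |h - c| ≤ η → (y : V) + h • e ∈ Ω) →
      ContinuousOn (fun h : ℝ => v ((y : V) + h • e)) (Icc (c - η) (c + η)) := by
    intro y hy
    refine hv.comp ?_ ?_
    · fun_prop
    · intro h hh
      exact hy h (hIabs h hh)
  -- segment over A
  have hA : v ((yA : V) + (c - η) • e) = v ((yA : V) + (c + η) • e) := by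
    refine OutSlice_const' hI (hvseg yA hmA) ?_ (left_mem_Icc.2 (by linarith))
      (right_mem_Icc.2 (by linarith))
    intro h hh
    rw [← huv _ (hmA h (hIabs h hh))]
    simp only [hu]
    rw [hpr_coe he, hκA ⟨hyA0.le, hyA⟩, if_neg]
    simp only [Pi.zero_apply, not_le]
    norm_num
  -- segment over B
  have hB : v ((yB : V) + (c - η) • e) - 2 * Real.pi * osT e c η ((yB : V) + (c - η) • e) =
      v ((yB : V) + (c + η) • e) - 2 * Real.pi * osT e c η ((yB : V) + (c + η) • e) := by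
    refine OutSlice_const' hI (f := fun h : ℝ => v ((yB : V) + h • e) -
      2 * Real.pi * osT e c η ((yB : V) + h • e)) ?_ ?_ (left_mem_Icc.2 (by linarith))
      (right_mem_Icc.2 (by linarith))
    · refine (hvseg yB hmB).sub ?_
      have := osT_cont e c η
      fun_prop
    · intro h hh
      have h1 := huv _ (hmB h (hIabs h hh))
      simp only [hu] at h1
      rw [hpr_coe he, hκB ⟨hyB0.le, hyB⟩, if_pos (by simp only [Pi.one_apply]; norm_num)] at h1
      simp only [hw] at h1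
      push_cast at h1 ⊢
      rw [sub_mul, Complex.exp_sub, ← h1, div_self (Complex.exp_ne_zero _)]
  rw [osT_zero hη (by rw [inner_hpr he]), osT_one hη (by rw [inner_hpr he])] at hB
  -- upper and lower parts
  have hU : v ((yA : V) + (c + η) • e) = v ((yB : V) + (c + η) • e) := by
    refine OutSlice_const' hup' (hv.mono fun x hx => ⟨hx.1, hx.2.1⟩) ?_ ?_ ?_
    · intro x hx
      rw [← huv x ⟨hx.1, hx.2.1⟩]
      simp only [hu]
      split_ifs
      · exact exp_osT_one (osT_one hη hx.2.2)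
      · rfl
    · exact ⟨(hmA _ hcplus).1, (hmA _ hcplus).2, by rw [inner_hpr he]⟩
    · exact ⟨(hmB _ hcplus).1, (hmB _ hcplus).2, by rw [inner_hpr he]⟩
  have hL : v ((yA : V) + (c - η) • e) = v ((yB : V) + (c - η) • e) := by
    refine OutSlice_const' hdn' (hv.mono fun x hx => ⟨hx.1, hx.2.1⟩) ?_ ?_ ?_
    · intro x hx
      rw [← huv x ⟨hx.1, hx.2.1⟩]
      simp only [hu]
      split_ifs
      · exact exp_osT_zero (osT_zero hη hx.2.2)
      · rfl
    · exact ⟨(hmA _ hcminus).1, (hmA _ hcminus).2, by rw [inner_hpr he]⟩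
    · exact ⟨(hmB _ hcminus).1, (hmB _ hcminus).2, by rw [inner_hpr he]⟩
  have hpi := Real.pi_pos
  linarith

end Pool.Schoen
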