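import Pool.Agent.H.MP_6c077c_gt.Al.Compl

/-! Guard theorem, four guards: the complement of a part is connected. -/

set_option autoImplicit false

namespace Pool.Schoen

open Filter Set Metric
open scoped Topology RealInnerProductSpace ContDiff

variable {V : Type*} [NormedAddCommGroup V] [InnerProductSpace ℝ V] [FiniteDimensional ℝ V]

theorem PartOut_sub {K G : V → ℝ} (hK : Good K) (hGc : Continuous G)
    (hle : ∀ y, G y ≤ 0 → K y ≤ 0) {y : V} (hy : 0 ≤ K y) : 0 ≤ G y := by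
  by_contra hlt
  push Not at hlt
  have h0 : K y = 0 := le_antisymm (hle y hlt.le) hy
  obtain ⟨z, hz1, hz2⟩ := mem_closure_iff_nhds.1 (hK.zero_closure h0) {z | G z < 0}
    ((isOpen_lt hGc continuous_const).mem_nhds hlt)
  have h1 : 0 < K z := hz2
  have h2 : G z < 0 := hz1
  linarith [hle z h2.le]

theorem PartOut_aux {K G : V → ℝ} (hK : Good K) (hGc : Continuous G)
    (hz : ∀ y, G y = 0 → K y = 0) {t t' : Set V}
    (ht : IsClosed t) (ht' : IsClosed t') (hcov : {y | 0 ≤ G y} ⊆ t ∪ t')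
    (hdis : ¬ ({y | 0 ≤ G y} ∩ (t ∩ t')).Nonempty) (hne' : ({y | 0 ≤ G y} ∩ t').Nonempty)
    (hKne : ∃ y, 0 ≤ K y) (hKt : ∀ y, 0 ≤ K y → y ∉ t') : False := by
  have hclosed : IsClosed ({y | 0 ≤ G y} ∩ t') := (isClosed_le continuous_const hGc).inter ht'
  have hopen : IsOpen ({y | 0 ≤ G y} ∩ t') := by
    rw [isOpen_iff_mem_nhds]
    rintro y ⟨hy, hyt'⟩
    have hyG : 0 ≤ G y := hy
    have h1 : 0 < G y := by
      rcases hyG.eq_or_lt with h | h
      · exact absurd hyt' (hKt y (hz y h.symm).symm.le)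
      · exact h
    have hyt : y ∉ t := fun h => hdis ⟨y, hy, h, hyt'⟩
    filter_upwards [(isOpen_lt continuous_const hGc).mem_nhds h1, ht.isOpen_compl.mem_nhds hyt]
      with z hz1 hz2
    have hz3 : 0 < G z := hz1
    rcases hcov (show 0 ≤ G z from hz3.le) with h | h
    · exact absurd h hz2
    · exact ⟨hz3.le, h⟩
  have huniv : ({y | 0 ≤ G y} ∩ t') = univ := IsClopen.eq_univ ⟨hclosed, hopen⟩ hne'
  obtain ⟨y, hy⟩ := hKne
  have : y ∈ ({y | 0 ≤ G y} ∩ t') := by
    rw [huniv]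
    trivial
  exact hKt y hy this.2

/-- If the complement of a body is connected, so is the complement of a union of components. -/
theorem part_out (hdim : 1 ≤ Module.finrank ℝ V) {K G : V → ℝ} (hK : Good K)
    (hKb : Bornology.IsBounded {y | K y ≤ 0}) (hG : Good G)
    (hz : ∀ y, G y = 0 → K y = 0) (hle : ∀ y, G y ≤ 0 → K y ≤ 0)
    (hS : IsPreconnected {y | 0 ≤ K y}) : IsPreconnected {y | 0 < G y} := by
  have hnt : Nontrivial V := Module.nontrivial_of_finrank_pos (R := ℝ) (by omega)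
  have hKne : ∃ y, 0 ≤ K y := by
    by_contra hcon
    push Not at hcon
    refine NormedSpace.unbounded_univ ℝ V (hKb.subset fun x _ => (hcon x).le)
  refine hG.open_compl ?_
  rw [isPreconnected_closed_iff]
  intro t t' ht ht' hcov hne hne'
  by_contra hdis
  have hsub : {y | 0 ≤ K y} ⊆ {y | 0 ≤ G y} := fun y hy => PartOut_sub hK hG.cont hle hy
  rw [isPreconnected_closed_iff] at hS
  by_cases h1 : ({y | 0 ≤ K y} ∩ t).Nonempty
  · by_cases h2 : ({y | 0 ≤ K y} ∩ t').Nonempty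
    · obtain ⟨y, hy, hyt⟩ := hS t t' ht ht' (hsub.trans hcov) h1 h2
      exact hdis ⟨y, hsub hy, hyt⟩
    · exact PartOut_aux hK hG.cont hz ht ht' hcov hdis hne' hKne
        (fun y hy hyt => h2 ⟨y, hy, hyt⟩)
  · exact PartOut_aux hK hG.cont hz ht' ht (by rwa [union_comm]) (by rwa [inter_comm t' t]) hne
      hKne (fun y hy hyt => h1 ⟨y, hy, hyt⟩)

end Pool.Schoen
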