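import Pool.Agent.H.MP_6c077c_gt.Gd.Defs

/-! Guard theorem (helper80): the part of the complement of the body in a large ball above the
level `c` is connected (every point other than the top of the ball is a limit of higher points). -/

set_option autoImplicit false

namespace Pool.Schoen

open Filter Set
open scoped Topology RealInnerProductSpace ContDiff

variable {V : Type*} [NormedAddCommGroup V] [InnerProductSpace ℝ V]

/-- A compact set in which every point other than `m` is a limit of higher points of the set is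
preconnected. -/
theorem gd_up_pre {X : Type*} [TopologicalSpace X] {K : Set X} (hK : IsCompact K)
    {h : X → ℝ} (hh : Continuous h) {m : X}
    (hup : ∀ x ∈ K, x ≠ m → ∃ᶠ y in 𝓝 x, y ∈ K ∧ h x < h y) : IsPreconnected K := by
  rw [isPreconnected_closed_iff]
  intro A B hA hB hAB hKA hKB
  by_contra hne
  rw [Set.not_nonempty_iff_eq_empty] at hne
  have key : ∀ C D : Set X, IsClosed C → IsClosed D → K ⊆ C ∪ D → K ∩ (C ∩ D) = ∅ →
      (K ∩ C).Nonempty → m ∈ K ∩ C := by
    intro C D hC hD hCD hemp hKC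
    obtain ⟨x, hx, hmax⟩ := (hK.inter_right hC).exists_isMaxOn hKC hh.continuousOn
    by_cases hxm : x = m
    · rw [← hxm]; exact hx
    · exfalso
      have hxD : x ∉ D := fun hxD => by
        have : x ∈ K ∩ (C ∩ D) := ⟨hx.1, hx.2, hxD⟩
        rw [hemp] at this
        exact this
      have hev : ∀ᶠ y in 𝓝 x, y ∉ D := hD.isOpen_compl.mem_nhds hxD
      obtain ⟨y, ⟨hyK, hyh⟩, hyD⟩ := ((hup x hx.1 hxm).and_eventually hev).exists
      have hyC : y ∈ C := by
        rcases hCD hyK with h1 | h1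
        · exact h1
        · exact absurd h1 hyD
      exact absurd (hmax (⟨hyK, hyC⟩ : y ∈ K ∩ C)) (not_le.2 hyh)
  have h1 := key A B hA hB hAB hne hKA
  have h2 := key B A hB hA (by rwa [Set.union_comm]) (by rwa [Set.inter_comm B A]) hKB
  have : m ∈ K ∩ (A ∩ B) := ⟨h1.1, h1.2, h2.2⟩
  rw [hne] at this
  exact this

/-- At an inward point of index at most one the complement of the body contains points which are
near to the point and higher. -/
theorem gd_up_inw [FiniteDimensional ℝ V] (hdim : 3 ≤ Module.finrank ℝ V) {f : V → ℝ} {e : V}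
    (he : ‖e‖ = 1) {x : V} (hx : Inw f e x) :
    ∃ γ : ℝ → V, Tendsto γ (𝓝[>] (0 : ℝ)) (𝓝 x) ∧
      ∀ᶠ s in 𝓝[>] (0 : ℝ), 0 ≤ f (γ s) ∧ ⟪e, x⟫ < ⟪e, γ s⟫ := by
  obtain ⟨hsm, hz, ⟨μ, hμ, hgr⟩, hind⟩ := hx
  -- a positive direction
  have hw : ∃ w : V, ⟪e, w⟫ = 0 ∧ 0 < hess f x w w := by
    have hex : ∀ u : V, ∃ w : V, ⟪e, w⟫ = 0 ∧ ⟪u, w⟫ = 0 ∧ w ≠ 0 := by
      classical
      intro u
      have hlt : Module.finrank ℝ (Submodule.span ℝ ((({e, u} : Finset V) : Set V))) <
          Module.finrank ℝ V := by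
        have h1 := finrank_span_finset_le_card (R := ℝ) ({e, u} : Finset V)
        have h2 : ({e, u} : Finset V).card ≤ 2 := Finset.card_le_two
        have h3 : Module.finrank ℝ (Submodule.span ℝ ((({e, u} : Finset V) : Set V))) ≤
          ({e, u} : Finset V).card := h1
        omega
      have hne : (Submodule.span ℝ ((({e, u} : Finset V) : Set V)))ᗮ ≠ ⊥ := by
        intro hbot
        rw [Submodule.orthogonal_eq_bot_iff] at hbot
        rw [hbot, finrank_top] at hlt
        exact lt_irrefl _ hlt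
      obtain ⟨w, hwS, hw0⟩ := Submodule.exists_mem_ne_zero_of_ne_bot hne
      rw [Submodule.mem_orthogonal] at hwS
      exact ⟨w, hwS e (Submodule.subset_span (by simp)), hwS u (Submodule.subset_span (by simp)),
        hw0⟩
    rcases hind with h1 | ⟨u, -, -, -, -, h1⟩
    · obtain ⟨w, hw1, -, hw3⟩ := hex e
      exact ⟨w, hw1, h1 w hw1 hw3⟩
    · obtain ⟨w, hw1, hw2, hw3⟩ := hex u
      exact ⟨w, hw1, h1 w hw1 hw2 hw3⟩
  obtain ⟨w, hw0, hwpos⟩ := hw
  set κ : ℝ := hess f x w w / (4 * μ) with hκ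
  have hκpos : 0 < κ := by positivity
  set γ : ℝ → V := fun s => x + (s • w + (κ * s ^ 2) • e) with hγ
  have hγ0 : γ 0 = x := by simp [hγ]
  have hγd : ∀ s, HasDerivAt γ (w + (2 * κ * s) • e) s := by
    intro s
    have h1 : HasDerivAt (fun s : ℝ => s • w) ((1 : ℝ) • w) s := (hasDerivAt_id s).smul_const w
    have h2 : HasDerivAt (fun s : ℝ => (κ * s ^ 2) • e) ((κ * (2 * s)) • e) s := by
      have h3 : HasDerivAt (fun s : ℝ => κ * s ^ 2) (κ * (2 * s)) s := by
        have h4 := (hasDerivAt_pow 2 s).const_mul κ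
        simpa using h4
      exact h3.smul_const e
    have h5 := (h1.add h2).const_add x
    have h6 : (1 : ℝ) • w + (κ * (2 * s)) • e = w + (2 * κ * s) • e := by
      rw [one_smul]; congr 2; ring
    rw [h6] at h5
    exact h5
  have hγc : Continuous γ := continuous_iff_continuousAt.2 fun s => (hγd s).continuousAt
  have hγt : Tendsto γ (𝓝 0) (𝓝 x) := by
    have := hγc.tendsto 0
    rwa [hγ0] at this
  -- differentiability near x
  have hev : ∀ᶠ y in 𝓝 x, DifferentiableAt ℝ f y := by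
    have h1 : ∀ᶠ y in 𝓝 x, ContDiffAt ℝ 2 f y := hsm.eventually (by simp)
    filter_upwards [h1] with y hy
    exact hy.differentiableAt (by norm_num)
  have hd2 : DifferentiableAt ℝ (fderiv ℝ f) x := by
    have h1 : ContDiffAt ℝ 1 (fderiv ℝ f) x := hsm.fderiv_right (by norm_num)
    exact h1.differentiableAt (by norm_num)
  set φ : ℝ → ℝ := fun s => f (γ s) with hφ
  have hφd : ∀ᶠ s in 𝓝 (0 : ℝ), HasDerivAt φ (fderiv ℝ f (γ s) (w + (2 * κ * s) • e)) s := by
    filter_upwards [hγt.eventually hev] with s hs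
    exact hs.hasFDerivAt.comp_hasDerivAt s (hγd s)
  have hφ1 : deriv φ =ᶠ[𝓝 0] fun s => fderiv ℝ f (γ s) (w + (2 * κ * s) • e) := by
    filter_upwards [hφd] with s hs
    exact hs.deriv
  have hφ2 : deriv (deriv φ) 0 = hess f x w w / 2 := by
    have h1 : HasDerivAt (fun s => fderiv ℝ f (γ s)) (fderiv ℝ (fderiv ℝ f) x w) 0 := by
      have h2 : HasFDerivAt (fderiv ℝ f) (fderiv ℝ (fderiv ℝ f) x) (γ 0) := by
        rw [hγ0]; exact hd2.hasFDerivAt
      have h3 := h2.comp_hasDerivAt 0 (hγd 0)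
      have h4 : w + (2 * κ * 0) • e = w := by simp
      rw [h4] at h3
      exact h3
    have h5 : HasDerivAt (fun s : ℝ => w + (2 * κ * s) • e) ((2 * κ) • e) 0 := by
      have h6 : HasDerivAt (fun s : ℝ => 2 * κ * s) (2 * κ) 0 := by
        have := (hasDerivAt_id (0 : ℝ)).const_mul (2 * κ)
        simpa using this
      exact (h6.smul_const e).const_add w
    have h7 := h1.clm_apply h5
    rw [hφ1.deriv_eq, h7.deriv]
    have h8 : w + (2 * κ * 0) • e = w := by simp
    rw [h8, hγ0]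
    rw [hgr, inner_smul_right, real_inner_self_eq_norm_sq, he]
    change hess f x w w + _ = _
    have h9 : μ * κ = hess f x w w / 4 := by
      rw [hκ]; field_simp
    have : -(μ * (2 * κ * 1 ^ 2)) = -(2 * (μ * κ)) := by ring
    rw [this, h9]; ring
  have hφ0 : deriv φ 0 = 0 := by
    rw [hφ1.eq_of_nhds]
    have h8 : w + (2 * κ * 0) • e = w := by simp
    rw [h8, hγ0, hgr, hw0]; simp
  have hφc : ContinuousAt φ 0 := by
    have h1 : ContinuousAt f (γ 0) := by
      rw [hγ0]; exact hsm.continuousAt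
    exact h1.comp hγc.continuousAt
  have hmin : IsLocalMin φ 0 :=
    isLocalMin_of_deriv_deriv_pos (by rw [hφ2]; linarith) hφ0 hφc
  refine ⟨γ, hγt.mono_left nhdsWithin_le_nhds, ?_⟩
  have hmin' : ∀ᶠ s in 𝓝[>] (0 : ℝ), φ 0 ≤ φ s := hmin.filter_mono nhdsWithin_le_nhds
  filter_upwards [hmin', self_mem_nhdsWithin] with s hs hs0
  have hs0' : (0 : ℝ) < s := hs0
  refine ⟨?_, ?_⟩
  · have h1 : φ 0 = 0 := by simp only [hφ, hγ0, hz]
    rw [h1] at hs
    exact hs
  · have h1 : ⟪e, γ s⟫ = ⟪e, x⟫ + κ * s ^ 2 := by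
      simp only [hγ, inner_add_right, inner_smul_right, hw0, real_inner_self_eq_norm_sq, he]
      ring
    rw [h1]
    have : 0 < κ * s ^ 2 := by positivity
    linarith

/-- The part of the complement of the body in the ball of radius `ρ` above the level `c` is
connected. -/
theorem gd_upper_conn [FiniteDimensional ℝ V] (hdim : 3 ≤ Module.finrank ℝ V) {f : V → ℝ}
    (hfc : Continuous f) {e : V} (he : ‖e‖ = 1) {a b c ρ : ℝ} {P Q : Finset V}
    (hf : Two f e a b P Q) (hc : a ≤ c) (hcρ : -ρ < c) (hρ : ∀ x, f x ≤ 0 → ‖x‖ < ρ) :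
    IsPreconnected {x | 0 ≤ f x ∧ ‖x‖ ≤ ρ ∧ c ≤ ⟪e, x⟫} := by
  rcases lt_or_ge ρ c with hρc | hρc
  · -- the set is empty
    have : {x : V | 0 ≤ f x ∧ ‖x‖ ≤ ρ ∧ c ≤ ⟪e, x⟫} = ∅ := by
      ext x
      simp only [Set.mem_ofPred_eq, Set.mem_empty_iff_false, iff_false]
      rintro ⟨-, h1, h2⟩
      have h3 : ⟪e, x⟫ ≤ ‖e‖ * ‖x‖ := real_inner_le_norm e x
      rw [he, one_mul] at h3
      linarith
    rw [this]
    exact isPreconnected_empty
  have hρ0 : 0 < ρ := by linarith
  have hcl : IsClosed {x : V | 0 ≤ f x ∧ ‖x‖ ≤ ρ ∧ c ≤ ⟪e, x⟫} := by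
    have h1 : IsClosed {x : V | 0 ≤ f x} := isClosed_le continuous_const hfc
    have h2 : IsClosed {x : V | ‖x‖ ≤ ρ} := isClosed_le continuous_norm continuous_const
    have h3 : IsClosed {x : V | c ≤ ⟪e, x⟫} :=
      isClosed_le continuous_const (continuous_const.inner continuous_id)
    exact h1.inter (h2.inter h3)
  have hcp : IsCompact {x : V | 0 ≤ f x ∧ ‖x‖ ≤ ρ ∧ c ≤ ⟪e, x⟫} := by
    refine Metric.isCompact_of_isClosed_isBounded hcl ?_
    refine (Metric.isBounded_closedBall (x := (0 : V)) (r := ρ)).subset ?_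
    intro x hx
    rw [mem_closedBall_zero_iff]
    exact hx.2.1
  refine gd_up_pre hcp (h := fun x => ⟪e, x⟫) (continuous_const.inner continuous_id)
    (m := ρ • e) ?_
  rintro x ⟨hx0, hxρ, hxc⟩ hxm
  -- it suffices to have a curve
  suffices hs : ∃ γ : ℝ → V, Tendsto γ (𝓝[>] (0 : ℝ)) (𝓝 x) ∧
      ∀ᶠ s in 𝓝[>] (0 : ℝ), 0 ≤ f (γ s) ∧ ‖γ s‖ ≤ ρ ∧ ⟪e, x⟫ < ⟪e, γ s⟫ by
    obtain ⟨γ, hγ, hev⟩ := hs
    refine hγ.frequently ?_
    refine (hev.mono fun s hs => ?_).frequently
    exact ⟨⟨hs.1, hs.2.1, by linarith [hs.2.2]⟩, hs.2.2⟩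
  rcases hxρ.lt_or_eq with hlt | heq
  · -- interior points
    have hin : ∀ γ : ℝ → V, Tendsto γ (𝓝[>] (0 : ℝ)) (𝓝 x) →
        ∀ᶠ s in 𝓝[>] (0 : ℝ), ‖γ s‖ ≤ ρ := by
      intro γ hγ
      have : Tendsto (fun s => ‖γ s‖) (𝓝[>] (0 : ℝ)) (𝓝 ‖x‖) := hγ.norm
      filter_upwards [this.eventually (eventually_lt_nhds hlt)] with s hs
      exact hs.le
    rcases hx0.lt_or_eq with hpos | hzero
    · -- positive value
      have hγt : Tendsto (fun s : ℝ => x + s • e) (𝓝[>] (0 : ℝ)) (𝓝 x) := by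
        have h1 : Continuous (fun s : ℝ => x + s • e) := by fun_prop
        have h2 := h1.tendsto 0
        simp only [zero_smul, add_zero] at h2
        exact h2.mono_left nhdsWithin_le_nhds
      refine ⟨_, hγt, ?_⟩
      have h3 : Tendsto (fun s : ℝ => f (x + s • e)) (𝓝[>] (0 : ℝ)) (𝓝 (f x)) :=
        (hfc.tendsto x).comp hγt
      filter_upwards [hin _ hγt, h3.eventually (eventually_gt_nhds hpos),
        self_mem_nhdsWithin] with s hs1 hs2 hs3
      have hs3' : (0 : ℝ) < s := hs3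
      refine ⟨hs2.le, hs1, ?_⟩
      rw [inner_add_right, inner_smul_right, real_inner_self_eq_norm_sq, he]
      linarith
    · by_cases hxP : x ∈ P
      · obtain ⟨γ, hγ, hev⟩ := gd_up_inw hdim he (hf.inwP x hxP)
        refine ⟨γ, hγ, ?_⟩
        filter_upwards [hev, hin γ hγ] with s h1 h2
        exact ⟨h1.1, h2, h1.2⟩
      · -- free point
        obtain ⟨v, ⟨κ, hκ, hD⟩, hv⟩ := hf.freeP x hzero.symm (hc.trans hxc) hxP
        have hγt : Tendsto (fun s : ℝ => x - s • v) (𝓝[>] (0 : ℝ)) (𝓝 x) := by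
          have h1 : Continuous (fun s : ℝ => x - s • v) := by fun_prop
          have h2 := h1.tendsto 0
          simp only [zero_smul, sub_zero] at h2
          exact h2.mono_left nhdsWithin_le_nhds
        refine ⟨_, hγt, ?_⟩
        have hT : Tendsto (fun s : ℝ => (((), (x - s • v, (v, s))) : Unit × (V × (V × ℝ))))
            (𝓝[>] (0 : ℝ)) ((⊤ : Filter Unit) ×ˢ (𝓝 x ×ˢ (𝓝 v ×ˢ 𝓝[>] (0 : ℝ)))) :=
          tendsto_top.prodMk (hγt.prodMk (tendsto_const_nhds.prodMk tendsto_id))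
        filter_upwards [hin _ hγt, hT.eventually hD, self_mem_nhdsWithin] with s hs1 hs2 hs3
        have hs3' : (0 : ℝ) < s := hs3
        refine ⟨?_, hs1, ?_⟩
        · simp only [sub_add_cancel] at hs2
          rw [← hzero] at hs2
          have : 0 < κ * s := by positivity
          linarith
        · rw [inner_sub_right, inner_smul_right]
          have : s * ⟪e, v⟫ < 0 := mul_neg_of_pos_of_neg hs3' hv
          linarith
  · -- the boundary sphere
    have hfx : 0 < f x := by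
      by_contra hle
      have := hρ x (not_lt.1 hle)
      linarith
    have hex : ⟪e, x⟫ < ρ := by
      have h1 : 0 < ‖x - ρ • e‖ := norm_pos_iff.2 (sub_ne_zero.2 hxm)
      have h2 : ‖x - ρ • e‖ ^ 2 = ‖x‖ ^ 2 - 2 * ⟪x, ρ • e⟫ + ‖ρ • e‖ ^ 2 := norm_sub_sq_real x _
      rw [inner_smul_right, norm_smul, he, real_inner_comm, heq, Real.norm_eq_abs,
        abs_of_pos hρ0] at h2
      have h3 : 0 < ‖x - ρ • e‖ ^ 2 := by positivity
      rw [h2] at h3
      have h4 : 0 < 2 * ρ * (ρ - ⟪e, x⟫) := by linarith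
      have h5 : 0 < ρ - ⟪e, x⟫ := by
        by_contra hneg
        have h6 : 2 * ρ * (ρ - ⟪e, x⟫) ≤ 0 :=
          mul_nonpos_of_nonneg_of_nonpos (by linarith) (not_lt.1 hneg)
        linarith
      linarith
    set w : V := e - ρ⁻¹ • x with hw
    have hew : 0 < ⟪e, w⟫ := by
      rw [hw, inner_sub_right, inner_smul_right, real_inner_self_eq_norm_sq, he]
      have h1 : ρ⁻¹ * ⟪e, x⟫ < ρ⁻¹ * ρ := mul_lt_mul_of_pos_left hex (inv_pos.2 hρ0)
      rw [inv_mul_cancel₀ hρ0.ne'] at h1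
      linarith
    have hxw : ⟪x, w⟫ < 0 := by
      rw [hw, inner_sub_right, inner_smul_right, real_inner_self_eq_norm_sq, heq,
        real_inner_comm]
      have h1 : ρ⁻¹ * ρ ^ 2 = ρ := by
        field_simp
      rw [h1]
      linarith
    have hγt : Tendsto (fun s : ℝ => x + s • w) (𝓝[>] (0 : ℝ)) (𝓝 x) := by
      have h1 : Continuous (fun s : ℝ => x + s • w) := by fun_prop
      have h2 := h1.tendsto 0
      simp only [zero_smul, add_zero] at h2
      exact h2.mono_left nhdsWithin_le_nhds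
    refine ⟨_, hγt, ?_⟩
    have h3 : Tendsto (fun s : ℝ => f (x + s • w)) (𝓝[>] (0 : ℝ)) (𝓝 (f x)) :=
      (hfc.tendsto x).comp hγt
    have h4 : Tendsto (fun s : ℝ => 2 * ⟪x, w⟫ + s * ‖w‖ ^ 2) (𝓝[>] (0 : ℝ))
        (𝓝 (2 * ⟪x, w⟫)) := by
      have h1 : Continuous (fun s : ℝ => 2 * ⟪x, w⟫ + s * ‖w‖ ^ 2) := by fun_prop
      have h2 := h1.tendsto 0
      simp only [zero_mul, add_zero] at h2
      exact h2.mono_left nhdsWithin_le_nhds
    filter_upwards [h3.eventually (eventually_gt_nhds hfx),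
      h4.eventually (eventually_lt_nhds (by linarith : 2 * ⟪x, w⟫ < 0)),
      self_mem_nhdsWithin] with s hs1 hs2 hs3
    have hs3' : (0 : ℝ) < s := hs3
    refine ⟨hs1.le, ?_, ?_⟩
    · have h5 : ‖x + s • w‖ ^ 2 = ρ ^ 2 + s * (2 * ⟪x, w⟫ + s * ‖w‖ ^ 2) := by
        rw [norm_add_sq_real, inner_smul_right, norm_smul, heq, mul_pow, Real.norm_eq_abs,
          sq_abs]
        ring
      have h6 : ‖x + s • w‖ ^ 2 ≤ ρ ^ 2 := by
        rw [h5]
        have : s * (2 * ⟪x, w⟫ + s * ‖w‖ ^ 2) < 0 := mul_neg_of_pos_of_neg hs3' hs2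
        linarith
      exact (sq_le_sq₀ (norm_nonneg _) hρ0.le).1 h6
    · rw [inner_add_right, inner_smul_right]
      have : 0 < s * ⟪e, w⟫ := mul_pos hs3' hew
      linarith

end Pool.Schoen
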