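import Pool.Agent.H.MP_6c077c_gt.Gd.Main
import Pool.Agent.H.MP_6c077c_gt.Gd.UpConn
import Pool.Agent.H.MP_6c077c_gt.Gd.OutSlice
import Pool.Agent.H.MP_6c077c_gt.Gd.PartOut
import Pool.Agent.H.MP_6c077c_gt.Hx.Out

/-! Guard theorem: four guards in dimension four, from Alexander's theorem. -/

set_option autoImplicit false

namespace Pool.Schoen

open Filter Set
open scoped Topology RealInnerProductSpace ContDiff

universe u

/-- The statement of Alexander's theorem for one space. -/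
def AlexStmt (E : Type u) [NormedAddCommGroup E] [InnerProductSpace ℝ E]
    [FiniteDimensional ℝ E] : Prop :=
  ∀ F : E → ℝ, Dom F → IsPreconnected {x | 0 < F x} → IsBall F

/-- The complement of the slice is connected. -/
theorem gd_slice_out {V : Type u} [NormedAddCommGroup V] [InnerProductSpace ℝ V]
    [FiniteDimensional ℝ V] (hdim : 3 ≤ Module.finrank ℝ V) {f : V → ℝ} (hfc : Continuous f)
    {e : V} (he : ‖e‖ = 1) {a b c : ℝ} {P Q : Finset V} (h1 : a < c) (h2 : c < b)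
    (hf : Two f e a b P Q)
    (hl : ∃ ρ₀ : ℝ, ∀ ρ, ρ₀ ≤ ρ → LiftS {x | 0 ≤ f x ∧ ‖x‖ ≤ ρ}) :
    IsPreconnected {y : (ℝ ∙ e)ᗮ | 0 ≤ slc f e c y} := by
  obtain ⟨R, hR⟩ := hf.bdd.exists_norm_le
  refine out_slice_aux hfc he (slice_good he h1 h2 hf).1 ?_ ?_ hl
  · refine ⟨|R| + |c| + 2, fun ρ hρ c' hc' hc'' => ?_⟩
    refine gd_upper_conn hdim hfc he hf (h1.le.trans hc') ?_ ?_
    · have := neg_abs_le c
      have := abs_nonneg R
      linarith
    · intro x hx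
      have h3 := hR x hx
      have := le_abs_self R
      have := abs_nonneg c
      linarith
  · refine ⟨|R| + |c| + 2, fun ρ hρ c' hc' hc'' => ?_⟩
    have h3 : IsPreconnected {x | 0 ≤ f x ∧ ‖x‖ ≤ ρ ∧ -c' ≤ ⟪-e, x⟫} := by
      refine gd_upper_conn hdim hfc (by rwa [norm_neg]) hf.flip (by linarith) ?_ ?_
      · have := le_abs_self c
        have := abs_nonneg R
        linarith
      · intro x hx
        have h3 := hR x hx
        have := le_abs_self R
        have := abs_nonneg c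
        linarith
    have h4 : {x : V | 0 ≤ f x ∧ ‖x‖ ≤ ρ ∧ ⟪e, x⟫ ≤ c'} =
        {x | 0 ≤ f x ∧ ‖x‖ ≤ ρ ∧ -c' ≤ ⟪-e, x⟫} := by
      ext x
      simp only [mem_setOf_eq, inner_neg_left, neg_le_neg_iff]
    rw [h4]
    exact h3

/-- Four guards in dimension four. -/
theorem guard3_ball {V : Type u} [NormedAddCommGroup V] [InnerProductSpace ℝ V]
    [FiniteDimensional ℝ V] (hdim : Module.finrank ℝ V = 4)
    (hA : ∀ e : V, ‖e‖ = 1 → AlexStmt (ℝ ∙ e)ᗮ) (F : V → ℝ) (hD : Dom F)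
    (hl : ∃ ρ₀ : ℝ, ∀ ρ, ρ₀ ≤ ρ → LiftS {x | 0 ≤ F x ∧ ‖x‖ ≤ ρ}) (hv : MVis F 3) : IsBall F := by
  obtain ⟨e, a, b, c, P, Q, he, h1, h2, hTwo, hno, hsv⟩ := exists_two 3 hdim F hD 3 le_rfl hv
  have he0 : e ≠ 0 := by
    intro h
    rw [h, norm_zero] at he
    exact zero_ne_one he
  have : Fact (Module.finrank ℝ V = 3 + 1) := ⟨hdim⟩
  have hdE : Module.finrank ℝ (ℝ ∙ e)ᗮ = 3 := Submodule.finrank_orthogonal_span_singleton he0
  have hS := gd_slice_out (by omega) hD.smooth.continuous he h1 h2 hTwo hl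
  obtain ⟨hKg, hKb⟩ := slice_good he h1 h2 hTwo
  refine two_sided he (h1.trans h2) hTwo hD.conn hD.lift ?_
  intro g hg hconn hlift hp
  refine part_ball F hD 3 he h1 h2 hno hsv ?_ g hg hconn hlift hp
  intro G hG _ hz hle
  refine hA e he G hG ?_
  refine part_out (by omega) hKg hKb ?_ (fun y hy => (hz y hy).self_of_nhds ▸ hy) hle hS
  exact good_of_regular hG.smooth (hG.bdd.subset fun x hx => le_of_eq hx)
    (fun x hx => Final_fderiv_ne (hG.reg x hx))

/-- Guard theorem, four guards. -/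
theorem guard3_carries {V : Type u} [NormedAddCommGroup V] [InnerProductSpace ℝ V]
    [FiniteDimensional ℝ V] (hdim : Module.finrank ℝ V = 4)
    (hA : ∀ e : V, ‖e‖ = 1 → AlexStmt (ℝ ∙ e)ᗮ) (F : V → ℝ) (hF : ContDiff ℝ ∞ F)
    (hb : Bornology.IsBounded {x | F x ≤ 0}) (hreg : ∀ x, F x = 0 → gradient F x ≠ 0)
    (hMc : IsConnected {x | F x = 0}) (hMl : LiftS {x | F x = 0}) (Q : Set V)
    (hQb : Bornology.IsBounded Q) (hQ : Module.finrank ℝ (vectorSpan ℝ Q) ≤ 3)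
    (hvis : ∀ x, F x = 0 → TwoNeg F x → ∃ q ∈ Q, 0 ≤ ⟪gradient F x, x - q⟫) :
    Carries {x : V | F x = 0} (Metric.sphere (0 : V) 1) := by
  obtain ⟨hc, hl⟩ := domain_top (by omega) F hF.continuous hb hMc hMl
  obtain ⟨G, hG, hFG, hGb, hGreg, hGv⟩ := outer 3 F hF hb hreg Q hQb hQ hvis
  have hD : Dom G := ⟨hG, hGb, hGreg, hFG.isConnected hb hc, hFG.liftS hb hl⟩
  obtain ⟨ρ₀, hO⟩ := out_hom hFG hb (out_top F hF.continuous hb hMc hMl)
  exact carries_of_isBall F hF (Hom.trans hFG (guard3_ball hdim hA G hD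
    ⟨ρ₀, fun ρ hρ => (hO ρ hρ).2⟩ hGv))

end Pool.Schoen
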