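import Pool.Agent.H.MP_6c077c_gt.Gd.Facing
import Pool.Agent.H.MP_6c077c_gt.IxB.Direction

/-! Nearly star-shaped hypersurfaces: the curvature of the points which are not seen. -/

set_option autoImplicit false

namespace Pool.Schoen

open Filter Set Metric MeasureTheory
open scoped Topology RealInnerProductSpace ContDiff ENNReal

universe u

section direction

variable {V : Type*} [NormedAddCommGroup V] [InnerProductSpace ℝ V] [FiniteDimensional ℝ V]
  [MeasurableSpace V] [BorelSpace V]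

/-- A pair of opposite normal directions which avoids the points of zero curvature and a set whose
curvature integral is less than half of the volume of the sphere. -/
theorem ns_direction (n : ℕ) (hn : Module.finrank ℝ V = n + 1) (F : V → ℝ) (hF : ContDiff ℝ ∞ F)
    (hreg : ∀ x, F x = 0 → gradient F x ≠ 0) (hK : IsCompact {x | F x = 0})
    (B : Set V) (hB : MeasurableSet B) (hBM : B ⊆ {x | F x = 0})
    (hint : 2 * ∫⁻ x in {x | x ∈ B ∧ gaussK F x ≠ 0}, ENNReal.ofReal |gaussK F x| ∂μH[(n : ℝ)] <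
      μH[(n : ℝ)] (sphere (0 : V) 1)) :
    ∃ e : V, ‖e‖ = 1 ∧ ∀ x, F x = 0 → (nrm F x = e ∨ nrm F x = -e) →
      gaussK F x ≠ 0 ∧ x ∉ B := by
  have hF2 : ContDiff ℝ 2 F := hF.of_le (by norm_cast)
  have hgc : ContinuousOn (gaussK F) {x | F x = 0} := fun x hx =>
    (gaussK_continuousAt F hF2 x (hreg x hx)).continuousWithinAt
  have hZ0 : IsClosed ({x | F x = 0} ∩ gaussK F ⁻¹' {0}) :=
    hgc.preimage_isClosed_of_isClosed hK.isClosed isClosed_singleton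
  obtain ⟨Z, hZ⟩ : ∃ Z, Z = B ∪ ({x | F x = 0} ∩ gaussK F ⁻¹' {0}) := ⟨_, rfl⟩
  have hZm : MeasurableSet Z := by
    rw [hZ]
    exact hB.union hZ0.measurableSet
  have hZM : Z ⊆ {x | F x = 0} := by
    rw [hZ]
    exact union_subset hBM inter_subset_left
  have h1 := area_le n hn F hF2 hreg hK Z hZm hZM
  have h2 : ∫⁻ x in Z, ENNReal.ofReal |gaussK F x| ∂μH[((n : ℕ) : ℝ)] ≤
      ∫⁻ x in {x | x ∈ B ∧ gaussK F x ≠ 0}, ENNReal.ofReal |gaussK F x| ∂μH[((n : ℕ) : ℝ)] := by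
    have e1 : ∫⁻ x in Z, ENNReal.ofReal |gaussK F x| ∂μH[((n : ℕ) : ℝ)] ≤
        ∫⁻ x in {x | x ∈ B ∧ gaussK F x ≠ 0}, ENNReal.ofReal |gaussK F x|
          ∂μH[((n : ℕ) : ℝ)] +
        ∫⁻ x in ({x | F x = 0} ∩ gaussK F ⁻¹' {0}), ENNReal.ofReal |gaussK F x|
          ∂μH[((n : ℕ) : ℝ)] := by
      refine le_trans (lintegral_mono_set ?_) (lintegral_union_le _ _ _)
      intro x hx
      by_cases h : x ∈ ({x | F x = 0} ∩ gaussK F ⁻¹' {0})
      · exact Or.inr h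
      · have hx0 : F x = 0 := hZM hx
        have hK0 : gaussK F x ≠ 0 := fun hk => h ⟨hx0, hk⟩
        rw [hZ] at hx
        rcases hx with hx | hx
        · exact Or.inl ⟨hx, hK0⟩
        · exact absurd hx h
    have e2 : ∫⁻ x in ({x | F x = 0} ∩ gaussK F ⁻¹' {0}), ENNReal.ofReal |gaussK F x|
          ∂μH[((n : ℕ) : ℝ)] = 0 := by
      have e3 : ∫⁻ x in ({x | F x = 0} ∩ gaussK F ⁻¹' {0}), ENNReal.ofReal |gaussK F x|
          ∂μH[((n : ℕ) : ℝ)] ≤ ∫⁻ x in ({x | F x = 0} ∩ gaussK F ⁻¹' {0}), 0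
          ∂μH[((n : ℕ) : ℝ)] := by
        refine setLIntegral_mono' hZ0.measurableSet ?_
        rintro x ⟨-, hx⟩
        have hx' : gaussK F x = 0 := hx
        rw [hx']
        simp
      simpa using e3
    rw [e2, add_zero] at e1
    exact e1
  have h3 : μH[((n : ℕ) : ℝ)] ((fun v : V => -v) '' (nrm F '' Z)) =
      μH[((n : ℕ) : ℝ)] (nrm F '' Z) :=
    (LinearIsometryEquiv.neg ℝ : V ≃ₗᵢ[ℝ] V).toIsometryEquiv.hausdorffMeasure_image _ _
  have h4 : μH[((n : ℕ) : ℝ)] (nrm F '' Z ∪ (fun v : V => -v) '' (nrm F '' Z)) <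
      μH[((n : ℕ) : ℝ)] (sphere (0 : V) 1) := by
    refine lt_of_le_of_lt ((measure_union_le _ _).trans ?_) hint
    rw [h3, ← two_mul]
    gcongr
    exact h1.trans h2
  have h5 : ∃ u ∈ sphere (0 : V) 1, u ∉ nrm F '' Z ∪ (fun v : V => -v) '' (nrm F '' Z) := by
    by_contra hcon
    push Not at hcon
    exact absurd (measure_mono (μ := μH[((n : ℕ) : ℝ)]) hcon) (not_le.2 h4)
  obtain ⟨e, he, heZ⟩ := h5
  refine ⟨e, by simpa using he, fun x hx hxe => ?_⟩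
  have hxZ : x ∉ Z := by
    intro h
    apply heZ
    rcases hxe with h6 | h6
    · exact Or.inl ⟨x, h, h6⟩
    · exact Or.inr ⟨nrm F x, ⟨x, h, rfl⟩, by beta_reduce; rw [h6, neg_neg]⟩
  rw [hZ] at hxZ
  exact ⟨fun h => hxZ (Or.inr ⟨hx, h⟩), fun h => hxZ (Or.inl h)⟩

/-- A direction without facing pairs in a closed set `C`, if a set `B` meets all the facing pairs of
`C` and has small curvature integral. -/
theorem ns_exists (n : ℕ) (hn : Module.finrank ℝ V = n + 1) (F : V → ℝ) (hF : ContDiff ℝ ∞ F)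
    (hreg : ∀ x, F x = 0 → gradient F x ≠ 0) (hK : IsCompact {x | F x = 0})
    (C : Set V) (hC : IsClosed C) (hCM : C ⊆ {x | F x = 0}) (B : Set V) (hB : MeasurableSet B)
    (hhit : ∀ x ∈ C, ∀ y ∈ C, gaussK F x ≠ 0 → gaussK F y ≠ 0 → nrm F x = -nrm F y →
      0 < ⟪nrm F y, x - y⟫ → x ∈ B ∨ y ∈ B)
    (hint : 2 * ∫⁻ x in {x | x ∈ C ∧ x ∈ B ∧ gaussK F x ≠ 0}, ENNReal.ofReal |gaussK F x|
      ∂μH[(n : ℝ)] < μH[(n : ℝ)] (sphere (0 : V) 1)) :
    ∃ e : V, ‖e‖ = 1 ∧ ∀ x ∈ C, ∀ y ∈ C, nrm F x = -e → nrm F y = e → ⟪e, x⟫ ≤ ⟪e, y⟫ := by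
  obtain ⟨e, he, hdir⟩ := ns_direction n hn F hF hreg hK (C ∩ B)
    (hC.measurableSet.inter hB) (fun x hx => hCM hx.1) (by
      have hsub : {x | x ∈ C ∩ B ∧ gaussK F x ≠ 0} ⊆ {x | x ∈ C ∧ x ∈ B ∧ gaussK F x ≠ 0} :=
        fun x hx => ⟨hx.1.1, hx.1.2, hx.2⟩
      refine lt_of_le_of_lt ?_ hint
      gcongr)
  refine ⟨e, he, fun x hx y hy hnx hny => ?_⟩
  obtain ⟨hKx, hxB⟩ := hdir x (hCM hx) (Or.inr hnx)
  obtain ⟨hKy, hyB⟩ := hdir y (hCM hy) (Or.inl hny)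
  by_contra hlt
  push Not at hlt
  have h1 := hhit x hx y hy hKx hKy (by rw [hnx, hny]) (by
    rw [hny, inner_sub_right]
    linarith)
  rcases h1 with h1 | h1
  · exact hxB ⟨hx, h1⟩
  · exact hyB ⟨hy, h1⟩

omit [MeasurableSpace V] [BorelSpace V] in
/-- The set where `⟪x, N⟫ ≤ c(N)`, `c` odd, meets all facing pairs. -/
theorem ns_odd (F : V → ℝ) (c : V → EReal) (hodd : ∀ u, ‖u‖ = 1 → c (-u) = -c u) {x y : V}
    (hy : gradient F y ≠ 0) (hxy : nrm F x = -nrm F y) (hpos : 0 < ⟪nrm F y, x - y⟫) :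
    x ∈ {x : V | ((⟪x, nrm F x⟫ : ℝ) : EReal) ≤ c (nrm F x)} ∨
      y ∈ {x : V | ((⟪x, nrm F x⟫ : ℝ) : EReal) ≤ c (nrm F x)} := by
  by_contra hcon
  push Not at hcon
  obtain ⟨h1, h2⟩ := hcon
  have h1' : c (nrm F x) < ((⟪x, nrm F x⟫ : ℝ) : EReal) := not_le.1 h1
  have h2' : c (nrm F y) < ((⟪y, nrm F y⟫ : ℝ) : EReal) := not_le.1 h2
  rw [hxy, hodd _ (norm_nrm F y hy), inner_neg_right, EReal.coe_neg,
    EReal.neg_lt_neg_iff] at h1'
  have h3 := h1'.trans h2'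
  rw [EReal.coe_lt_coe_iff] at h3
  rw [inner_sub_right] at hpos
  linarith [real_inner_comm x (nrm F y), real_inner_comm y (nrm F y)]

theorem ns_meas (F : V → ℝ) (hF : ContDiff ℝ ∞ F) (c : V → EReal) (hc : Measurable c) :
    MeasurableSet {x : V | ((⟪x, nrm F x⟫ : ℝ) : EReal) ≤ c (nrm F x)} := by
  have hg : Measurable (gradient F) :=
    ((InnerProductSpace.toDual ℝ V).symm.continuous.comp
      (hF.continuous_fderiv (by simp))).measurable
  have hnm : Measurable (nrm F) := hg.norm.inv.smul hg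
  exact measurableSet_le (measurable_coe_real_ereal.comp (measurable_id.inner hnm)) (hc.comp hnm)

end direction

section closed

variable {V : Type*} [NormedAddCommGroup V] [InnerProductSpace ℝ V] [FiniteDimensional ℝ V]

/-- Points with a two-dimensional space of tangent vectors on which the second derivative is
nonpositive. -/
def nsC (F : V → ℝ) : Set V :=
  {x | F x = 0 ∧ ∃ a b : V, ‖a‖ = 1 ∧ ‖b‖ = 1 ∧ ⟪a, b⟫ = 0 ∧ fderiv ℝ F x a = 0 ∧
    fderiv ℝ F x b = 0 ∧ ∀ s t : ℝ, fderiv ℝ (fderiv ℝ F) x (s • a + t • b) (s • a + t • b) ≤ 0}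

theorem nsC_closed (F : V → ℝ) (hF : ContDiff ℝ ∞ F) (hK : IsCompact {x | F x = 0}) :
    IsClosed (nsC F) := by
  have c1 : Continuous (fderiv ℝ F) := hF.continuous_fderiv (by simp)
  have c2 : Continuous (fderiv ℝ (fderiv ℝ F)) :=
    (hF.fderiv_right (m := ∞) (by simp)).continuous_fderiv (by simp)
  have hcl : IsClosed {p : V × (V × V) | F p.1 = 0 ∧ ‖p.2.1‖ = 1 ∧ ‖p.2.2‖ = 1 ∧
      ⟪p.2.1, p.2.2⟫ = 0 ∧ fderiv ℝ F p.1 p.2.1 = 0 ∧ fderiv ℝ F p.1 p.2.2 = 0 ∧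
      ∀ s t : ℝ, fderiv ℝ (fderiv ℝ F) p.1 (s • p.2.1 + t • p.2.2) (s • p.2.1 + t • p.2.2) ≤ 0} := by
    have k1 : IsClosed {p : V × (V × V) | F p.1 = 0} :=
      isClosed_eq (hF.continuous.comp continuous_fst) continuous_const
    have k2 : IsClosed {p : V × (V × V) | ‖p.2.1‖ = 1} :=
      isClosed_eq (continuous_fst.comp continuous_snd).norm continuous_const
    have k3 : IsClosed {p : V × (V × V) | ‖p.2.2‖ = 1} :=
      isClosed_eq (continuous_snd.comp continuous_snd).norm continuous_const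
    have k4 : IsClosed {p : V × (V × V) | ⟪p.2.1, p.2.2⟫ = 0} :=
      isClosed_eq ((continuous_fst.comp continuous_snd).inner (continuous_snd.comp continuous_snd))
        continuous_const
    have k5 : IsClosed {p : V × (V × V) | fderiv ℝ F p.1 p.2.1 = 0} :=
      isClosed_eq ((c1.comp continuous_fst).clm_apply (continuous_fst.comp continuous_snd))
        continuous_const
    have k6 : IsClosed {p : V × (V × V) | fderiv ℝ F p.1 p.2.2 = 0} :=
      isClosed_eq ((c1.comp continuous_fst).clm_apply (continuous_snd.comp continuous_snd))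
        continuous_const
    have k7 : IsClosed {p : V × (V × V) | ∀ s t : ℝ,
        fderiv ℝ (fderiv ℝ F) p.1 (s • p.2.1 + t • p.2.2) (s • p.2.1 + t • p.2.2) ≤ 0} := by
      simp only [ofPred_forall]
      refine isClosed_iInter fun s => isClosed_iInter fun t => isClosed_le ?_ continuous_const
      have c3 : Continuous fun p : V × (V × V) => s • p.2.1 + t • p.2.2 := by fun_prop
      exact ((c2.comp continuous_fst).clm_apply c3).clm_apply c3
    exact k1.inter (k2.inter (k3.inter (k4.inter (k5.inter (k6.inter k7)))))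
  have hcp : IsCompact {p : V × (V × V) | F p.1 = 0 ∧ ‖p.2.1‖ = 1 ∧ ‖p.2.2‖ = 1 ∧
      ⟪p.2.1, p.2.2⟫ = 0 ∧ fderiv ℝ F p.1 p.2.1 = 0 ∧ fderiv ℝ F p.1 p.2.2 = 0 ∧
      ∀ s t : ℝ, fderiv ℝ (fderiv ℝ F) p.1 (s • p.2.1 + t • p.2.2) (s • p.2.1 + t • p.2.2) ≤ 0} := by
    refine (hK.prod ((isCompact_sphere (0 : V) 1).prod
      (isCompact_sphere (0 : V) 1))).of_isClosed_subset hcl ?_
    rintro p ⟨h1, h2, h3, -⟩
    exact ⟨h1, mem_sphere_zero_iff_norm.2 h2, mem_sphere_zero_iff_norm.2 h3⟩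
  have h5 := (hcp.image continuous_fst).isClosed
  convert h5 using 1
  ext x
  constructor
  · rintro ⟨hx, a, b, h⟩
    exact ⟨(x, (a, b)), ⟨hx, h⟩, rfl⟩
  · rintro ⟨⟨y, ⟨a, b⟩⟩, ⟨hy, h⟩, rfl⟩
    exact ⟨hy, a, b, h⟩

theorem M2_subset_nsC (F : V → ℝ) : M2 F ⊆ nsC F := by
  rintro x ⟨hx, U, hU, hneg⟩
  have hle : ∀ u ∈ U, fderiv ℝ (fderiv ℝ F) x u u ≤ 0 := by
    intro u hu
    by_cases h0 : u = 0
    · rw [h0, map_zero]
    · exact (hneg u hu h0).2.le
  obtain ⟨v, hv⟩ : ∃ v : OrthonormalBasis (Fin 2) ℝ U, True :=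
    ⟨(stdOrthonormalBasis ℝ U).reindex (finCongr hU), trivial⟩
  have ho := v.orthonormal
  have h0 : ‖(v 0 : V)‖ = 1 := ho.1 0
  have h1 : ‖(v 1 : V)‖ = 1 := ho.1 1
  have h01 : ⟪(v 0 : V), (v 1 : V)⟫ = 0 := ho.2 (by simp)
  refine ⟨hx, v 0, v 1, h0, h1, h01, ?_, ?_, fun s t => ?_⟩
  · exact (hneg _ (v 0).2 (fun h => by rw [h, norm_zero] at h0; exact zero_ne_one h0)).1
  · exact (hneg _ (v 1).2 (fun h => by rw [h, norm_zero] at h1; exact zero_ne_one h1)).1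
  · exact hle _ (U.add_mem (U.smul_mem s (v 0).2) (U.smul_mem t (v 1).2))

/-- Where the curvature is not zero, there are two negative curvatures. -/
theorem two_le_nneg_of_nsC (n : ℕ) (hn : Module.finrank ℝ V = n + 1) (F : V → ℝ)
    (hF : ContDiff ℝ ∞ F) {x : V} (hx : x ∈ nsC F) (hg : gradient F x ≠ 0)
    (hK : gaussK F x ≠ 0) : 2 ≤ nneg F x := by
  obtain ⟨hx0, a, b, ha, hb, hab, hda, hdb, hle⟩ := hx
  have hnr : ‖nrm F x‖ = 1 := norm_nrm F x hg
  have he : ‖-nrm F x‖ = 1 := by rw [norm_neg, hnr]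
  have hI : Inward F (-nrm F x) x := by
    refine ⟨hx0, ‖gradient F x‖, norm_pos_iff.2 hg, ?_⟩
    rw [smul_neg, neg_neg, nrm, smul_smul, mul_inv_cancel₀ (norm_ne_zero_iff.2 hg), one_smul]
  obtain ⟨N, P, hS, hk⟩ := idx_of_gaussK n hn F hF _ he x hI hK
  rw [← hk]
  by_contra hcon
  push Not at hcon
  -- the two vectors are orthogonal to the normal
  have horth : ∀ w : V, fderiv ℝ F x w = 0 → ⟪w, -nrm F x⟫ = 0 := by
    intro w hw
    have h1 : ⟪gradient F x, w⟫ = 0 := by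
      rw [gradient, InnerProductSpace.toDual_symm_apply]
      exact hw
    rw [inner_neg_right, nrm, real_inner_smul_right, real_inner_comm, h1, mul_zero, neg_zero]
  have hind : ∀ s t : ℝ, s • a + t • b = 0 → s = 0 ∧ t = 0 := by
    intro s t h
    have e1 : ⟪a, s • a + t • b⟫ = s := by
      rw [inner_add_right, real_inner_smul_right, real_inner_smul_right, hab,
        real_inner_self_eq_norm_sq, ha]
      ring
    have e2 : ⟪b, s • a + t • b⟫ = t := by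
      rw [inner_add_right, real_inner_smul_right, real_inner_smul_right, real_inner_comm, hab,
        real_inner_self_eq_norm_sq, hb]
      ring
    rw [h, inner_zero_right] at e1 e2
    exact ⟨e1.symm, e2.symm⟩
  -- the projection to `N` has a kernel
  obtain ⟨f, hf⟩ : ∃ f : (Fin 2 → ℝ) →ₗ[ℝ] N, ∀ c, f c = N.orthogonalProjectionOnto
      (c 0 • a + c 1 • b) := by
    refine ⟨(N.orthogonalProjectionOnto : V →ₗ[ℝ] N) ∘ₗ
      ((LinearMap.proj 0).smulRight a + (LinearMap.proj 1).smulRight b), fun c => ?_⟩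
    simp
  have hker : LinearMap.ker f ≠ ⊥ := by
    refine LinearMap.ker_ne_bot_of_finrank_lt ?_
    rw [Module.finrank_fin_fun]
    exact hcon
  obtain ⟨c, hc, hc0⟩ := (Submodule.ne_bot_iff _).1 hker
  rw [LinearMap.mem_ker, hf] at hc
  have hw0 : c 0 • a + c 1 • b ≠ 0 := by
    intro h
    obtain ⟨h1, h2⟩ := hind _ _ h
    apply hc0
    funext i
    fin_cases i
    · exact h1
    · exact h2
  have hwe : ⟪c 0 • a + c 1 • b, -nrm F x⟫ = 0 := by
    refine horth _ ?_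
    rw [map_add, map_smul, map_smul, hda, hdb, smul_zero, smul_zero, add_zero]
  obtain ⟨p, hp, q, hq, hpq⟩ := hS.span _ hwe
  have hwN : c 0 • a + c 1 • b ∈ Nᗮ := by
    rwa [Submodule.orthogonalProjectionOnto_eq_zero_iff] at hc
  have hp0 : p = 0 := by
    have h1 : ⟪p, c 0 • a + c 1 • b⟫ = 0 := (Submodule.mem_orthogonal N _).1 hwN p hp
    rw [hpq, inner_add_right, hS.orth p hp q hq, add_zero, real_inner_self_eq_norm_sq] at h1
    exact norm_eq_zero.1 (pow_eq_zero_iff two_ne_zero |>.1 h1)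
  rw [hp0, zero_add] at hpq
  have h2 := hle (c 0) (c 1)
  rw [hpq] at h2 hw0
  have h3 := hS.pos q hq hw0
  linarith

end closed

/-- **Nearly star-shaped hypersurfaces**, general form: a set which meets all facing pairs. -/
theorem near_star_hit {V : Type u} [NormedAddCommGroup V] [InnerProductSpace ℝ V]
    [FiniteDimensional ℝ V] [MeasurableSpace V] [BorelSpace V] (hdim : Module.finrank ℝ V = 4)
    (hA : ∀ e : V, ‖e‖ = 1 → AlexStmt (ℝ ∙ e)ᗮ) (F : V → ℝ) (hF : ContDiff ℝ ∞ F)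
    (hb : Bornology.IsBounded {x | F x ≤ 0}) (hreg : ∀ x, F x = 0 → gradient F x ≠ 0)
    (hMc : IsConnected {x | F x = 0}) (hMl : LiftS {x | F x = 0})
    (B : Set V) (hB : MeasurableSet B)
    (hhit : ∀ x y, F x = 0 → F y = 0 → gaussK F x ≠ 0 → gaussK F y ≠ 0 → 2 ≤ nneg F x →
      2 ≤ nneg F y → nrm F x = -nrm F y → 0 < ⟪nrm F y, x - y⟫ → x ∈ B ∨ y ∈ B)
    (hint : 2 * ∫⁻ x in {x | F x = 0 ∧ 2 ≤ nneg F x ∧ x ∈ B},
      ENNReal.ofReal |gaussK F x| ∂μH[3] < μH[3] (sphere (0 : V) 1)) :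
    Carries {x : V | F x = 0} (sphere (0 : V) 1) := by
  have hK : IsCompact {x | F x = 0} := Final_compact hF.continuous hb
  have hCc := nsC_closed F hF hK
  have hnn : ∀ x ∈ nsC F, gaussK F x ≠ 0 → 2 ≤ nneg F x := fun x hx hK0 =>
    two_le_nneg_of_nsC 3 hdim F hF hx (hreg x hx.1) hK0
  have hsub : {x | x ∈ nsC F ∧ x ∈ B ∧ gaussK F x ≠ 0} ⊆ {x | F x = 0 ∧ 2 ≤ nneg F x ∧ x ∈ B} :=
    fun x hx => ⟨hx.1.1, hnn x hx.1 hx.2.2, hx.2.1⟩
  obtain ⟨e, he, hNF⟩ := ns_exists 3 hdim F hF hreg hK (nsC F) hCc (fun x hx => hx.1) B hB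
    (fun x hx y hy hKx hKy hxy hpos => hhit x y hx.1 hy.1 hKx hKy (hnn x hx hKx) (hnn y hy hKy)
      hxy hpos) (by
      refine lt_of_le_of_lt ?_ hint
      rw [Nat.cast_ofNat]
      gcongr)
  have hcl : closure (M2 F) ⊆ nsC F := closure_minimal (M2_subset_nsC F) hCc
  exact facing_carries hdim hA F hF hb hreg hMc hMl e he
    fun x hx y hy hnx hny => hNF x (hcl hx) y (hcl hy) hnx hny

/-- **Nearly star-shaped hypersurfaces.** -/
theorem near_star {V : Type u} [NormedAddCommGroup V] [InnerProductSpace ℝ V]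
    [FiniteDimensional ℝ V] [MeasurableSpace V] [BorelSpace V] (hdim : Module.finrank ℝ V = 4)
    (hA : ∀ e : V, ‖e‖ = 1 → AlexStmt (ℝ ∙ e)ᗮ) (F : V → ℝ) (hF : ContDiff ℝ ∞ F)
    (hb : Bornology.IsBounded {x | F x ≤ 0}) (hreg : ∀ x, F x = 0 → gradient F x ≠ 0)
    (hMc : IsConnected {x | F x = 0}) (hMl : LiftS {x | F x = 0})
    (c : V → EReal) (hc : Measurable c) (hodd : ∀ u, ‖u‖ = 1 → c (-u) = -c u)
    (hint : 2 * ∫⁻ x in {x | F x = 0 ∧ 2 ≤ nneg F x ∧ (⟪x, nrm F x⟫ : EReal) ≤ c (nrm F x)},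
      ENNReal.ofReal |gaussK F x| ∂μH[3] < μH[3] (sphere (0 : V) 1)) :
    Carries {x : V | F x = 0} (sphere (0 : V) 1) := by
  refine near_star_hit hdim hA F hF hb hreg hMc hMl _ (ns_meas F hF c hc) ?_ hint
  intro x y _ hy _ _ _ _ hxy hpos
  exact ns_odd F c hodd (hreg y hy) hxy hpos

end Pool.Schoen
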