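import Pool.Agent.H.MP_6c077c_gt.Gd.Defs
import Pool.Agent.H.MP_6c077c_gt.Ix.ModC

/-! Guard theorem: the model near an inward point in the relative class (copy of `Ix/ModC.lean`,
theorem `model`). -/

set_option autoImplicit false

namespace Pool.Schoen

open Filter Set
open scoped Topology RealInnerProductSpace ContDiff

variable {V : Type*} [NormedAddCommGroup V] [InnerProductSpace ℝ V] [FiniteDimensional ℝ V]

/-- PROOF. As `model`; the radius `r` is in addition chosen smaller than `⟪e, p⟫ - c`, so `g = f` near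
every point of height at most `c`. -/
theorem rmodel {f : V → ℝ} {e p : V} (he : ‖e‖ = 1) {c : ℝ} {P : Finset V} (hf : RClass f e c P)
    (hp : p ∈ P) :
    ∃ (g : V → ℝ) (μ r : ℝ), Hom f g ∧ RClass g e c P ∧ PartLow g f e c ∧
      ((∃ B : V →L[ℝ] V →L[ℝ] ℝ, Mod0 g e p B μ r) ∨
        ∃ (u : V) (B : V →L[ℝ] V →L[ℝ] ℝ) (a : ℝ), Mod1 g e u p B μ a r) := by
  classical
  have hin := hf.inw p hp
  obtain ⟨μ, hμ0, hμ⟩ := hin.grad
  obtain ⟨C, hC, hcut⟩ := cutoff_exists V p
  obtain ⟨r0, hr0, hzero⟩ := model_zero he hin hμ0 hμ C hC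
  obtain ⟨r1, hr1, hr1r0, hr1P⟩ : ∃ r : ℝ, 0 < r ∧ r < r0 ∧ ∀ q ∈ P, q ≠ p → r ≤ ‖q - p‖ := by
    have h1 : ∀ Q : Finset V, ∃ r : ℝ, 0 < r ∧ r < r0 ∧ ∀ q ∈ Q, q ≠ p → r ≤ ‖q - p‖ := by
      intro Q
      induction Q using Finset.induction_on with
      | empty => exact ⟨r0 / 2, by positivity, by linarith, fun q hq => by simp at hq⟩
      | insert a Q _ ih =>
        obtain ⟨r, hr, hr1, hr2⟩ := ih
        by_cases ha : a = p
        · refine ⟨r, hr, hr1, fun q hq hqp => ?_⟩
          rcases Finset.mem_insert.1 hq with h | h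
          · exact absurd (h.trans ha) hqp
          · exact hr2 q h hqp
        · have hpos : 0 < ‖a - p‖ := norm_pos_iff.2 (sub_ne_zero.2 ha)
          refine ⟨min r ‖a - p‖, lt_min hr hpos, lt_of_le_of_lt (min_le_left _ _) hr1,
            fun q hq hqp => ?_⟩
          rcases Finset.mem_insert.1 hq with h | h
          · rw [h]
            exact min_le_right _ _
          · exact (min_le_left _ _).trans (hr2 q h hqp)
    exact h1 P
  have hpc : 0 < ⟪e, p⟫ - c := by linarith [hf.high p hp]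
  obtain ⟨r, hr, hrr0, hrP, hrc⟩ : ∃ r : ℝ, 0 < r ∧ r < r0 ∧ (∀ q ∈ P, q ≠ p → r ≤ ‖q - p‖) ∧
      r ≤ ⟪e, p⟫ - c :=
    ⟨min r1 (⟪e, p⟫ - c), lt_min hr1 hpc, (min_le_left _ _).trans_lt hr1r0,
      fun q hq hqp => (min_le_left _ _).trans (hr1P q hq hqp), min_le_right _ _⟩
  have hlowout : ∀ x, ⟪e, x⟫ ≤ c → r ≤ ‖x - p‖ := by
    intro x hx
    have h1 := real_inner_le_norm e (p - x)
    rw [he, one_mul, inner_sub_right, norm_sub_rev] at h1
    linarith
  obtain ⟨hsm, hz⟩ := hzero r hr hrr0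
  obtain ⟨χ, hχ, hχ01, hχ1, hχ0, hχd⟩ := hcut r hr
  have hz' := hz χ hχ hχ01 hχd
  have hmi : ∀ t : ℝ, Inw (fun x => f x + t * (χ x * (mdl0 (fderiv ℝ (fderiv ℝ f) p) μ e p x - f x)))
      e p := by
    intro t
    refine model_inw he hin hμ0 hμ ?_ t
    filter_upwards [Metric.ball_mem_nhds p (show 0 < r / 4 by positivity)] with x hx
    apply hχ1
    rw [← dist_eq_norm]
    exact (Metric.mem_ball.1 hx).le
  have hcases := @model_cases V _ _ _ f (fun x => f x + 1 * (χ x *
    (mdl0 (fderiv ℝ (fderiv ℝ f) p) μ e p x - f x))) e p he hin μ (r / 4) hμ0 (by positivity)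
    (fun x hx => by
      show f x + 1 * (χ x * (mdl0 (fderiv ℝ (fderiv ℝ f) p) μ e p x - f x)) = _
      rw [hχ1 x hx.le]
      ring)
  have hmC : ContDiff ℝ ∞ (mdl0 (fderiv ℝ (fderiv ℝ f) p) μ e p) := mdl0_contDiff _ _ _ _
  set m := mdl0 (fderiv ℝ (fderiv ℝ f) p) μ e p with hm
  have hfc : Continuous f := hf.good.cont
  -- outside of the ball
  have hout : ∀ x, r ≤ ‖x - p‖ → ∀ᶠ y in 𝓝 x, χ y = 0 := by
    intro x hx
    have hc : Continuous fun y : V => ‖y - p‖ := by fun_prop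
    have h1 : ∀ᶠ y in 𝓝 x, r / 2 < ‖y - p‖ :=
      hc.continuousAt.eventually (lt_mem_nhds (by linarith))
    filter_upwards [h1] with y hy
    exact hχ0 y hy.le
  have hout' : ∀ t x, r ≤ ‖x - p‖ → f =ᶠ[𝓝 x] fun y => f y + t * (χ y * (m y - f y)) := by
    intro t x hx
    filter_upwards [hout x hx] with y hy
    rw [hy]
    ring
  -- smoothness in the ball
  have hG : ∀ t x, ‖x - p‖ < r → ContDiffAt ℝ 1
      (fun q : ℝ × V => f q.2 + q.1 * (χ q.2 * (m q.2 - f q.2))) (t, x) := by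
    intro t x hx
    have hfx : ContDiffAt ℝ 1 f x := (hsm x hx).of_le (by norm_num)
    have h1 : ContDiffAt ℝ 1 (fun q : ℝ × V => f q.2) (t, x) :=
      ContDiffAt.comp (t, x) (f := fun q : ℝ × V => q.2) (g := f) hfx contDiffAt_snd
    have h2 : ContDiffAt ℝ 1 (fun q : ℝ × V => χ q.2) (t, x) :=
      ((hχ.of_le (by exact_mod_cast le_top)).comp contDiff_snd).contDiffAt
    have h3 : ContDiffAt ℝ 1 (fun q : ℝ × V => m q.2) (t, x) :=
      ((hmC.of_le (by exact_mod_cast le_top)).comp contDiff_snd).contDiffAt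
    exact h1.add (contDiffAt_fst.mul (h2.mul (h3.sub h1)))
  have hGs : ∀ t x, ‖x - p‖ < r → ContDiffAt ℝ 1 (fun y => f y + t * (χ y * (m y - f y))) x := by
    intro t x hx
    have h1 : ContDiffAt ℝ 1 (fun y : V => (t, y)) x := contDiffAt_const.prodMk contDiffAt_id
    exact ContDiffAt.comp x (f := fun y : V => (t, y))
      (g := fun q : ℝ × V => f q.2 + q.1 * (χ q.2 * (m q.2 - f q.2))) (hG t x hx) h1
  have hGd : ∀ t x v, ‖x - p‖ < r →
      fderiv ℝ (fun q : ℝ × V => f q.2 + q.1 * (χ q.2 * (m q.2 - f q.2))) (t, x) (0, v) =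
        fderiv ℝ (fun y => f y + t * (χ y * (m y - f y))) x v := by
    intro t x v hx
    have h1 := ((hG t x hx).differentiableAt (by simp)).hasFDerivAt
    have h2 : HasFDerivAt (fun y : V => (t, y)) (ContinuousLinearMap.inr ℝ ℝ V) x :=
      hasFDerivAt_prodMk_right t x
    have h3 := h1.comp x h2
    have h4 : fderiv ℝ (fun y => f y + t * (χ y * (m y - f y))) x = _ := h3.fderiv
    rw [h4]
    rfl
  have hdesc : ∀ t x v, ‖x - p‖ < r →
      fderiv ℝ (fun y => f y + t * (χ y * (m y - f y))) x v < 0 →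
      Desc (fun s y => f y + s * (χ y * (m y - f y))) (𝓝 t) x v := by
    intro t x v hx hv
    have h1 := desc_smooth (hG t x hx) (v := v) (by rw [hGd t x v hx]; exact hv)
    exact h1
  have hbd : ∀ t x, f x + t * (χ x * (m x - f x)) ≤ 0 → x ∈ {x | f x ≤ 0} ∪ Metric.ball p r := by
    intro t x hx
    by_cases hxr : ‖x - p‖ < r
    · right
      rw [Metric.mem_ball, dist_eq_norm]
      exact hxr
    · left
      rw [hχ0 x (by linarith [not_lt.1 hxr])] at hx
      have : f x ≤ 0 := by linarith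
      exact this
  have hbdd : Bornology.IsBounded ({x | f x ≤ 0} ∪ Metric.ball p r) :=
    hf.bdd.union Metric.isBounded_ball
  have hHom : Hom f (fun x => f x + 1 * (χ x * (m x - f x))) := by
    refine ⟨fun t x => f x + t * (χ x * (m x - f x)), ?_, ?_, rfl, ?_, ?_⟩
    · have hχc : Continuous χ := hχ.continuous
      have hmc : Continuous m := hmC.continuous
      fun_prop
    · funext x
      ring
    · obtain ⟨R, hR⟩ := hbdd.exists_norm_le
      exact ⟨R, fun t _ x hx => hR x (hbd t x hx.le)⟩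
    · intro t ht x hx
      by_cases hxr : ‖x - p‖ < r
      · by_cases hxp : x = p
        · obtain ⟨μ', hμ', hgr⟩ := (hmi t).grad
          refine ⟨e, (hdesc t x e hxr ?_).mono nhdsWithin_le_nhds⟩
          rw [hxp, hgr e, real_inner_self_eq_norm_sq, he]
          linarith
        · obtain ⟨v, _, hv⟩ := hz' t ht x hxp hxr hx
          exact ⟨v, (hdesc t x v hxr hv).mono nhdsWithin_le_nhds⟩
      · have hxr' := not_lt.1 hxr
        have hfx : f x = 0 := by
          have hx' : f x + t * (χ x * (m x - f x)) = 0 := hx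
          rw [hχ0 x (by linarith)] at hx'
          linarith
        obtain ⟨v, hv⟩ := hf.good.desc x hfx
        refine ⟨v, Desc.congr (hv.const (𝓝[Icc 0 1] t)) ?_⟩
        have h1 : ∀ᶠ q : ℝ × V in 𝓝[Icc 0 1] t ×ˢ 𝓝 x, χ q.2 = 0 :=
          tendsto_snd.eventually (hout x hxr')
        filter_upwards [h1] with q hq
        rw [hq]
        ring
  refine ⟨fun x => f x + 1 * (χ x * (m x - f x)), μ, r / 4, hHom, ?_, ?_, hcases⟩
  swap
  · intro x hx
    have hg := hout' 1 x (hlowout x hx)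
    have hgx : f x = f x + 1 * (χ x * (m x - f x)) := hg.self_of_nhds
    refine ⟨fun h => ?_, fun _ => hg.symm⟩
    change f x + 1 * (χ x * (m x - f x)) ≤ 0 at h
    rw [hgx]
    exact h
  refine ⟨?_, hHom.good_right, ?_, hf.high, ?_⟩
  · exact hbdd.subset fun x hx => hbd 1 x hx
  · intro q hq
    by_cases hqp : q = p
    · rw [hqp]
      exact hmi 1
    · exact (hf.inw q hq).congr (hout' 1 q (hrP q hq hqp))
  · intro x hx hcx hxP
    by_cases hxr : ‖x - p‖ < r
    · have hxp : x ≠ p := fun h0 => hxP (h0 ▸ hp)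
      obtain ⟨v, hv1, hv2⟩ := hz' 1 ⟨zero_le_one, le_rfl⟩ x hxp hxr hx
      exact ⟨v, desc1_smooth (hGs 1 x hxr) hv2, hv1⟩
    · have hxr' := not_lt.1 hxr
      have hfx : f x = 0 := by
        have hx' : f x + 1 * (χ x * (m x - f x)) = 0 := hx
        rw [hχ0 x (by linarith)] at hx'
        linarith
      exact (hf.free x hfx hcx hxP).congr (hout' 1 x hxr')

end Pool.Schoen
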