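import Pool.Agent.H.MP_6c077c_gt.Gd.BaseDef
import Pool.Agent.H.MP_6c077c_gt.Shape

/-! Guard theorem: geometry of the slices of a smooth hypersurface. -/

set_option autoImplicit false

namespace Pool.Schoen

open Filter Set
open scoped Topology RealInnerProductSpace ContDiff

variable {V : Type*} [NormedAddCommGroup V] [InnerProductSpace ℝ V] [FiniteDimensional ℝ V]

theorem slc_smooth {F : V → ℝ} (hF : ContDiff ℝ ∞ F) (e : V) (c : ℝ) :
    ContDiff ℝ ∞ (slc F e c) :=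
  hF.comp ((ℝ ∙ e)ᗮ.subtypeL.contDiff.add contDiff_const)

theorem slc_bdd {F : V → ℝ} (hb : Bornology.IsBounded {x | F x ≤ 0}) (e : V) (c : ℝ) :
    Bornology.IsBounded {y | slc F e c y ≤ 0} := by
  obtain ⟨R, hR⟩ := hb.exists_norm_le
  refine isBounded_iff_forall_norm_le.2 ⟨R + ‖c • e‖, fun y hy => ?_⟩
  have h1 : ‖(y : V) + c • e‖ ≤ R := hR _ hy
  calc ‖y‖ = ‖((y : V) + c • e) - c • e‖ := by rw [add_sub_cancel_right]; rfl
    _ ≤ ‖(y : V) + c • e‖ + ‖c • e‖ := norm_sub_le _ _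
    _ ≤ R + ‖c • e‖ := by linarith

private theorem SliceGeo_fd {F : V → ℝ} (hF : ContDiff ℝ ∞ F) (e : V) (c : ℝ)
    (y v : (ℝ ∙ e)ᗮ) : fderiv ℝ (slc F e c) y v = fderiv ℝ F ((y : V) + c • e) (v : V) := by
  have h1 : HasFDerivAt (fun y : (ℝ ∙ e)ᗮ => (y : V) + c • e) (ℝ ∙ e)ᗮ.subtypeL y :=
    (ℝ ∙ e)ᗮ.subtypeL.hasFDerivAt.add_const _
  have h2 : HasFDerivAt (slc F e c)
      ((fderiv ℝ F ((y : V) + c • e)).comp (ℝ ∙ e)ᗮ.subtypeL) y :=
    ((hF.differentiable (by simp) _).hasFDerivAt).comp y h1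
  rw [h2.fderiv]
  rfl

theorem slc_gradient {F : V → ℝ} (hF : ContDiff ℝ ∞ F) (e : V) (c : ℝ) (y : (ℝ ∙ e)ᗮ) :
    gradient (slc F e c) y = hpr e (gradient F ((y : V) + c • e)) := by
  refine ext_inner_right ℝ fun v => ?_
  have h1 : fderiv ℝ (slc F e c) y v = ⟪gradient (slc F e c) y, v⟫ :=
    (InnerProductSpace.toDual_symm_apply (𝕜 := ℝ)).symm
  have h2 : fderiv ℝ F ((y : V) + c • e) (v : V) = ⟪gradient F ((y : V) + c • e), (v : V)⟫ :=
    (InnerProductSpace.toDual_symm_apply (𝕜 := ℝ)).symm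
  rw [← h1, SliceGeo_fd hF, h2, hpr]
  exact ((ℝ ∙ e)ᗮ.inner_orthogonalProjectionOnto_eq_of_mem_right v _).symm

theorem slc_reg {F : V → ℝ} (hF : ContDiff ℝ ∞ F) {e : V} (he : ‖e‖ = 1) {c : ℝ}
    (h : ∀ x, F x = 0 → ⟪e, x⟫ = c → ∀ l : ℝ, gradient F x ≠ l • e) (y : (ℝ ∙ e)ᗮ)
    (hy : slc F e c y = 0) : gradient (slc F e c) y ≠ 0 := by
  intro h0
  rw [slc_gradient hF] at h0
  refine h _ hy (inner_hpr he y c) ⟪e, gradient F ((y : V) + c • e)⟫ ?_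
  have h1 := hpr_add he (gradient F ((y : V) + c • e))
  rw [h0] at h1
  simpa using h1.symm

/-- PROOF. Second derivative of the composition with the affine map `y ↦ y + c • e`; map the
two-dimensional space by `Submodule.subtype`. -/
theorem slc_twoNeg {F : V → ℝ} (hF : ContDiff ℝ ∞ F) {e : V} {c : ℝ} {y : (ℝ ∙ e)ᗮ}
    (h : TwoNeg (slc F e c) y) : TwoNeg F ((y : V) + c • e) := by
  obtain ⟨U, hU, hneg⟩ := h
  refine ⟨U.map (ℝ ∙ e)ᗮ.subtype, ?_, ?_⟩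
  · rw [← hU]
    exact (Submodule.equivMapOfInjective (ℝ ∙ e)ᗮ.subtype (Submodule.subtype_injective _)
      U).finrank_eq.symm
  · rintro _ ⟨u, hu, rfl⟩ hne
    have hu0 : u ≠ 0 := by
      rintro rfl
      exact hne (map_zero _)
    obtain ⟨h1, h2⟩ := hneg u hu hu0
    rw [SliceGeo_fd hF] at h1
    refine ⟨h1, ?_⟩
    show fderiv ℝ (fderiv ℝ F) ((y : V) + c • e) (u : V) (u : V) < 0
    have hF2 : ContDiff ℝ ∞ (fderiv ℝ F) := hF.fderiv_right (by simp)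
    have hS2 : ContDiff ℝ ∞ (fderiv ℝ (slc F e c)) := (slc_smooth hF e c).fderiv_right (by simp)
    have l1 : HasDerivAt (fun t : ℝ => y + t • u) u 0 := by
      simpa using ((hasDerivAt_id (0 : ℝ)).smul_const u).const_add y
    have l2 : HasDerivAt (fun t : ℝ => (y : V) + c • e + t • (u : V)) (u : V) 0 := by
      simpa using ((hasDerivAt_id (0 : ℝ)).smul_const (u : V)).const_add ((y : V) + c • e)
    have e1 : HasDerivAt (fun t : ℝ => fderiv ℝ (slc F e c) (y + t • u))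
        (fderiv ℝ (fderiv ℝ (slc F e c)) y u) 0 :=
      ((hS2.differentiable (by simp) y).hasFDerivAt).comp_hasDerivAt_of_eq (0 : ℝ) l1
        (by rw [zero_smul, add_zero])
    have e2 := e1.clm_apply (hasDerivAt_const (0 : ℝ) u)
    have e3 : HasDerivAt (fun t : ℝ => fderiv ℝ F ((y : V) + c • e + t • (u : V)))
        (fderiv ℝ (fderiv ℝ F) ((y : V) + c • e) (u : V)) 0 :=
      ((hF2.differentiable (by simp) _).hasFDerivAt).comp_hasDerivAt_of_eq (0 : ℝ) l2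
        (by rw [zero_smul, add_zero])
    have e4 := e3.clm_apply (hasDerivAt_const (0 : ℝ) (u : V))
    have e5 : (fun t : ℝ => fderiv ℝ (slc F e c) (y + t • u) u) =
        fun t : ℝ => fderiv ℝ F ((y : V) + c • e + t • (u : V)) (u : V) := by
      funext t
      rw [SliceGeo_fd hF]
      congr 2
      push_cast
      abel
    rw [e5] at e2
    have e6 := e2.unique e4
    rw [map_zero, add_zero, map_zero, add_zero] at e6
    rw [← e6]
    exact h2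

/-- The margin survives the restriction to a hyperplane which is almost orthogonal to the guards.
PROOF. `o' = hpr e o`, `U' = U.map (hprL e)`, `R' = R`, `δ' = δ / 2`. For a zero `y` of the slice with
`TwoNeg`: `x = y + c • e`, `slc_twoNeg`, `u ∈ U`, `δ ≤ ⟪x - (o + u), N⟫`, `N = nrm F x`, and
`x - (o + u) = (y - (o' + hpr e u)) + (c - ⟪e, o + u⟫) • e`, so
`⟪y - (o' + hpr e u), hpr e N⟫ ≥ δ - δ / 2`; `hpr e N = r • nrm (slc F e c) y` with `0 ≤ r ≤ 1`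
(`slc_gradient`). -/
theorem slc_mvis {F : V → ℝ} (hF : ContDiff ℝ ∞ F) {e : V} (he : ‖e‖ = 1) {c : ℝ} {d : ℕ}
    {o : V} {U : Submodule ℝ V} {R δ : ℝ} (hU : Module.finrank ℝ U ≤ d) (hδ : 0 < δ)
    (h : ∀ x, F x = 0 → TwoNeg F x → ∃ u ∈ U, ‖u‖ ≤ R ∧ δ ≤ ⟪x - (o + u), nrm F x⟫)
    (hc : ∀ u ∈ U, ‖u‖ ≤ R → |c - ⟪e, o + u⟫| ≤ δ / 2)
    (hg : ∀ x, F x = 0 → ⟪e, x⟫ = c → ∀ l : ℝ, gradient F x ≠ l • e) :
    MVis (slc F e c) d := by
  refine ⟨hpr e o, U.map (hprL e : V →ₗ[ℝ] (ℝ ∙ e)ᗮ), R, δ / 2,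
    (Submodule.finrank_map_le _ _).trans hU, by linarith, fun y hy hn => ?_⟩
  obtain ⟨x, hx⟩ : ∃ x, x = (y : V) + c • e := ⟨_, rfl⟩
  have hFx : F x = 0 := by rw [hx]; exact hy
  obtain ⟨u, hu, huR, hd⟩ := h x hFx (by rw [hx]; exact slc_twoNeg hF hn)
  refine ⟨hpr e u, ⟨u, hu, rfl⟩, (norm_hpr_le e u).trans huR, ?_⟩
  have hg0 := slc_reg hF he hg y hy
  obtain ⟨G, hG⟩ : ∃ G, G = gradient F x := ⟨_, rfl⟩
  have hgr : gradient (slc F e c) y = hpr e G := by rw [hG, hx]; exact slc_gradient hF e c y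
  rw [hgr] at hg0
  have hg1 : 0 < ‖hpr e G‖ := norm_pos_iff.2 hg0
  have hG1 : ‖hpr e G‖ ≤ ‖G‖ := norm_hpr_le e G
  have hGp : 0 < ‖G‖ := hg1.trans_le hG1
  have hproj : ∀ z : (ℝ ∙ e)ᗮ, ⟪z, hpr e G⟫ = ⟪(z : V), G⟫ := fun z =>
    Submodule.inner_orthogonalProjectionOnto_eq_of_mem_left z G
  have hdec : x - (o + u) = ((y - (hpr e o + hpr e u) : (ℝ ∙ e)ᗮ) : V) +
      (c - ⟪e, o + u⟫) • e := by
    have h1 := hpr_add he o
    have h2 := hpr_add he u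
    rw [inner_add_right, hx]
    push_cast
    rw [sub_smul, add_smul]
    nth_rewrite 1 [← h1]
    nth_rewrite 1 [← h2]
    abel
  have hd' : δ * ‖G‖ ≤ ⟪x - (o + u), G⟫ := by
    rw [nrm, ← hG, real_inner_smul_right, inv_mul_eq_div, le_div_iff₀ hGp] at hd
    exact hd
  have hle : (c - ⟪e, o + u⟫) * ⟪e, G⟫ ≤ δ / 2 * ‖G‖ := by
    have h1 : |⟪e, G⟫| ≤ ‖G‖ := by
      have := abs_real_inner_le_norm e G
      rwa [he, one_mul] at this
    calc (c - ⟪e, o + u⟫) * ⟪e, G⟫ ≤ |(c - ⟪e, o + u⟫) * ⟪e, G⟫| := le_abs_self _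
      _ = |c - ⟪e, o + u⟫| * |⟪e, G⟫| := abs_mul _ _
      _ ≤ δ / 2 * ‖G‖ := mul_le_mul (hc u hu huR) h1 (abs_nonneg _) (by linarith)
  rw [hdec, inner_add_left, real_inner_smul_left, ← hproj] at hd'
  rw [nrm, hgr, real_inner_smul_right, inv_mul_eq_div, le_div_iff₀ hg1]
  have h3 : δ / 2 * ‖hpr e G‖ ≤ δ / 2 * ‖G‖ := mul_le_mul_of_nonneg_left hG1 (by linarith)
  linarith

end Pool.Schoen
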